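import Pool.Agent.LGO.Mul.Disc
import Pool.Agent.Hhelper14.ZPL.Hecke2

/-!
# LGO/Mul: uniformisation

PROOF. `ZPL.j_surj` + `ModularGroup.exists_smul_mem_fd` (`jInv_smul`; see `pairA_fd` in `ZPS/PairA.lean`):
there is `τ` with `Red τ` and `jInv τ = 1728 g2³/(g2³ - 27 g3²)`. By `jInv_mul`
`G2(1,τ)³ g3² = g2³ G3(1,τ)²` (`disc_ne_zero` for `ind_one`). Choose `w` with `w⁴ = G2(1,τ)/g2` if `g3 = 0`
(then `g2 ≠ 0`, `G3(1,τ) = 0`), `w⁶ = G3(1,τ)/g3` if `g2 = 0` (then `G2(1,τ) = 0`), and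
`w² = G3(1,τ) g2 / (G2(1,τ) g3)` otherwise (compare `scale_of_sq` in `EllSch/RelA.lean`);
`G2_scale`, `G3_scale`.
-/

namespace Pool.Agent.LGO

open Pool.Agent.EllSch

/-- every complex number is the `j`-invariant of a point of the fundamental domain -/
theorem Unif_exists_red (z : ℂ) : ∃ τ : UpperHalfPlane, Red (τ : ℂ) ∧
    Pool.Agent.Hhelper14.ZP.jInv τ = z := by
  obtain ⟨τ, hτ⟩ := Pool.Agent.Hhelper14.ZPL.j_surj z
  obtain ⟨g, hg⟩ := ModularGroup.exists_smul_mem_fd τ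
  refine ⟨g • τ, ⟨(g • τ).im_pos, hg.2, ?_⟩, by
    rw [Pool.Agent.Hhelper14.ZP.jInv_smul, hτ]⟩
  have h1 := hg.1
  rw [Complex.normSq_eq_norm_sq] at h1
  by_contra hc
  rw [not_le] at hc
  have h2 := norm_nonneg ((g • τ : UpperHalfPlane) : ℂ)
  nlinarith

/-- the scaling factor: `(G, H)` and `(g, k)` with the same `j`-invariant -/
theorem Unif_exists_scale {G H g k : ℂ} (hG : G ^ 3 - 27 * H ^ 2 ≠ 0) (h : g ^ 3 - 27 * k ^ 2 ≠ 0)
    (hk : G ^ 3 * k ^ 2 = g ^ 3 * H ^ 2) :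
    ∃ w : ℂ, w ≠ 0 ∧ G / w ^ 4 = g ∧ H / w ^ 6 = k := by
  by_cases hk0 : k = 0
  · subst hk0
    have hg0 : g ≠ 0 := by
      rintro rfl
      exact h (by ring)
    have hH0 : H = 0 := by
      have h1 : g ^ 3 * H ^ 2 = 0 := by rw [← hk]; ring
      have h2 := (mul_eq_zero.1 h1).resolve_left (pow_ne_zero _ hg0)
      exact (pow_eq_zero_iff (by norm_num)).1 h2
    subst hH0
    have hG0 : G ≠ 0 := by
      rintro rfl
      exact hG (by ring)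
    obtain ⟨w, hw⟩ := IsAlgClosed.exists_pow_nat_eq (G / g) (n := 4) (by norm_num)
    have hw0 : w ≠ 0 := by
      rintro rfl
      exact div_ne_zero hG0 hg0 (by rw [← hw]; ring)
    refine ⟨w, hw0, ?_, by simp⟩
    rw [hw]
    field_simp
  by_cases hg0 : g = 0
  · subst hg0
    have hG0 : G = 0 := by
      have h1 : G ^ 3 * k ^ 2 = 0 := by rw [hk]; ring
      have h2 := (mul_eq_zero.1 h1).resolve_right (pow_ne_zero _ hk0)
      exact (pow_eq_zero_iff (by norm_num)).1 h2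
    subst hG0
    have hH0 : H ≠ 0 := by
      rintro rfl
      exact hG (by ring)
    obtain ⟨w, hw⟩ := IsAlgClosed.exists_pow_nat_eq (H / k) (n := 6) (by norm_num)
    have hw0 : w ≠ 0 := by
      rintro rfl
      exact div_ne_zero hH0 hk0 (by rw [← hw]; ring)
    refine ⟨w, hw0, by simp, ?_⟩
    rw [hw]
    field_simp
  have hH0 : H ≠ 0 := by
    rintro rfl
    have h1 : G ^ 3 * k ^ 2 = 0 := by rw [hk]; ring
    have h2 := (mul_eq_zero.1 h1).resolve_right (pow_ne_zero _ hk0)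
    exact hG (by rw [h2]; ring)
  have hG0 : G ≠ 0 := by
    rintro rfl
    have h1 : g ^ 3 * H ^ 2 = 0 := by rw [← hk]; ring
    exact (mul_ne_zero (pow_ne_zero _ hg0) (pow_ne_zero _ hH0)) h1
  obtain ⟨w, hw⟩ := IsAlgClosed.exists_pow_nat_eq (H * g / (G * k)) (n := 2) (by norm_num)
  have hw0 : w ≠ 0 := by
    rintro rfl
    exact div_ne_zero (mul_ne_zero hH0 hg0) (mul_ne_zero hG0 hk0) (by rw [← hw]; ring)
  have hw' : w ^ 2 * (G * k) = H * g := by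
    rw [hw]
    exact div_mul_cancel₀ _ (mul_ne_zero hG0 hk0)
  refine ⟨w, hw0, ?_, ?_⟩
  · rw [div_eq_iff (pow_ne_zero _ hw0)]
    have h5 : (G - g * w ^ 4) * (G * k) ^ 2 = 0 := by
      have h6 : w ^ 4 * (G * k) ^ 2 = (H * g) ^ 2 := by
        rw [← hw']; ring
      linear_combination (-g) * h6 + hk
    exact sub_eq_zero.1 ((mul_eq_zero.1 h5).resolve_right (pow_ne_zero _ (mul_ne_zero hG0 hk0)))
  · rw [div_eq_iff (pow_ne_zero _ hw0)]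
    have h5 : (H - k * w ^ 6) * (G * k) ^ 3 = 0 := by
      have h6 : w ^ 6 * (G * k) ^ 3 = (H * g) ^ 3 := by
        rw [← hw']; ring
      linear_combination (-k) * h6 + (H * k) * hk
    exact sub_eq_zero.1 ((mul_eq_zero.1 h5).resolve_right (pow_ne_zero _ (mul_ne_zero hG0 hk0)))

theorem exists_lat {g2 g3 : ℂ} (h : g2 ^ 3 - 27 * g3 ^ 2 ≠ 0) :
    ∃ w τ : ℂ, w ≠ 0 ∧ Red τ ∧ G2 w (w * τ) = g2 ∧ G3 w (w * τ) = g3 := by
  obtain ⟨τ, hred, hj⟩ := Unif_exists_red (1728 * g2 ^ 3 / (g2 ^ 3 - 27 * g3 ^ 2))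
  have hd := disc_ne_zero (ind_one (τ := (τ : ℂ)) τ.im_pos)
  have hm := jInv_mul τ
  rw [hj] at hm
  have hk : G2 1 (τ : ℂ) ^ 3 * g3 ^ 2 = g2 ^ 3 * G3 1 (τ : ℂ) ^ 2 := by
    have h1 : 1728 * g2 ^ 3 / (g2 ^ 3 - 27 * g3 ^ 2) * (g2 ^ 3 - 27 * g3 ^ 2) = 1728 * g2 ^ 3 :=
      div_mul_cancel₀ _ h
    have h2 : 1728 * g2 ^ 3 * (G2 1 (τ : ℂ) ^ 3 - 27 * G3 1 (τ : ℂ) ^ 2) =
        1728 * G2 1 (τ : ℂ) ^ 3 * (g2 ^ 3 - 27 * g3 ^ 2) := by
      rw [← h1, ← hm]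
      ring
    linear_combination (1 / (1728 * 27) : ℂ) * h2
  obtain ⟨w, hw0, h2, h3⟩ := Unif_exists_scale hd h hk
  exact ⟨w, τ, hw0, hred, by rw [G2_scale hw0, h2], by rw [G3_scale hw0, h3]⟩

end Pool.Agent.LGO
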