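import Pool.Agent.LGO.Mul.Defs
import Pool.Agent.AHC.Ext

/-!
# LGO/Mul: elementary height facts

`Bd.lower` (Liouville): `n x` is an integral element of `K` for some `0 < n ≤ exp h`; its norm is a
nonzero integer, equal to the product over the `[K : ℚ]` embeddings `σ` of `σ(n x)`
(`Algebra.norm_eq_prod_embeddings`), each of absolute value `≤ exp(2 h)`; so
`‖σ x‖ ≥ exp(-h) exp(-2 h (D - 1)) ≥ exp(-(2 D h))` for `h ≥ 0`, `D ≥ 1`.
`exists_aut`: every embedding `K → ℂ` of a finite extension `K` of `ℚ` inside `ℂ` extends to an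
automorphism of `ℂ` (`ℂ` is algebraic over `K(B)`, `B` a transcendence basis over `ℚ`; or
`IsAlgClosed.equivOfTranscendenceBasis`, or the library `Pool/Agent/AHC`).
-/

namespace Pool.Agent.LGO

theorem Bd.lower {K : IntermediateField ℚ ℂ} [FiniteDimensional ℚ K] {D h : ℝ} {x : ℂ}
    (hD : (Module.finrank ℚ K : ℝ) ≤ D) (hh : 0 ≤ h) (hx : Bd K h x) (h0 : x ≠ 0)
    (σ : K →+* ℂ) : Real.exp (-(2 * D * h)) ≤ ‖σ ⟨x, hx.mem⟩‖ := by
  classical
  obtain ⟨n, hn, hnh, hint⟩ := hx.den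
  set y : K := ⟨x, hx.mem⟩ with hy
  have hyn : y ≠ 0 := by
    intro e
    apply h0
    have := congrArg (fun z : K => (z : ℂ)) e
    simpa [hy] using this
  set w : K := (n : K) * y with hw
  have hn0 : (n : K) ≠ 0 := Nat.cast_ne_zero.2 hn.ne'
  have hwn : w ≠ 0 := mul_ne_zero hn0 hyn
  have hwint : IsIntegral ℤ w := by
    have h1 : IsIntegral ℤ ((algebraMap K ℂ) w) := by
      have e : (algebraMap K ℂ) w = (n : ℂ) * x := by
        rw [hw, map_mul, map_natCast]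
        rfl
      rw [e]
      exact hint
    exact (isIntegral_algebraMap_iff (algebraMap K ℂ).injective).1 h1
  have hN : IsIntegral ℤ (Algebra.norm ℚ w) := Algebra.isIntegral_norm ℚ hwint
  obtain ⟨z, hz⟩ := IsIntegrallyClosed.isIntegral_iff.1 hN
  have hz0 : z ≠ 0 := by
    intro e
    rw [e, map_zero] at hz
    exact hwn (Algebra.norm_eq_zero_iff.1 hz.symm)
  have hprod := Algebra.norm_eq_prod_embeddings ℚ ℂ w
  have hge : 1 ≤ ‖∏ τ : K →ₐ[ℚ] ℂ, τ w‖ := by
    rw [← hprod, ← hz]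
    have e : (algebraMap ℚ ℂ) ((algebraMap ℤ ℚ) z) = (z : ℂ) := by simp
    rw [e, Complex.norm_intCast]
    exact_mod_cast Int.one_le_abs hz0
  -- the algebra homomorphism attached to `σ`
  set σ' : K →ₐ[ℚ] ℂ := RingHom.toRatAlgHom σ with hσ'
  have hup : ∀ τ : K →ₐ[ℚ] ℂ, ‖τ w‖ ≤ Real.exp (2 * h) := by
    intro τ
    have e : τ w = (n : ℂ) * τ y := by rw [hw, map_mul, map_natCast]
    rw [e, norm_mul, Complex.norm_natCast]
    have h2 := hx.house (τ : K →+* ℂ)
    calc (n : ℝ) * ‖τ y‖ ≤ Real.exp h * Real.exp h :=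
          mul_le_mul hnh h2 (norm_nonneg _) (Real.exp_pos _).le
      _ = Real.exp (2 * h) := by rw [← Real.exp_add]; ring_nf
  have hcard : Fintype.card (K →ₐ[ℚ] ℂ) = Module.finrank ℚ K := AlgHom.card ℚ K ℂ
  set d : ℕ := Module.finrank ℚ K with hd
  have hd1 : 1 ≤ d := Module.finrank_pos
  rw [norm_prod, ← Finset.mul_prod_erase Finset.univ _ (Finset.mem_univ σ')] at hge
  have hrest : ∏ τ ∈ Finset.univ.erase σ', ‖τ w‖ ≤ Real.exp (2 * h) ^ (d - 1) := by
    have h3 : (Finset.univ.erase σ').card = d - 1 := by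
      rw [Finset.card_erase_of_mem (Finset.mem_univ _), Finset.card_univ, hcard]
    rw [← h3, ← Finset.prod_const]
    exact Finset.prod_le_prod (fun τ _ => norm_nonneg _) fun τ _ => hup τ
  have hσw : ‖σ' w‖ = (n : ℝ) * ‖σ y‖ := by
    have e : σ' w = (n : ℂ) * σ y := by
      have e1 : σ' w = σ w := rfl
      rw [e1, hw, map_mul, map_natCast]
    rw [e, norm_mul, Complex.norm_natCast]
  rw [hσw] at hge
  have h4 : 1 ≤ (n : ℝ) * ‖σ y‖ * Real.exp (2 * h) ^ (d - 1) :=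
    hge.trans (mul_le_mul_of_nonneg_left hrest (by positivity))
  have h5 : 1 ≤ Real.exp h * ‖σ y‖ * Real.exp (2 * h) ^ (d - 1) := by
    refine h4.trans ?_
    gcongr
  have h6 : Real.exp h * Real.exp (2 * h) ^ (d - 1) ≤ Real.exp (2 * D * h) := by
    rw [← Real.exp_nat_mul, ← Real.exp_add]
    apply Real.exp_le_exp.2
    have h7 : ((d - 1 : ℕ) : ℝ) = (d : ℝ) - 1 := by
      rw [Nat.cast_sub hd1, Nat.cast_one]
    rw [h7]
    nlinarith
  have h8 : 1 ≤ Real.exp (2 * D * h) * ‖σ y‖ := by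
    refine h5.trans ?_
    calc Real.exp h * ‖σ y‖ * Real.exp (2 * h) ^ (d - 1)
        = (Real.exp h * Real.exp (2 * h) ^ (d - 1)) * ‖σ y‖ := by ring
      _ ≤ Real.exp (2 * D * h) * ‖σ y‖ := mul_le_mul_of_nonneg_right h6 (norm_nonneg _)
  rw [Real.exp_neg, inv_le_iff_one_le_mul₀ (Real.exp_pos _)]
  linarith [mul_comm (Real.exp (2 * D * h)) ‖σ y‖]

theorem exists_aut (K : IntermediateField ℚ ℂ) [FiniteDimensional ℚ K] (σ : K →+* ℂ) :
    ∃ s : ℂ ≃+* ℂ, ∀ x : K, s x = σ x := by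
  obtain ⟨s, hs⟩ := Pool.Agent.AHC.exists_aut (R := ℚ) (S := K) (algebraMap ℚ K).injective
    (by
      have h1 : Algebra.trdeg ℚ K = 0 := trdeg_eq_zero
      rw [h1]
      exact Cardinal.aleph0_pos) (algebraMap K ℂ) σ (algebraMap K ℂ).injective σ.injective
    (by
      apply RingHom.ext
      intro q
      simp)
  exact ⟨s, hs⟩

end Pool.Agent.LGO
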