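import Pool.Agent.LGO.Mul.Disc

/-!
# LGO/Mul: bounds for the covolume

PROOF. `G2(w,wτ)³ - 27 G3(w,wτ)² = (2π)¹² Δ(τ) / w¹²` (`disc_eq`, `G2_scale`, `G3_scale`); `|Δ(τ)|` is between
`c e^(-2π Im τ)` and `C e^(-2π Im τ)` for `Red τ` (`discriminant_eq_q_prod`, the product is between two positive
constants for `|q| ≤ e^(-π√3)`; or `exp_isBigO_discriminant`, `exp_decay_isBigO_discriminant` near `i∞` and
compactness of the rest of the fundamental domain, `discriminant_ne_zero`).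
Upper bound: `(|w|² Im τ)⁶ = |w|¹² (Im τ)⁶ ≤ C e^E e^(-2π Im τ) (Im τ)⁶ ≤ C e^E`.
`Im τ`: `|G2(1,τ)| ≥ c > 0` for `Im τ ≥ C` (`exists_q_G2` in EllSch/Cusp), so
`e^(3h) / e^(-E) ≥ |G2(w,wτ)|³ / |disc| = |G2(1,τ)|³ / ((2π)¹² |Δ(τ)|) ≥ c e^(2π Im τ)`: `Im τ ≤ C(1 + h + E)`.
Lower bound: `|w|¹² = (2π)¹² |Δ(τ)| / |disc| ≥ c e^(-2π Im τ) / (28 e^(3h))`.
-/

namespace Pool.Agent.LGO

open Pool.Agent.EllSch

private lemma Vol_P_ne {q : ℂ} (hq : ‖q‖ < 1) : ∏' n : ℕ, (1 - q ^ (n + 1)) ^ 24 ≠ 0 := by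
  by_cases h0 : q = 0
  · subst h0
    simp
  · have him := Function.Periodic.im_invQParam_pos_of_norm_lt_one one_pos hq h0
    have h1 := ModularForm.discriminant_ne_zero ⟨_, him⟩
    rw [ModularForm.discriminant_eq_q_prod] at h1
    have h2 := right_ne_zero_of_mul h1
    have h3 : Function.Periodic.qParam 1 (Function.Periodic.invQParam 1 q) = q :=
      Function.Periodic.qParam_right_inv one_ne_zero h0
    simpa [ModularForm.eta_q, h3] using h2

private lemma Vol_q (τ : UpperHalfPlane) :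
    ‖Function.Periodic.qParam 1 (τ : ℂ)‖ = Real.exp (-(2 * Real.pi * τ.im)) := by
  simp [Function.Periodic.qParam, Complex.norm_exp]

private lemma Vol_disc : ∃ c C : ℝ, 0 < c ∧ 0 < C ∧ ∀ τ : UpperHalfPlane, 1 / 2 ≤ τ.im →
    c * Real.exp (-(2 * Real.pi * τ.im)) ≤ ‖ModularForm.discriminant τ‖ ∧
      ‖ModularForm.discriminant τ‖ ≤ C * Real.exp (-(2 * Real.pi * τ.im)) := by
  have hr : Real.exp (-Real.pi) < 1 := by
    rw [Real.exp_lt_one_iff]
    linarith [Real.pi_pos]
  have hK : IsCompact (Metric.closedBall (0 : ℂ) (Real.exp (-Real.pi))) :=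
    isCompact_closedBall _ _
  have hsub : Metric.closedBall (0 : ℂ) (Real.exp (-Real.pi)) ⊆ Metric.ball 0 1 :=
    Metric.closedBall_subset_ball hr
  have hcont : ContinuousOn (fun q : ℂ => ‖∏' n : ℕ, (1 - q ^ (n + 1)) ^ 24‖)
      (Metric.closedBall (0 : ℂ) (Real.exp (-Real.pi))) :=
    ((ModularForm.differentiableOn_tprod_one_sub_pow_pow 24).continuousOn.mono hsub).norm
  have hne : (Metric.closedBall (0 : ℂ) (Real.exp (-Real.pi))).Nonempty :=
    ⟨0, Metric.mem_closedBall_self (Real.exp_pos _).le⟩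
  obtain ⟨q₁, hq₁, hmin⟩ := hK.exists_isMinOn hne hcont
  obtain ⟨q₂, hq₂, hmax⟩ := hK.exists_isMaxOn hne hcont
  have hp1 : 0 < ‖∏' n : ℕ, (1 - q₁ ^ (n + 1)) ^ 24‖ := by
    rw [norm_pos_iff]
    exact Vol_P_ne (by simpa using hsub hq₁)
  have hp2 : 0 < ‖∏' n : ℕ, (1 - q₂ ^ (n + 1)) ^ 24‖ := by
    rw [norm_pos_iff]
    exact Vol_P_ne (by simpa using hsub hq₂)
  refine ⟨_, _, hp1, hp2, ?_⟩
  intro τ hτ
  have hq : Function.Periodic.qParam 1 (τ : ℂ) ∈
      Metric.closedBall (0 : ℂ) (Real.exp (-Real.pi)) := by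
    rw [mem_closedBall_zero_iff, Vol_q, Real.exp_le_exp]
    nlinarith [Real.pi_pos]
  have e : ‖ModularForm.discriminant τ‖ = Real.exp (-(2 * Real.pi * τ.im)) *
      ‖∏' n : ℕ, (1 - Function.Periodic.qParam 1 (τ : ℂ) ^ (n + 1)) ^ 24‖ := by
    rw [ModularForm.discriminant_eq_q_prod, norm_mul, Vol_q]
  rw [e]
  have h1 := hmin hq
  have h2 := hmax hq
  have h3 := Real.exp_pos (-(2 * Real.pi * τ.im))
  constructor
  · rw [mul_comm]
    exact mul_le_mul_of_nonneg_left h1 h3.le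
  · rw [mul_comm _ (Real.exp _)]
    exact mul_le_mul_of_nonneg_left h2 h3.le

private lemma Vol_G2 : ∃ k Y : ℝ, 0 < k ∧ 0 ≤ Y ∧ ∀ τ : ℂ, 0 < τ.im → Y ≤ τ.im →
    k ≤ ‖G2 1 τ‖ := by
  obtain ⟨g, hg, hg0, hgt⟩ := exists_q_G2
  have hc : ContinuousAt g 0 := (hg.differentiableAt (Metric.ball_mem_nhds 0 one_pos)).continuousAt
  have hk : 0 < ‖g 0‖ / 2 := by
    have := norm_pos_iff.2 hg0
    linarith
  have hlt : ‖g 0‖ / 2 < ‖g 0‖ := by linarith
  obtain ⟨δ, hδ, hd⟩ := Metric.eventually_nhds_iff.1 (hc.norm.eventually (lt_mem_nhds hlt))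
  refine ⟨‖g 0‖ / 2, |Real.log δ| + 1, hk, by positivity, ?_⟩
  intro τ hτ hY
  rw [hgt τ hτ]
  apply (hd _).le
  rw [dist_zero_right, Complex.norm_exp]
  have e : (2 * (Real.pi : ℂ) * Complex.I * τ).re = -(2 * Real.pi * τ.im) := by
    simp
  rw [e]
  calc Real.exp (-(2 * Real.pi * τ.im)) < Real.exp (Real.log δ) := by
        rw [Real.exp_lt_exp]
        have h1 := neg_abs_le (Real.log δ)
        have h2 : τ.im ≤ 2 * Real.pi * τ.im := by
          nlinarith [Real.pi_gt_three]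
        linarith
    _ = δ := Real.exp_log hδ

private lemma Vol_le_pow {x : ℝ} (hx : 0 ≤ x) : x ≤ 1 + x ^ 6 := by
  rcases le_total x 1 with h | h
  · have := pow_nonneg hx 6
    linarith
  · have : x ^ 1 ≤ x ^ 6 := pow_le_pow_right₀ h (by norm_num)
    rw [pow_one] at this
    linarith

private lemma Vol_pow_le {x e : ℝ} (hx : 0 ≤ x) (he : e ≤ 1) (h : e ≤ x ^ 6) : e ≤ x := by
  rcases le_total x 1 with h1 | h1
  · have : x ^ 6 ≤ x ^ 1 := pow_le_pow_of_le_one hx h1 (by norm_num)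
    rw [pow_one] at this
    linarith
  · linarith

theorem covol_bd : ∃ C : ℝ, 0 < C ∧ ∀ (w τ : ℂ) (h E : ℝ), w ≠ 0 → Red τ → 0 ≤ h → 0 ≤ E →
    ‖G2 w (w * τ)‖ ≤ Real.exp h → ‖G3 w (w * τ)‖ ≤ Real.exp h →
    Real.exp (-E) ≤ ‖G2 w (w * τ) ^ 3 - 27 * G3 w (w * τ) ^ 2‖ →
      τ.im ≤ C * (1 + h + E) ∧ Real.exp (-(C * (1 + h + E))) ≤ ‖w‖ ^ 2 * τ.im ∧
        ‖w‖ ^ 2 * τ.im ≤ Real.exp (C * (1 + h + E)) := by
  obtain ⟨c1, C1, hc1, hC1, hdisc⟩ := Vol_disc
  obtain ⟨k, Y, hk, hY, hG⟩ := Vol_G2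
  set A : ℝ := (2 * Real.pi) ^ 12 with hA
  have hA0 : 0 < A := by positivity
  set L1 : ℝ := |Real.log (A * C1 / k ^ 3)| with hL1
  set Ca : ℝ := L1 + 3 + Y with hCa
  set L2 : ℝ := Real.log (1 + 720 * (A * C1)) with hL2
  set L3 : ℝ := |Real.log (A * c1 / 28)| with hL3
  set M : ℝ := L3 + 7 * Ca + 3 with hM
  have hL1' : 0 ≤ L1 := abs_nonneg _
  have hL2' : 0 ≤ L2 := Real.log_nonneg (by nlinarith [mul_pos hA0 hC1])
  have hL3' : 0 ≤ L3 := abs_nonneg _
  refine ⟨Ca + (L2 + 1) + (M + 1), by positivity, ?_⟩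
  intro w τ h E hw hred hh hE h2 h3 hD
  have hs : 1 ≤ 1 + h + E := by linarith
  set s : ℝ := 1 + h + E with hsdef
  -- the imaginary part
  have hy := hred.im_pos
  have hy2 : 1 / 2 ≤ τ.im := by
    have a1 := hred.one_le
    have a2 := hred.re_le
    have a3 : ‖τ‖ ^ 2 = τ.re ^ 2 + τ.im ^ 2 := by
      rw [← Complex.normSq_eq_norm_sq, Complex.normSq_apply]
      ring
    have a4 : τ.re ^ 2 ≤ (1 / 2) ^ 2 := by
      rw [← sq_abs τ.re]
      exact pow_le_pow_left₀ (abs_nonneg _) a2 2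
    nlinarith
  obtain ⟨d1, d2⟩ := hdisc ⟨τ, hy⟩ hy2
  have hdeq := disc_eq ⟨τ, hy⟩
  change c1 * Real.exp (-(2 * Real.pi * τ.im)) ≤ _ at d1
  change _ ≤ C1 * Real.exp (-(2 * Real.pi * τ.im)) at d2
  change G2 1 τ ^ 3 - 27 * G3 1 τ ^ 2 = _ at hdeq
  set Δ : ℝ := ‖ModularForm.discriminant ⟨τ, hy⟩‖ with hΔ
  set W : ℝ := ‖w‖ with hW
  have hWpos : 0 < W := norm_pos_iff.2 hw
  set D : ℝ := ‖G2 w (w * τ) ^ 3 - 27 * G3 w (w * τ) ^ 2‖ with hDdef
  have key : D * W ^ 12 = A * Δ := by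
    have e1 : (G2 w (w * τ) ^ 3 - 27 * G3 w (w * τ) ^ 2) * w ^ 12 =
        G2 1 τ ^ 3 - 27 * G3 1 τ ^ 2 := by
      rw [G2_scale hw, G3_scale hw]
      field_simp
    have e2 := congrArg norm e1
    rw [hdeq, norm_mul, norm_mul, norm_pow, norm_pow] at e2
    rw [hDdef, hW, e2, hA, hΔ]
    congr 2
    rw [norm_mul, Complex.norm_real, Real.norm_of_nonneg Real.pi_pos.le]
    norm_num
  -- (1)
  have c_y : τ.im ≤ Ca * s := by
    rcases le_total τ.im Y with hyY | hyY
    · calc τ.im ≤ Y * 1 := by linarith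
        _ ≤ Ca * s := mul_le_mul (by linarith) hs (by norm_num) (by positivity)
    · have g1 := hG τ hy hyY
      have g2 : ‖G2 w (w * τ)‖ * W ^ 4 = ‖G2 1 τ‖ := by
        rw [G2_scale hw, norm_div, norm_pow, ← hW]
        field_simp
      have g3 : k ^ 3 ≤ Real.exp h ^ 3 * W ^ 12 := by
        calc k ^ 3 ≤ ‖G2 1 τ‖ ^ 3 := pow_le_pow_left₀ hk.le g1 3
          _ = ‖G2 w (w * τ)‖ ^ 3 * W ^ 12 := by
              rw [← g2]
              ring
          _ ≤ Real.exp h ^ 3 * W ^ 12 :=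
              mul_le_mul_of_nonneg_right (pow_le_pow_left₀ (norm_nonneg _) h2 3) (by positivity)
      have g4 : Real.exp (-E) * W ^ 12 ≤ A * (C1 * Real.exp (-(2 * Real.pi * τ.im))) := by
        calc Real.exp (-E) * W ^ 12 ≤ D * W ^ 12 := mul_le_mul_of_nonneg_right hD (by positivity)
          _ = A * Δ := key
          _ ≤ _ := mul_le_mul_of_nonneg_left d2 hA0.le
      have g5 : Real.exp (2 * Real.pi * τ.im) ≤ A * C1 / k ^ 3 * Real.exp (3 * h + E) := by
        have e1 : Real.exp (-E) * k ^ 3 ≤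
            Real.exp h ^ 3 * (A * (C1 * Real.exp (-(2 * Real.pi * τ.im)))) := by
          calc Real.exp (-E) * k ^ 3 ≤ Real.exp (-E) * (Real.exp h ^ 3 * W ^ 12) :=
                mul_le_mul_of_nonneg_left g3 (Real.exp_pos _).le
            _ = Real.exp h ^ 3 * (Real.exp (-E) * W ^ 12) := by ring
            _ ≤ _ := mul_le_mul_of_nonneg_left g4 (by positivity)
        have e2 : Real.exp (-(2 * Real.pi * τ.im)) * Real.exp (2 * Real.pi * τ.im) = 1 := by
          rw [← Real.exp_add]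
          simp
        have e3 : Real.exp (-E) * Real.exp E = 1 := by
          rw [← Real.exp_add]
          simp
        have e4 : Real.exp (3 * h + E) = Real.exp h ^ 3 * Real.exp E := by
          rw [Real.exp_add, ← Real.exp_nat_mul]
          norm_num
        rw [e4, div_mul_eq_mul_div, le_div_iff₀ (by positivity)]
        have e5 := mul_le_mul_of_nonneg_right e1
          (mul_pos (Real.exp_pos E) (Real.exp_pos (2 * Real.pi * τ.im))).le
        calc Real.exp (2 * Real.pi * τ.im) * k ^ 3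
            = (Real.exp (-E) * Real.exp E) * (Real.exp (2 * Real.pi * τ.im) * k ^ 3) := by
              rw [e3, one_mul]
          _ = Real.exp (-E) * k ^ 3 * (Real.exp E * Real.exp (2 * Real.pi * τ.im)) := by ring
          _ ≤ _ := e5
          _ = A * C1 * (Real.exp h ^ 3 * Real.exp E) *
              (Real.exp (-(2 * Real.pi * τ.im)) * Real.exp (2 * Real.pi * τ.im)) := by ring
          _ = _ := by rw [e2, mul_one]
      have g6 : 2 * Real.pi * τ.im ≤ L1 + (3 * h + E) := by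
        have e1 := Real.log_le_log (Real.exp_pos _) g5
        rw [Real.log_exp, Real.log_mul (by positivity) (Real.exp_pos _).ne', Real.log_exp] at e1
        have e2 := le_abs_self (Real.log (A * C1 / k ^ 3))
        linarith
      have g7 : τ.im ≤ 2 * Real.pi * τ.im := by
        nlinarith [Real.pi_gt_three]
      calc τ.im ≤ L1 + (3 * h + E) := g7.trans g6
        _ ≤ Ca * s := by
            rw [hCa, hsdef]
            nlinarith [mul_nonneg hL1' hh, mul_nonneg hL1' hE, mul_nonneg hY hh, mul_nonneg hY hE]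
  have hCa0 : 0 ≤ Ca := by positivity
  have hM0 : 0 ≤ M := by positivity
  have hs0 : 0 ≤ s := by linarith
  have hbig1 : Ca * s ≤ (Ca + (L2 + 1) + (M + 1)) * s :=
    mul_le_mul_of_nonneg_right (by linarith) hs0
  have hbig2 : (L2 + 1) * s ≤ (Ca + (L2 + 1) + (M + 1)) * s :=
    mul_le_mul_of_nonneg_right (by linarith) hs0
  have hbig3 : (M + 1) * s ≤ (Ca + (L2 + 1) + (M + 1)) * s :=
    mul_le_mul_of_nonneg_right (by linarith) hs0
  refine ⟨c_y.trans hbig1, ?_, ?_⟩
  · -- lower bound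
    have l1 : D ≤ 28 * Real.exp (3 * h) := by
      have e1 : Real.exp (3 * h) = Real.exp h ^ 3 := by
        rw [← Real.exp_nat_mul]
        norm_num
      have e2 : Real.exp h ^ 2 ≤ Real.exp h ^ 3 :=
        pow_le_pow_right₀ (Real.one_le_exp hh) (by norm_num)
      calc D ≤ ‖G2 w (w * τ) ^ 3‖ + ‖27 * G3 w (w * τ) ^ 2‖ := norm_sub_le _ _
        _ = ‖G2 w (w * τ)‖ ^ 3 + 27 * ‖G3 w (w * τ)‖ ^ 2 := by
            rw [norm_mul, norm_pow, norm_pow]
            norm_num
        _ ≤ Real.exp h ^ 3 + 27 * Real.exp h ^ 2 := by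
            have := pow_le_pow_left₀ (norm_nonneg _) h2 3
            have := pow_le_pow_left₀ (norm_nonneg _) h3 2
            linarith
        _ ≤ 28 * Real.exp (3 * h) := by
            rw [e1]
            linarith
    have l2 : A * (c1 * Real.exp (-(2 * Real.pi * τ.im))) ≤ 28 * Real.exp (3 * h) * W ^ 12 := by
      calc A * (c1 * Real.exp (-(2 * Real.pi * τ.im))) ≤ A * Δ :=
            mul_le_mul_of_nonneg_left d1 hA0.le
        _ = D * W ^ 12 := key.symm
        _ ≤ _ := mul_le_mul_of_nonneg_right l1 (by positivity)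
    have l3 : Real.exp (-(M * s)) ≤ (W ^ 2) ^ 6 := by
      have e0 : (W ^ 2) ^ 6 = W ^ 12 := by ring
      rw [e0]
      have e1 : A * c1 / 28 * Real.exp (-(2 * Real.pi * τ.im) - 3 * h) ≤ W ^ 12 := by
        have e2 : Real.exp (-(2 * Real.pi * τ.im)) =
            Real.exp (-(2 * Real.pi * τ.im) - 3 * h) * Real.exp (3 * h) := by
          rw [← Real.exp_add]
          congr 1
          ring
        rw [e2] at l2
        have e3 : 0 < Real.exp (3 * h) := Real.exp_pos _
        have e4 : (A * c1 / 28 * Real.exp (-(2 * Real.pi * τ.im) - 3 * h)) *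
            (28 * Real.exp (3 * h)) ≤ W ^ 12 * (28 * Real.exp (3 * h)) := by
          calc _ = A * (c1 * (Real.exp (-(2 * Real.pi * τ.im) - 3 * h) *
              Real.exp (3 * h))) := by ring
            _ ≤ _ := l2
            _ = _ := by ring
        exact le_of_mul_le_mul_right e4 (by positivity)
      refine le_trans ?_ e1
      have e5 : A * c1 / 28 = Real.exp (Real.log (A * c1 / 28)) :=
        (Real.exp_log (by positivity)).symm
      rw [e5, ← Real.exp_add, Real.exp_le_exp]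
      have e6 := neg_abs_le (Real.log (A * c1 / 28))
      have e7 : 2 * Real.pi * τ.im ≤ 7 * (Ca * s) := by
        have : 2 * Real.pi ≤ 7 := by linarith [Real.pi_lt_d2]
        calc 2 * Real.pi * τ.im ≤ 7 * τ.im := mul_le_mul_of_nonneg_right this hy.le
          _ ≤ 7 * (Ca * s) := by linarith
      have e8 : L3 ≤ L3 * s := by nlinarith
      have e9 : 3 * h ≤ 3 * s := by linarith
      have e10 : M * s = L3 * s + 7 * (Ca * s) + 3 * s := by rw [hM]; ring
      linarith
    have l4 : Real.exp (-(M * s)) ≤ W ^ 2 := by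
      apply Vol_pow_le (by positivity) _ l3
      rw [Real.exp_le_one_iff]
      have := mul_nonneg hM0 hs0
      linarith
    have l5 : Real.exp (-s) ≤ 1 / 2 := by
      have e1 : Real.exp (-s) ≤ Real.exp (-1) := by
        rw [Real.exp_le_exp]
        linarith
      have e2 := Real.exp_neg_one_lt_d9
      linarith
    calc Real.exp (-((Ca + (L2 + 1) + (M + 1)) * s)) ≤ Real.exp (-((M + 1) * s)) := by
          rw [Real.exp_le_exp]
          linarith
      _ = Real.exp (-(M * s)) * Real.exp (-s) := by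
          rw [← Real.exp_add]
          congr 1
          ring
      _ ≤ W ^ 2 * τ.im := mul_le_mul l4 (l5.trans hy2) (Real.exp_pos _).le (by positivity)
  · -- upper bound
    have u1 : Real.exp (-E) * W ^ 12 ≤ A * (C1 * Real.exp (-(2 * Real.pi * τ.im))) := by
      calc Real.exp (-E) * W ^ 12 ≤ D * W ^ 12 := mul_le_mul_of_nonneg_right hD (by positivity)
        _ = A * Δ := key
        _ ≤ _ := mul_le_mul_of_nonneg_left d2 hA0.le
    have u2 : τ.im ^ 6 * Real.exp (-(2 * Real.pi * τ.im)) ≤ 720 := by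
      have e1 := Real.pow_div_factorial_le_exp τ.im hy.le 6
      have e2 : ((Nat.factorial 6 : ℕ) : ℝ) = 720 := by norm_num [Nat.factorial]
      rw [e2, div_le_iff₀ (by norm_num)] at e1
      have e3 : Real.exp (-(2 * Real.pi * τ.im)) * Real.exp τ.im ≤ 1 := by
        rw [← Real.exp_add, Real.exp_le_one_iff]
        nlinarith [Real.pi_gt_three]
      calc τ.im ^ 6 * Real.exp (-(2 * Real.pi * τ.im))
          ≤ (Real.exp τ.im * 720) * Real.exp (-(2 * Real.pi * τ.im)) :=
            mul_le_mul_of_nonneg_right e1 (Real.exp_pos _).le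
        _ = (Real.exp (-(2 * Real.pi * τ.im)) * Real.exp τ.im) * 720 := by ring
        _ ≤ 1 * 720 := mul_le_mul_of_nonneg_right e3 (by norm_num)
        _ = 720 := one_mul _
    have u3 : (W ^ 2 * τ.im) ^ 6 ≤ 720 * (A * C1) * Real.exp E := by
      have e3 : Real.exp (-E) * Real.exp E = 1 := by
        rw [← Real.exp_add]
        simp
      calc (W ^ 2 * τ.im) ^ 6 = (Real.exp (-E) * Real.exp E) * (W ^ 12 * τ.im ^ 6) := by
            rw [e3]
            ring
        _ = (Real.exp (-E) * W ^ 12) * (Real.exp E * τ.im ^ 6) := by ring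
        _ ≤ (A * (C1 * Real.exp (-(2 * Real.pi * τ.im)))) * (Real.exp E * τ.im ^ 6) :=
            mul_le_mul_of_nonneg_right u1 (by positivity)
        _ = (A * C1 * Real.exp E) * (τ.im ^ 6 * Real.exp (-(2 * Real.pi * τ.im))) := by ring
        _ ≤ (A * C1 * Real.exp E) * 720 := mul_le_mul_of_nonneg_left u2 (by positivity)
        _ = _ := by ring
    calc W ^ 2 * τ.im ≤ 1 + (W ^ 2 * τ.im) ^ 6 := Vol_le_pow (by positivity)
      _ ≤ 1 * Real.exp E + 720 * (A * C1) * Real.exp E := by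
          have := Real.one_le_exp hE
          linarith
      _ = (1 + 720 * (A * C1)) * Real.exp E := by ring
      _ = Real.exp (L2 + E) := by
          rw [Real.exp_add, hL2, Real.exp_log (by positivity)]
      _ ≤ Real.exp ((Ca + (L2 + 1) + (M + 1)) * s) := by
          rw [Real.exp_le_exp]
          have : L2 + E ≤ (L2 + 1) * s := by
            rw [hsdef]
            nlinarith [mul_nonneg hL2' hh, mul_nonneg hL2' hE]
          linarith

end Pool.Agent.LGO
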