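import Pool.Agent.LGO.Mul.Gal
import Pool.Agent.LGO.Mul.Unif
import Pool.Agent.LGO.Mul.Vol
import Pool.Agent.LGO.Mul.Ht

/-!
# LGO/Mul: the height of the multiplier of an isogeny (part (4a))
-/

namespace Pool.Agent.LGO

open Polynomial Pool.Agent.EllSch

namespace MulMain

theorem covol_eq (w τ : ℂ) (hτ : 0 < τ.im) : covol w (w * τ) = ‖w‖ ^ 2 * τ.im := by
  have h1 : w.re * (w * τ).im - w.im * (w * τ).re = ‖w‖ ^ 2 * τ.im := by
    rw [← Complex.normSq_eq_norm_sq, Complex.normSq_apply, Complex.mul_im, Complex.mul_re]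
    ring
  rw [covol, h1, abs_of_nonneg (by positivity)]

theorem ind_w {w τ : ℂ} (hw : w ≠ 0) (hτ : Red τ) : Ind w (w * τ) := by
  have := ind_smul (ind_one hτ.im_pos) hw
  rwa [mul_one] at this

theorem natCast_isIntegral (n : ℕ) : IsIntegral ℤ (n : ℂ) := by
  have := isIntegral_algebraMap (R := ℤ) (A := ℂ) (x := (n : ℤ))
  simpa using this

/-- the discriminant of a curve with coefficients of height `h` -/
theorem bd_disc {K : IntermediateField ℚ ℂ} {h : ℝ} {x y : ℂ} (hh : 1 ≤ h) (hx : Bd K h x)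
    (hy : Bd K h y) : Bd K (10 * h) (x ^ 3 - 27 * y ^ 2) := by
  obtain ⟨n, hn, hn', hni⟩ := hx.den
  obtain ⟨m, hm, hm', hmi⟩ := hy.den
  have hmem : x ^ 3 - 27 * y ^ 2 ∈ K :=
    K.sub_mem (K.pow_mem hx.mem 3) (K.mul_mem (by simp) (K.pow_mem hy.mem 2))
  refine ⟨hmem, ⟨n ^ 3 * m ^ 3, by positivity, ?_, ?_⟩, fun σ => ?_⟩
  · push_cast
    calc (n : ℝ) ^ 3 * (m : ℝ) ^ 3 ≤ Real.exp h ^ 3 * Real.exp h ^ 3 := by gcongr
      _ = Real.exp (6 * h) := by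
        rw [← Real.exp_nat_mul, ← Real.exp_add]; congr 1; push_cast; ring
      _ ≤ _ := Real.exp_le_exp.2 (by linarith)
  · have e1 : (((n ^ 3 * m ^ 3 : ℕ) : ℂ) * (x ^ 3 - 27 * y ^ 2)) =
        (m : ℂ) ^ 3 * ((n : ℂ) * x) ^ 3 -
          27 * ((n : ℂ) ^ 3 * (m : ℂ)) * ((m : ℂ) * y) ^ 2 := by
      push_cast; ring
    rw [e1]
    have h27 : IsIntegral ℤ (27 : ℂ) := by simpa using natCast_isIntegral 27
    exact (((natCast_isIntegral m).pow 3).mul (hni.pow 3)).sub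
      ((h27.mul (((natCast_isIntegral n).pow 3).mul (natCast_isIntegral m))).mul (hmi.pow 2))
  · have e1 : (⟨x ^ 3 - 27 * y ^ 2, hmem⟩ : K) =
        (⟨x, hx.mem⟩ : K) ^ 3 - 27 * (⟨y, hy.mem⟩ : K) ^ 2 := by
      apply Subtype.ext; push_cast; rfl
    rw [e1, map_sub, map_mul, map_pow, map_pow, map_ofNat]
    have hx1 := hx.house σ
    have hy1 := hy.house σ
    have h3 : (28 : ℝ) ≤ Real.exp (4 * h) := by
      have h4 : (2.7 : ℝ) ≤ Real.exp 1 := by have := Real.exp_one_gt_d9; linarith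
      have h5 : Real.exp 1 ^ 4 = Real.exp 4 := by rw [← Real.exp_nat_mul]; norm_num
      have h6 : (2.7 : ℝ) ^ 4 ≤ Real.exp 1 ^ 4 := by gcongr
      have h7 : Real.exp 4 ≤ Real.exp (4 * h) := Real.exp_le_exp.2 (by linarith)
      norm_num at h6
      linarith
    calc ‖σ ⟨x, hx.mem⟩ ^ 3 - 27 * σ ⟨y, hy.mem⟩ ^ 2‖
        ≤ ‖σ ⟨x, hx.mem⟩‖ ^ 3 + 27 * ‖σ ⟨y, hy.mem⟩‖ ^ 2 := by
          refine (norm_sub_le _ _).trans ?_
          rw [norm_mul, norm_pow, norm_pow]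
          simp
      _ ≤ Real.exp h ^ 3 + 27 * Real.exp h ^ 2 := by gcongr
      _ ≤ 28 * Real.exp h ^ 3 := by
          have : Real.exp h ^ 2 ≤ Real.exp h ^ 3 :=
            pow_le_pow_right₀ (Real.one_le_exp (by linarith)) (by norm_num)
          linarith
      _ ≤ Real.exp (4 * h) * Real.exp h ^ 3 := by gcongr
      _ = Real.exp (7 * h) := by
          rw [← Real.exp_nat_mul, ← Real.exp_add]; congr 1; push_cast; ring
      _ ≤ _ := Real.exp_le_exp.2 (by linarith)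

/-- a nonzero integral element divides a positive integer which is not large -/
theorem exists_dvd {K : IntermediateField ℚ ℂ} [FiniteDimensional ℚ K] {D M : ℝ} {x : ℂ}
    (hD : (Module.finrank ℚ K : ℝ) ≤ D) (hM : 0 ≤ M) (hx : x ∈ K) (hi : IsIntegral ℤ x)
    (h0 : x ≠ 0) (hM' : ∀ σ : K →+* ℂ, ‖σ ⟨x, hx⟩‖ ≤ Real.exp M) :
    ∃ n : ℕ, 0 < n ∧ (n : ℝ) ≤ Real.exp (D * M) ∧ IsIntegral ℤ ((n : ℂ) * x⁻¹) := by
  have : NumberField K := { to_charZero := inferInstance, to_finiteDimensional := inferInstance }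
  have hi' : IsIntegral ℤ (⟨x, hx⟩ : K) := by
    have hinj : Function.Injective (algebraMap K ℂ) := (algebraMap K ℂ).injective
    exact (isIntegral_algebraMap_iff (A := K) (B := ℂ) hinj).1 hi
  set y : NumberField.RingOfIntegers K := ⟨⟨x, hx⟩, hi'⟩ with hy
  have hy0 : y ≠ 0 := by
    intro h
    apply h0
    have := congrArg (fun z : NumberField.RingOfIntegers K => ((z : K) : ℂ)) h
    simpa [hy] using this
  have hn0 : Algebra.norm ℤ y ≠ 0 := by rwa [Ne, Algebra.norm_eq_zero_iff]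
  refine ⟨(Algebra.norm ℤ y).natAbs, Int.natAbs_pos.2 hn0, ?_, ?_⟩
  · have h1 : (Algebra.norm ℚ (⟨x, hx⟩ : K)) = ((Algebra.norm ℤ y : ℤ) : ℚ) := by
      rw [Algebra.coe_norm_int]; rfl
    have h2 := Algebra.norm_eq_prod_embeddings ℚ ℂ (⟨x, hx⟩ : K)
    rw [h1] at h2
    have h3 : ((Algebra.norm ℤ y).natAbs : ℝ) = ‖((Algebra.norm ℤ y : ℤ) : ℂ)‖ := by
      rw [Complex.norm_intCast, Nat.cast_natAbs, Int.cast_abs]
    rw [h3]
    have h4 : ((Algebra.norm ℤ y : ℤ) : ℂ) = ∏ σ : K →ₐ[ℚ] ℂ, σ ⟨x, hx⟩ := by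
      rw [← h2]; simp
    rw [h4, norm_prod]
    calc ∏ σ : K →ₐ[ℚ] ℂ, ‖σ ⟨x, hx⟩‖ ≤ ∏ _σ : K →ₐ[ℚ] ℂ, Real.exp M :=
          Finset.prod_le_prod (fun _ _ => norm_nonneg _) fun σ _ => hM' σ.toRingHom
      _ = Real.exp M ^ (Module.finrank ℚ K) := by
          rw [Finset.prod_const, Finset.card_univ, AlgHom.card]
      _ = Real.exp ((Module.finrank ℚ K : ℝ) * M) := by rw [← Real.exp_nat_mul]
      _ ≤ _ := Real.exp_le_exp.2 (by gcongr)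
  · have h1 : ((Algebra.norm ℤ y).natAbs : NumberField.RingOfIntegers K) ∈
        Ideal.span {y} := by
      rw [← Ideal.absNorm_span_singleton]
      exact Ideal.absNorm_mem _
    obtain ⟨z, hz⟩ := Ideal.mem_span_singleton.1 h1
    have h2 : ((Algebra.norm ℤ y).natAbs : ℂ) = x * ((z : K) : ℂ) := by
      have := congrArg (fun z : NumberField.RingOfIntegers K => ((z : K) : ℂ)) hz
      simpa [hy] using this
    rw [h2]
    have h3 : x * ((z : K) : ℂ) * x⁻¹ = ((z : K) : ℂ) := by field_simp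
    rw [h3]
    have hz' : IsIntegral ℤ (z : K) := z.isIntegral_coe
    exact (isIntegral_algebraMap_iff (A := K) (B := ℂ) (algebraMap K ℂ).injective).2 hz'

theorem exp_nat_mul' (n : ℕ) (x : ℝ) : Real.exp x ^ n = Real.exp (n * x) :=
  (Real.exp_nat_mul x n).symm

/-- denominators -/
theorem core_den (K : IntermediateField ℚ ℂ) [FiniteDimensional ℚ K] (D h : ℝ)
    (w τ w' τ' β : ℂ) (N : ℕ) (hD1 : 1 ≤ D) (hh : 1 ≤ h) (hD : (Module.finrank ℚ K : ℝ) ≤ D)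
    (hw : w ≠ 0) (hw' : w' ≠ 0) (hτ : Red τ) (hτ' : Red τ')
    (b2 : Bd K h (G2 w (w * τ))) (b3 : Bd K h (G3 w (w * τ)))
    (c2 : Bd K h (G2 w' (w' * τ'))) (c3 : Bd K h (G3 w' (w' * τ'))) (hβ : β ≠ 0) (hN : 0 < N)
    (hm : LatMap β w (w * τ) w' (w' * τ'))
    (hm' : ∀ y : ℤ × ℤ, ∃ x : ℤ × ℤ, (N : ℂ) * lat w' (w' * τ') y = β * lat w (w * τ) x) :
    ∃ n : ℕ, 0 < n ∧ (n : ℝ) ≤ Real.exp (200 * (D * h)) ∧ IsIntegral ℤ ((n : ℂ) * β ^ 2) := by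
  obtain ⟨n1, p1, q1, i1⟩ := b2.den
  obtain ⟨n2, p2, q2, i2⟩ := b3.den
  obtain ⟨n3, p3, q3, i3⟩ := c2.den
  obtain ⟨n4, p4, q4, i4⟩ := c3.den
  set m : ℕ := n1 * n2 * n3 * n4 with hmdef
  have hm0 : 0 < m := by positivity
  have hmC : (m : ℂ) ≠ 0 := by exact_mod_cast hm0.ne'
  have hmle : (m : ℝ) ≤ Real.exp (4 * h) := by
    rw [hmdef]; push_cast
    calc (n1 : ℝ) * n2 * n3 * n4 ≤ Real.exp h * Real.exp h * Real.exp h * Real.exp h := by gcongr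
      _ = Real.exp (4 * h) := by rw [← Real.exp_add, ← Real.exp_add, ← Real.exp_add]; ring_nf
  -- the scaled curves
  have hc : ((m : ℂ)⁻¹) ≠ 0 := inv_ne_zero hmC
  have hI : Ind ((m : ℂ)⁻¹ * w) ((m : ℂ)⁻¹ * (w * τ)) := ind_smul (ind_w hw hτ) hc
  have hI' : Ind ((m : ℂ)⁻¹ * w') ((m : ℂ)⁻¹ * (w' * τ')) := ind_smul (ind_w hw' hτ') hc
  have hL : LatMap β ((m : ℂ)⁻¹ * w) ((m : ℂ)⁻¹ * (w * τ)) ((m : ℂ)⁻¹ * w')
      ((m : ℂ)⁻¹ * (w' * τ')) := by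
    intro x
    obtain ⟨y, hy⟩ := hm x
    refine ⟨y, ?_⟩
    rw [lat_smul, lat_smul, ← hy]; ring
  have hL' : ∀ y : ℤ × ℤ, ∃ x : ℤ × ℤ, (N : ℂ) * lat ((m : ℂ)⁻¹ * w') ((m : ℂ)⁻¹ * (w' * τ')) y =
      β * lat ((m : ℂ)⁻¹ * w) ((m : ℂ)⁻¹ * (w * τ)) x := by
    intro y
    obtain ⟨x, hx⟩ := hm' y
    refine ⟨x, ?_⟩
    rw [lat_smul, lat_smul, mul_left_comm, hx]; ring
  obtain ⟨A, B, hS, -, -⟩ := exists_sol hI hI' hβ hN hL hL'
  rw [G2_smul hc, G3_smul hc, G2_smul hc, G3_smul hc] at hS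
  have e4 : ∀ z : ℂ, z / (m : ℂ)⁻¹ ^ 4 = (m : ℂ) ^ 4 * z := fun z => by field_simp
  have e6 : ∀ z : ℂ, z / (m : ℂ)⁻¹ ^ 6 = (m : ℂ) ^ 6 * z := fun z => by field_simp
  rw [e4, e4, e6, e6] at hS
  -- integrality
  have key : ∀ (a b : ℕ) (k : ℕ) (z : ℂ), 0 < k → m = a * b → IsIntegral ℤ ((a : ℂ) * z) →
      IsIntegral ℤ ((m : ℂ) ^ k * z) := by
    intro a b k z hk hab hz
    obtain ⟨j, rfl⟩ : ∃ j, k = j + 1 := ⟨k - 1, by omega⟩
    have e : (m : ℂ) ^ (j + 1) * z = (m : ℂ) ^ j * (b : ℂ) * ((a : ℂ) * z) := by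
      rw [pow_succ]
      have : (m : ℂ) = (a : ℂ) * (b : ℂ) := by exact_mod_cast congrArg (Nat.cast (R := ℂ)) hab
      calc (m : ℂ) ^ j * (m : ℂ) * z = (m : ℂ) ^ j * ((a : ℂ) * (b : ℂ)) * z := by rw [← this]
        _ = _ := by ring
    rw [e]
    exact (((natCast_isIntegral m).pow j).mul (natCast_isIntegral b)).mul hz
  have j1 : IsIntegral ℤ ((m : ℂ) ^ 4 * G2 w (w * τ)) :=
    key n1 (n2 * n3 * n4) 4 _ (by norm_num) (by rw [hmdef]; ring) i1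
  have j2 : IsIntegral ℤ ((m : ℂ) ^ 6 * G3 w (w * τ)) :=
    key n2 (n1 * n3 * n4) 6 _ (by norm_num) (by rw [hmdef]; ring) i2
  have j3 : IsIntegral ℤ ((m : ℂ) ^ 4 * G2 w' (w' * τ')) :=
    key n3 (n1 * n2 * n4) 4 _ (by norm_num) (by rw [hmdef]; ring) i3
  have j4 : IsIntegral ℤ ((m : ℂ) ^ 6 * G3 w' (w' * τ')) :=
    key n4 (n1 * n2 * n3) 6 _ (by norm_num) (by rw [hmdef]; ring) i4
  set d : ℂ := ((m : ℂ) ^ 4 * G2 w' (w' * τ')) ^ 3 - 27 * ((m : ℂ) ^ 6 * G3 w' (w' * τ')) ^ 2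
    with hd
  have hd' : d = (m : ℂ) ^ 12 * (G2 w' (w' * τ') ^ 3 - 27 * G3 w' (w' * τ') ^ 2) := by
    rw [hd]; ring
  have hd0 : d ≠ 0 := by
    rw [hd']
    exact mul_ne_zero (pow_ne_zero _ hmC) (disc_ne_zero (ind_w hw' hτ'))
  have h27 : IsIntegral ℤ (27 : ℂ) := by simpa using natCast_isIntegral 27
  have hdi : IsIntegral ℤ d := (j3.pow 3).sub (h27.mul (j4.pow 2))
  have bd := bd_disc hh c2 c3
  have hdK : d ∈ K := by
    rw [hd']; exact K.mul_mem (pow_mem (natCast_mem K m) 12) bd.mem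
  have hint := hS.isIntegral j1 j2 j3 j4 hd0
  rw [← hd] at hint
  obtain ⟨n, hn, hnle, hni⟩ := exists_dvd (M := 58 * h) hD (by positivity) hdK hdi hd0 (by
    intro σ
    have e1 : (⟨d, hdK⟩ : K) = (m : K) ^ 12 * ⟨_, bd.mem⟩ := by
      apply Subtype.ext; push_cast; exact hd'
    rw [e1, map_mul, map_pow, map_natCast, norm_mul, norm_pow, Complex.norm_natCast]
    calc (m : ℝ) ^ 12 * ‖σ ⟨_, bd.mem⟩‖ ≤ Real.exp (4 * h) ^ 12 * Real.exp (10 * h) := by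
          gcongr
          exact bd.house σ
      _ = Real.exp (58 * h) := by rw [exp_nat_mul', ← Real.exp_add]; push_cast; ring_nf)
  refine ⟨2 ^ 7 * n ^ 3, by positivity, ?_, ?_⟩
  · rw [Nat.cast_mul, Nat.cast_pow, Nat.cast_pow, Nat.cast_ofNat]
    have h128 : (2 : ℝ) ^ 7 ≤ Real.exp (7 * (D * h)) := by
      have h2 : (2 : ℝ) ≤ Real.exp 1 := by have := Real.exp_one_gt_d9; linarith
      have h3 : (2 : ℝ) ^ 7 ≤ Real.exp 1 ^ 7 := by gcongr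
      rw [exp_nat_mul'] at h3
      refine h3.trans (Real.exp_le_exp.2 ?_)
      have : 1 ≤ D * h := one_le_mul_of_one_le_of_one_le hD1 hh
      push_cast
      linarith
    calc (2 : ℝ) ^ 7 * (n : ℝ) ^ 3 ≤ Real.exp (7 * (D * h)) * Real.exp (D * (58 * h)) ^ 3 := by
          gcongr
      _ = Real.exp (181 * (D * h)) := by rw [exp_nat_mul', ← Real.exp_add]; push_cast; ring_nf
      _ ≤ _ := Real.exp_le_exp.2 (by nlinarith [mul_nonneg (zero_le_one.trans hD1) (zero_le_one.trans hh)])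
  · have e1 : (((2 ^ 7 * n ^ 3 : ℕ) : ℂ) * β ^ 2) =
        ((n : ℂ) * d⁻¹) ^ 3 * (2 ^ 7 * d ^ 3 * β ^ 2) := by
      push_cast; field_simp; ring
    rw [e1]
    exact (hni.pow 3).mul hint

/-- the conjugates -/
theorem core_house : ∃ C : ℝ, 0 < C ∧ ∀ (K : IntermediateField ℚ ℂ) [FiniteDimensional ℚ K]
    (D h : ℝ) (w τ w' τ' β : ℂ) (N : ℕ), 1 ≤ D → 1 ≤ h → (Module.finrank ℚ K : ℝ) ≤ D →
    w ≠ 0 → w' ≠ 0 → Red τ → Red τ' →
    Bd K h (G2 w (w * τ)) → Bd K h (G3 w (w * τ)) →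
    Bd K h (G2 w' (w' * τ')) → Bd K h (G3 w' (w' * τ')) → β ≠ 0 → 0 < N →
    LatMap β w (w * τ) w' (w' * τ') →
    (∀ y : ℤ × ℤ, ∃ x : ℤ × ℤ, (N : ℂ) * lat w' (w' * τ') y = β * lat w (w * τ) x) →
    ∀ (hK : β ^ 2 ∈ K) (σ : K →+* ℂ),
      ‖σ ⟨β ^ 2, hK⟩‖ ≤ Real.exp (C * (D * h + Real.log N)) := by
  obtain ⟨C, hC, hvol⟩ := covol_bd
  refine ⟨44 * C + 3, by positivity, ?_⟩
  intro K _ D h w τ w' τ' β N hD1 hh hD hw hw' hτ hτ' b2 b3 c2 c3 hβ hN hm hm' hK σ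
  obtain ⟨A, B, hS, hA, hB⟩ := exists_sol (ind_w hw hτ) (ind_w hw' hτ') hβ hN hm hm'
  obtain ⟨s, hs⟩ := exists_aut K σ
  have hS1 := hS.map s
  -- the conjugate curves
  have bd := bd_disc hh b2 b3
  have bd' := bd_disc hh c2 c3
  have hne := disc_ne_zero (ind_w hw hτ)
  have hne' := disc_ne_zero (ind_w hw' hτ')
  have e1 : s (G2 w (w * τ)) ^ 3 - 27 * s (G3 w (w * τ)) ^ 2 = σ ⟨_, bd.mem⟩ := by
    rw [← hs]
    show _ = s (G2 w (w * τ) ^ 3 - 27 * G3 w (w * τ) ^ 2)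
    rw [map_sub, map_mul, map_pow, map_pow, map_ofNat]
  have e1' : s (G2 w' (w' * τ')) ^ 3 - 27 * s (G3 w' (w' * τ')) ^ 2 = σ ⟨_, bd'.mem⟩ := by
    rw [← hs]
    show _ = s (G2 w' (w' * τ') ^ 3 - 27 * G3 w' (w' * τ') ^ 2)
    rw [map_sub, map_mul, map_pow, map_pow, map_ofNat]
  have l1 := bd.lower hD (by positivity) hne σ
  have l1' := bd'.lower hD (by positivity) hne' σ
  rw [← e1] at l1
  rw [← e1'] at l1'
  have f1 : s (G2 w (w * τ)) ^ 3 - 27 * s (G3 w (w * τ)) ^ 2 ≠ 0 := by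
    intro h0; rw [h0, norm_zero] at l1; exact absurd l1 (not_le.2 (Real.exp_pos _))
  have f1' : s (G2 w' (w' * τ')) ^ 3 - 27 * s (G3 w' (w' * τ')) ^ 2 ≠ 0 := by
    intro h0; rw [h0, norm_zero] at l1'; exact absurd l1' (not_le.2 (Real.exp_pos _))
  obtain ⟨v, t, hv, ht, g2, g3⟩ := exists_lat f1
  obtain ⟨v', t', hv', ht', g2', g3'⟩ := exists_lat f1'
  obtain ⟨b, hb⟩ := IsAlgClosed.exists_pow_nat_eq (s (β ^ 2)) (n := 2) (by norm_num)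
  rw [← g2, ← g3, ← g2', ← g3', ← hb] at hS1
  obtain ⟨-, hle⟩ := hS1.covol_le (ind_w hv ht) (ind_w hv' ht')
  rw [covol_eq v t ht.im_pos, covol_eq v' t' ht'.im_pos] at hle
  rw [← g2, ← g3] at l1
  rw [← g2', ← g3'] at l1'
  have u2 : ‖G2 v (v * t)‖ ≤ Real.exp h := by
    rw [g2, show s (G2 w (w * τ)) = σ ⟨_, b2.mem⟩ from hs ⟨_, b2.mem⟩]; exact b2.house σ
  have u3 : ‖G3 v (v * t)‖ ≤ Real.exp h := by
    rw [g3, show s (G3 w (w * τ)) = σ ⟨_, b3.mem⟩ from hs ⟨_, b3.mem⟩]; exact b3.house σ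
  have u2' : ‖G2 v' (v' * t')‖ ≤ Real.exp h := by
    rw [g2', show s (G2 w' (w' * τ')) = σ ⟨_, c2.mem⟩ from hs ⟨_, c2.mem⟩]; exact c2.house σ
  have u3' : ‖G3 v' (v' * t')‖ ≤ Real.exp h := by
    rw [g3', show s (G3 w' (w' * τ')) = σ ⟨_, c3.mem⟩ from hs ⟨_, c3.mem⟩]; exact c3.house σ
  obtain ⟨-, k1, -⟩ := hvol v t h (2 * D * (10 * h)) hv ht (by positivity) (by positivity) u2 u3 l1
  obtain ⟨-, -, k2⟩ := hvol v' t' h (2 * D * (10 * h)) hv' ht' (by positivity) (by positivity)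
    u2' u3' l1'
  set X : ℝ := Real.exp (C * (1 + h + 2 * D * (10 * h))) with hX
  have hXpos : 0 < X := Real.exp_pos _
  have k1' : X⁻¹ ≤ ‖v‖ ^ 2 * t.im := by rw [hX, ← Real.exp_neg]; exact k1
  have hdeg : ((max (A.map (s : ℂ →+* ℂ)).natDegree (B.map (s : ℂ →+* ℂ)).natDegree : ℕ) : ℝ) ≤
      2 * (N : ℝ) ^ 2 := by
    have h1 : max (A.map (s : ℂ →+* ℂ)).natDegree (B.map (s : ℂ →+* ℂ)).natDegree ≤
        2 * N ^ 2 := max_le ((natDegree_map_le).trans hA) ((natDegree_map_le).trans hB)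
    exact_mod_cast h1
  have hσ : ‖σ ⟨β ^ 2, hK⟩‖ = ‖b‖ ^ 2 := by
    rw [← hs ⟨β ^ 2, hK⟩, ← norm_pow, hb]
  rw [hσ]
  have hpos : 0 ≤ ‖v'‖ ^ 2 * t'.im := mul_nonneg (by positivity) ht'.im_pos.le
  have hb1 : ‖b‖ ^ 2 * X⁻¹ ≤ 2 * (N : ℝ) ^ 2 * X :=
    calc ‖b‖ ^ 2 * X⁻¹ ≤ ‖b‖ ^ 2 * (‖v‖ ^ 2 * t.im) := by gcongr
      _ ≤ _ := hle
      _ ≤ 2 * (N : ℝ) ^ 2 * (‖v'‖ ^ 2 * t'.im) := by gcongr
      _ ≤ _ := by gcongr
  have hb2 : ‖b‖ ^ 2 ≤ 2 * (N : ℝ) ^ 2 * X * X := by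
    rwa [← div_eq_mul_inv, div_le_iff₀ hXpos] at hb1
  have hNpos : (0 : ℝ) < N := by exact_mod_cast hN
  have hNlog : 0 ≤ Real.log N := Real.log_nonneg (by exact_mod_cast hN)
  have hNexp : (N : ℝ) ^ 2 = Real.exp (2 * Real.log N) := by
    rw [two_mul, Real.exp_add, Real.exp_log hNpos, sq]
  have h2 : (2 : ℝ) ≤ Real.exp 1 := by have := Real.exp_one_gt_d9; linarith
  have hDh : 1 ≤ D * h := one_le_mul_of_one_le_of_one_le hD1 hh
  have hhD : h ≤ D * h := le_mul_of_one_le_left (by positivity) hD1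
  calc ‖b‖ ^ 2 ≤ 2 * (N : ℝ) ^ 2 * X * X := hb2
    _ ≤ Real.exp 1 * Real.exp (2 * Real.log N) * X * X := by rw [hNexp]; gcongr
    _ = Real.exp (1 + 2 * Real.log N + 2 * (C * (1 + h + 2 * D * (10 * h)))) := by
      rw [hX, ← Real.exp_add, ← Real.exp_add, ← Real.exp_add]; ring_nf
    _ ≤ _ := by
      refine Real.exp_le_exp.2 ?_
      have h5 : C * (1 + h + 2 * D * (10 * h)) ≤ C * (22 * (D * h)) := by
        gcongr; linarith
      have h6 : (44 * C + 3) * (D * h + Real.log N) = 44 * C * (D * h) + 3 * (D * h) +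
        44 * C * Real.log N + 3 * Real.log N := by ring
      rw [h6]
      have h7 : 0 ≤ 44 * C * Real.log N := by positivity
      linarith

theorem core : ∃ C : ℝ, 0 < C ∧ ∀ (K : IntermediateField ℚ ℂ) [FiniteDimensional ℚ K]
    (D h : ℝ) (w τ w' τ' β : ℂ) (N : ℕ), 1 ≤ D → 1 ≤ h → (Module.finrank ℚ K : ℝ) ≤ D →
    w ≠ 0 → w' ≠ 0 → Red τ → Red τ' →
    Bd K h (G2 w (w * τ)) → Bd K h (G3 w (w * τ)) →
    Bd K h (G2 w' (w' * τ')) → Bd K h (G3 w' (w' * τ')) → β ≠ 0 → 0 < N →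
    LatMap β w (w * τ) w' (w' * τ') →
    (∀ y : ℤ × ℤ, ∃ x : ℤ × ℤ, (N : ℂ) * lat w' (w' * τ') y = β * lat w (w * τ) x) →
    β ^ 2 ∈ K → Bd K (C * (D * h + Real.log N)) (β ^ 2) := by
  obtain ⟨C, hC, hhouse⟩ := core_house
  refine ⟨C + 200, by positivity, ?_⟩
  intro K _ D h w τ w' τ' β N hD1 hh hD hw hw' hτ hτ' b2 b3 c2 c3 hβ hN hm hm' hK
  have hNlog : 0 ≤ Real.log N := Real.log_nonneg (by exact_mod_cast hN)
  have hDh : 0 ≤ D * h := by positivity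
  obtain ⟨n, hn, hn', hni⟩ := core_den K D h w τ w' τ' β N hD1 hh hD hw hw' hτ hτ' b2 b3 c2 c3 hβ
    hN hm hm'
  refine ⟨hK, ⟨n, hn, hn'.trans (Real.exp_le_exp.2 ?_), hni⟩, fun σ =>
    (hhouse K D h w τ w' τ' β N hD1 hh hD hw hw' hτ hτ' b2 b3 c2 c3 hβ hN hm hm' hK σ).trans
      (Real.exp_le_exp.2 ?_)⟩
  · have : 0 ≤ C * (D * h + Real.log N) := by positivity
    nlinarith
  · gcongr; linarith

end MulMain

open MulMain

/-- **the multiplier** (general form): `β Λ ⊆ Λ'` and `N Λ' ⊆ β Λ` -/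
theorem mul_sq : ∃ C : ℝ, 0 < C ∧ ∀ (K : IntermediateField ℚ ℂ) [FiniteDimensional ℚ K] (D h : ℝ)
    (w τ w' τ' β : ℂ) (N : ℕ), 1 ≤ D → 1 ≤ h → (Module.finrank ℚ K : ℝ) ≤ D →
    w ≠ 0 → w' ≠ 0 → Red τ → Red τ' → NonCM τ' →
    Bd K h (G2 w (w * τ)) → Bd K h (G3 w (w * τ)) →
    Bd K h (G2 w' (w' * τ')) → Bd K h (G3 w' (w' * τ')) → β ≠ 0 → 0 < N →
    LatMap β w (w * τ) w' (w' * τ') →
    (∀ y : ℤ × ℤ, ∃ x : ℤ × ℤ, (N : ℂ) * lat w' (w' * τ') y = β * lat w (w * τ) x) →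
      Bd K (C * (D * h + Real.log N)) (β ^ 2) ∧
      Bd K (C * (D * h + Real.log N)) ((β ^ 2)⁻¹) := by
  obtain ⟨C, hC, hcore⟩ := core
  refine ⟨C + 2, by positivity, ?_⟩
  intro K _ D h w τ w' τ' β N hD1 hh hD hw hw' hτ hτ' hcm b2 b3 c2 c3 hβ hN hm hm'
  have hK : β ^ 2 ∈ K := mul_mem K (ind_w hw hτ) (ind_w hw' hτ') hcm hw' hβ hN hm hm' b2.mem
    b3.mem c2.mem c3.mem
  have hNpos : (0 : ℝ) < N := by exact_mod_cast hN
  have hNC : (N : ℂ) ≠ 0 := by exact_mod_cast hN.ne'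
  have hN1 : (1 : ℝ) ≤ N := by exact_mod_cast hN
  have hNlog : 0 ≤ Real.log N := Real.log_nonneg hN1
  have hDh : 0 ≤ D * h := by positivity
  have hNexp : (N : ℝ) ^ 2 = Real.exp (2 * Real.log N) := by
    rw [two_mul, Real.exp_add, Real.exp_log hNpos, sq]
  -- the dual isogeny
  have hβ' : (N : ℂ) / β ≠ 0 := div_ne_zero hNC hβ
  have hK' : ((N : ℂ) / β) ^ 2 ∈ K := by
    rw [div_pow]; exact K.div_mem (pow_mem (natCast_mem K N) 2) hK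
  have dm : LatMap ((N : ℂ) / β) w' (w' * τ') w (w * τ) := by
    intro y
    obtain ⟨x, hx⟩ := hm' y
    refine ⟨x, ?_⟩
    rw [div_mul_eq_mul_div, hx]; field_simp
  have dm' : ∀ x : ℤ × ℤ, ∃ y : ℤ × ℤ, (N : ℂ) * lat w (w * τ) x =
      (N : ℂ) / β * lat w' (w' * τ') y := by
    intro x
    obtain ⟨y, hy⟩ := hm x
    refine ⟨y, ?_⟩
    rw [← hy]; field_simp
  have c1 := hcore K D h w τ w' τ' β N hD1 hh hD hw hw' hτ hτ' b2 b3 c2 c3 hβ hN hm hm' hK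
  have d1 := hcore K D h w' τ' w τ ((N : ℂ) / β) N hD1 hh hD hw' hw hτ' hτ c2 c3 b2 b3 hβ' hN
    dm dm' hK'
  have hmono : C * (D * h + Real.log N) ≤ (C + 2) * (D * h + Real.log N) := by
    gcongr; linarith
  constructor
  · obtain ⟨n, hn, hn', hni⟩ := c1.den
    exact ⟨c1.mem, ⟨n, hn, hn'.trans (Real.exp_le_exp.2 hmono), hni⟩, fun σ =>
      (c1.house σ).trans (Real.exp_le_exp.2 hmono)⟩
  · obtain ⟨n, hn, hn', hni⟩ := d1.den
    have e0 : ((N : ℂ) / β) ^ 2 = (N : ℂ) ^ 2 * (β ^ 2)⁻¹ := by rw [div_pow]; rfl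
    have hinv : (β ^ 2)⁻¹ ∈ K := K.inv_mem hK
    refine ⟨hinv, ⟨n * N ^ 2, by positivity, ?_, ?_⟩, fun σ => ?_⟩
    · push_cast
      calc (n : ℝ) * (N : ℝ) ^ 2 ≤ Real.exp (C * (D * h + Real.log N)) *
            Real.exp (2 * Real.log N) := by rw [hNexp]; gcongr
        _ = Real.exp (C * (D * h + Real.log N) + 2 * Real.log N) := (Real.exp_add _ _).symm
        _ ≤ _ := Real.exp_le_exp.2 (by linarith)
    · have : ((n * N ^ 2 : ℕ) : ℂ) * (β ^ 2)⁻¹ = (n : ℂ) * ((N : ℂ) / β) ^ 2 := by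
        rw [e0]; push_cast; ring
      rw [this]; exact hni
    · have h1 := d1.house σ
      have e1 : (⟨((N : ℂ) / β) ^ 2, d1.mem⟩ : K) = (N : K) ^ 2 * ⟨(β ^ 2)⁻¹, hinv⟩ := by
        apply Subtype.ext; push_cast; exact e0
      rw [e1, map_mul, map_pow, map_natCast, norm_mul, norm_pow, Complex.norm_natCast] at h1
      refine le_trans ?_ (h1.trans (Real.exp_le_exp.2 hmono))
      have : (1 : ℝ) ≤ (N : ℝ) ^ 2 := one_le_pow₀ hN1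
      exact le_mul_of_one_le_left (norm_nonneg _) this

/-- **the multiplier** in the form of `isog`: for `Maps g τ τ'`, `det g = N`, the number
`β = w (g₁₀ τ + g₁₁) / w'` maps `ℤ w' + ℤ w' τ'` onto a subgroup of index `N` of `ℤ w + ℤ w τ` -/
theorem mul_sq_maps : ∃ C : ℝ, 0 < C ∧ ∀ (K : IntermediateField ℚ ℂ) [FiniteDimensional ℚ K]
    (D h : ℝ) (w τ w' τ' : ℂ) (g : Matrix (Fin 2) (Fin 2) ℤ) (N : ℕ), 1 ≤ D → 1 ≤ h →
    (Module.finrank ℚ K : ℝ) ≤ D → w ≠ 0 → w' ≠ 0 → Red τ → Red τ' → NonCM τ →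
    Bd K h (G2 w (w * τ)) → Bd K h (G3 w (w * τ)) →
    Bd K h (G2 w' (w' * τ')) → Bd K h (G3 w' (w' * τ')) → 0 < N → g.det = N → Maps g τ τ' →
      Bd K (C * (D * h + Real.log N)) ((w * ((g 1 0 : ℂ) * τ + (g 1 1 : ℂ)) / w') ^ 2) ∧
      Bd K (C * (D * h + Real.log N)) (((w * ((g 1 0 : ℂ) * τ + (g 1 1 : ℂ)) / w') ^ 2)⁻¹) := by
  obtain ⟨C, hC, hmain⟩ := mul_sq
  refine ⟨C, hC, ?_⟩
  intro K _ D h w τ w' τ' g N hD1 hh hD hw hw' hτ hτ' hcm b2 b3 c2 c3 hN hdet hmap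
  have hdet' : (g 0 0 : ℂ) * (g 1 1 : ℂ) - (g 0 1 : ℂ) * (g 1 0 : ℂ) = N := by
    rw [Matrix.det_fin_two] at hdet
    exact_mod_cast congrArg (Int.cast (R := ℂ)) hdet
  have hNC : (N : ℂ) ≠ 0 := by exact_mod_cast hN.ne'
  have hmap' := hmap
  rw [Maps] at hmap'
  have hprod : ((g 1 0 : ℂ) * τ + (g 1 1 : ℂ)) * ((g 0 0 : ℂ) - (g 1 0 : ℂ) * τ') = N := by
    linear_combination hdet' - (g 1 0 : ℂ) * hmap'
  have hne : (g 1 0 : ℂ) * τ + (g 1 1 : ℂ) ≠ 0 := by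
    intro h0; rw [h0, zero_mul] at hprod; exact hNC hprod.symm
  have hβ : w * ((g 1 0 : ℂ) * τ + (g 1 1 : ℂ)) / w' ≠ 0 :=
    div_ne_zero (mul_ne_zero hw hne) hw'
  refine hmain K D h w' τ' w τ _ N hD1 hh hD hw' hw hτ' hτ hcm c2 c3 b2 b3 hβ hN ?_ ?_
  · intro x
    refine ⟨(x.1 * g 1 1 + x.2 * g 0 1, x.1 * g 1 0 + x.2 * g 0 0), ?_⟩
    simp only [lat]
    push_cast
    field_simp
    linear_combination (x.2 : ℂ) * hmap'
  · intro y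
    refine ⟨(y.1 * g 0 0 - y.2 * g 0 1, -(y.1 * g 1 0) + y.2 * g 1 1), ?_⟩
    simp only [lat]
    push_cast
    field_simp
    linear_combination -(-((y.1 : ℂ) * g 1 0) + (y.2 : ℂ) * g 1 1) * hmap' -
      ((y.1 : ℂ) + (y.2 : ℂ) * τ) * hdet'

end Pool.Agent.LGO
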