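import Pool.Agent.LGO.Mul.Main
import Pool.Agent.LGO.EngDefs

/-!
# LGO/Mul: the generator of the homomorphisms of an isogeny pair, its field and its height

`mult`: for `Maps g τ τ'`, `g` primitive, `det g > 0`, `τ` reduced and not quadratic, the number
`γ = w' (g₀₀ - g₁₀ τ') / w` generates `Hom(Λ, Λ')`, lies in a quadratic extension `K'` of `K` (`γ ^ 2 ∈ K`)
and its height over `K'` is at most `C (D B + log det g)`.
-/

namespace Pool.Agent.LGO

open Polynomial Pool.Agent.EllSch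

theorem NonCM.of_maps {g : Matrix (Fin 2) (Fin 2) ℤ} {τ τ' : ℂ} (h : NonCM τ)
    (hdet : g.det ≠ 0) (hm : Maps g τ τ') : NonCM τ' := by
  intro a b c habc
  rw [Maps] at hm
  obtain ⟨h1, h2, h3⟩ := h (a * g 0 0 ^ 2 + b * (g 0 0 * g 1 0) + c * g 1 0 ^ 2)
    (2 * a * (g 0 0 * g 0 1) + b * (g 0 0 * g 1 1 + g 0 1 * g 1 0) + 2 * c * (g 1 0 * g 1 1))
    (a * g 0 1 ^ 2 + b * (g 0 1 * g 1 1) + c * g 1 1 ^ 2) (by
      push_cast
      have e : ∀ u v : ℂ, τ' * v = u → (a : ℂ) * u ^ 2 + b * (u * v) + c * v ^ 2 =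
          v ^ 2 * ((a : ℂ) * τ' ^ 2 + b * τ' + c) := by
        intro u v huv; rw [← huv]; ring
      have e1 := e _ _ hm
      rw [habc, mul_zero] at e1
      rw [← e1]; ring)
  rw [Matrix.det_fin_two] at hdet
  have hd2 : (g 0 0 * g 1 1 - g 0 1 * g 1 0) ^ 2 ≠ 0 := pow_ne_zero 2 hdet
  refine ⟨?_, ?_, ?_⟩
  · have : a * (g 0 0 * g 1 1 - g 0 1 * g 1 0) ^ 2 = 0 := by
      linear_combination (g 1 1) ^ 2 * h1 - g 1 1 * g 1 0 * h2 + (g 1 0) ^ 2 * h3
    exact (mul_eq_zero.1 this).resolve_right hd2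
  · have : b * (g 0 0 * g 1 1 - g 0 1 * g 1 0) ^ 2 = 0 := by
      linear_combination (-2 * g 1 1 * g 0 1) * h1 + (g 1 1 * g 0 0 + g 0 1 * g 1 0) * h2
        - 2 * g 1 0 * g 0 0 * h3
    exact (mul_eq_zero.1 this).resolve_right hd2
  · have : c * (g 0 0 * g 1 1 - g 0 1 * g 1 0) ^ 2 = 0 := by
      linear_combination (g 0 1) ^ 2 * h1 - g 0 1 * g 0 0 * h2 + (g 0 0) ^ 2 * h3
    exact (mul_eq_zero.1 this).resolve_right hd2

theorem mem_Lt {w τ z : ℂ} : z ∈ Lt w τ ↔ ∃ m n : ℤ, z = m * w + n * (w * τ) := Iff.rfl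

/-- `K(γ)` for `γ ^ 2 ∈ K` -/
theorem exists_quad (K : IntermediateField ℚ ℂ) [FiniteDimensional ℚ K] {γ : ℂ} {M : ℝ}
    (hM : 0 ≤ M) (h : Bd K M (γ ^ 2)) : ∃ K' : IntermediateField ℚ ℂ, K ≤ K' ∧
      FiniteDimensional ℚ K' ∧ Module.finrank ℚ K' ≤ 2 * Module.finrank ℚ K ∧ Bd K' M γ := by
  have hroot : aeval γ (X ^ 2 - C (⟨γ ^ 2, h.mem⟩ : K) : K[X]) = 0 := by
    rw [map_sub, map_pow, aeval_X, aeval_C]
    show γ ^ 2 - γ ^ 2 = 0
    ring
  have hmonic : (X ^ 2 - C (⟨γ ^ 2, h.mem⟩ : K) : K[X]).Monic := monic_X_pow_sub_C _ (by norm_num)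
  have hint : IsIntegral K γ := ⟨_, hmonic, hroot⟩
  set L : IntermediateField K ℂ := IntermediateField.adjoin K {γ} with hL
  have hfd : FiniteDimensional K L := IntermediateField.adjoin.finiteDimensional hint
  have hfr : Module.finrank K L ≤ 2 := by
    rw [hL, IntermediateField.adjoin.finrank hint]
    refine (natDegree_le_of_dvd (minpoly.dvd K γ hroot) hmonic.ne_zero).trans ?_
    rw [natDegree_X_pow_sub_C]
  have hfd' : FiniteDimensional ℚ L := FiniteDimensional.trans ℚ K L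
  have hmul : Module.finrank ℚ K * Module.finrank K L = Module.finrank ℚ L :=
    Module.finrank_mul_finrank ℚ K L
  have hγL : γ ∈ L := IntermediateField.mem_adjoin_simple_self K γ
  refine ⟨L.restrictScalars ℚ, ?_, hfd', ?_, ?_⟩
  · intro x hx
    exact L.algebraMap_mem (⟨x, hx⟩ : K)
  · show Module.finrank ℚ L ≤ _
    rw [← hmul, mul_comm]
    exact Nat.mul_le_mul_right _ hfr
  · obtain ⟨n, hn, hn', hni⟩ := h.den
    refine ⟨hγL, ⟨n, hn, hn', ?_⟩, fun σ => ?_⟩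
    · have h1 : IsIntegral ℤ (((n : ℂ) * γ) ^ 2) := by
        have : ((n : ℂ) * γ) ^ 2 = (n : ℂ) * ((n : ℂ) * γ ^ 2) := by ring
        rw [this]
        exact (MulMain.natCast_isIntegral n).mul hni
      exact IsIntegral.of_pow (by norm_num) h1
    · have hKL : ∀ x : K, (x : ℂ) ∈ L.restrictScalars ℚ := fun x => L.algebraMap_mem x
      let i : K →+* (L.restrictScalars ℚ) :=
        { toFun := fun x => ⟨x, hKL x⟩
          map_one' := rfl
          map_mul' := fun _ _ => rfl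
          map_zero' := rfl
          map_add' := fun _ _ => rfl }
      have h2 := h.house (σ.comp i)
      have h3 : i ⟨γ ^ 2, h.mem⟩ = (⟨γ, hγL⟩ : L.restrictScalars ℚ) ^ 2 := rfl
      rw [RingHom.comp_apply, h3, map_pow, norm_pow] at h2
      by_contra hlt
      push Not at hlt
      have h1 : 1 ≤ Real.exp M := Real.one_le_exp hM
      have h4 : Real.exp M < ‖σ ⟨γ, hγL⟩‖ ^ 2 := by nlinarith
      linarith

theorem mult : ∃ C : ℝ, 0 < C ∧ ∀ (K : IntermediateField ℚ ℂ) [FiniteDimensional ℚ K]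
    (D B : ℝ) (w τ w' τ' : ℂ) (g : Matrix (Fin 2) (Fin 2) ℤ), 1 ≤ D → 1 ≤ B →
    (Module.finrank ℚ K : ℝ) ≤ D → w ≠ 0 → w' ≠ 0 → Red τ → Red τ' → NonCM τ →
    Bd K B (G2 w (w * τ)) → Bd K B (G3 w (w * τ)) →
    Bd K B (G2 w' (w' * τ')) → Bd K B (G3 w' (w' * τ')) → Prim g → 0 < g.det → Maps g τ τ' →
      ∃ (γ : ℂ) (K' : IntermediateField ℚ ℂ), K ≤ K' ∧ FiniteDimensional ℚ K' ∧
        Module.finrank ℚ K' ≤ 2 * Module.finrank ℚ K ∧ γ ^ 2 ∈ K ∧
        Gen γ (Lt w τ) (Lt w' τ') ∧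
        Bd K' (C * (D * B + Real.log (g.det : ℝ))) γ ∧
        ‖γ‖ ^ 2 * (‖w‖ ^ 2 * τ.im) = (g.det : ℝ) * (‖w'‖ ^ 2 * τ'.im) := by
  obtain ⟨C, hC, hmain⟩ := mul_sq
  refine ⟨C, hC, ?_⟩
  intro K _ D B w τ w' τ' g hD1 hB hD hw hw' hτ hτ' hcm b2 b3 c2 c3 hprim hdet hmap
  have hcm' : NonCM τ' := hcm.of_maps hdet.ne' hmap
  obtain ⟨N, hN⟩ : ∃ N : ℕ, g.det = N := ⟨g.det.toNat, (Int.toNat_of_nonneg hdet.le).symm⟩
  have hN0 : 0 < N := by rw [hN] at hdet; exact_mod_cast hdet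
  have hNC : (N : ℂ) ≠ 0 := by exact_mod_cast hN0.ne'
  have hdet' : (g 0 0 : ℂ) * (g 1 1 : ℂ) - (g 0 1 : ℂ) * (g 1 0 : ℂ) = N := by
    rw [Matrix.det_fin_two] at hN
    exact_mod_cast congrArg (Int.cast (R := ℂ)) hN
  have hmap' := hmap
  rw [Maps] at hmap'
  have hprod : ((g 1 0 : ℂ) * τ + (g 1 1 : ℂ)) * ((g 0 0 : ℂ) - (g 1 0 : ℂ) * τ') = N := by
    linear_combination hdet' - (g 1 0 : ℂ) * hmap'
  have hne : (g 0 0 : ℂ) - (g 1 0 : ℂ) * τ' ≠ 0 := by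
    intro h0; rw [h0, mul_zero] at hprod; exact hNC hprod.symm
  set γ : ℂ := w' * ((g 0 0 : ℂ) - (g 1 0 : ℂ) * τ') / w with hγ
  have hγ0 : γ ≠ 0 := div_ne_zero (mul_ne_zero hw' hne) hw
  have hLM : LatMap γ w (w * τ) w' (w' * τ') := by
    intro x
    refine ⟨(x.1 * g 0 0 - x.2 * g 0 1, -(x.1 * g 1 0) + x.2 * g 1 1), ?_⟩
    simp only [lat, hγ]
    push_cast
    field_simp
    linear_combination -(x.2 : ℂ) * hmap'
  have hIx : ∀ y : ℤ × ℤ, ∃ x : ℤ × ℤ, (N : ℂ) * lat w' (w' * τ') y = γ * lat w (w * τ) x := by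
    intro y
    refine ⟨(y.1 * g 1 1 + y.2 * g 0 1, y.1 * g 1 0 + y.2 * g 0 0), ?_⟩
    simp only [lat, hγ]
    push_cast
    field_simp
    have e1 : (y.1 : ℂ) * g 1 1 + y.2 * g 0 1 + (y.1 * g 1 0 + y.2 * g 0 0) * τ =
        ((g 1 0 : ℂ) * τ + (g 1 1 : ℂ)) * ((y.1 : ℂ) + y.2 * τ') := by
      linear_combination -(y.2 : ℂ) * hmap'
    have e2 : (y.1 : ℂ) * g 1 1 + y.2 * g 0 1 + τ * (y.1 * g 1 0 + y.2 * g 0 0) =
        ((g 1 0 : ℂ) * τ + (g 1 1 : ℂ)) * ((y.1 : ℂ) + y.2 * τ') := by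
      rw [← e1]; ring
    linear_combination -((y.1 : ℂ) + y.2 * τ') * hprod - ((g 0 0 : ℂ) - (g 1 0 : ℂ) * τ') * e1
  have hlogN : (Real.log (g.det : ℝ)) = Real.log N := by rw [hN]; norm_cast
  have hlog0 : 0 ≤ Real.log N := Real.log_nonneg (by exact_mod_cast hN0)
  have hbd := (hmain K D B w τ w' τ' γ N hD1 hB hD hw hw' hτ hτ' hcm' b2 b3 c2 c3 hγ0 hN0 hLM
    hIx).1
  obtain ⟨K', hKK', hfd, hfr, hbd'⟩ := exists_quad K (by positivity) hbd
  refine ⟨γ, K', hKK', hfd, hfr, hbd.mem, ⟨hγ0, ?_, ?_⟩, by rw [hlogN]; exact hbd', ?_⟩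
  · rintro x ⟨m, n, rfl⟩
    obtain ⟨y, hy⟩ := hLM (m, n)
    exact ⟨y.1, y.2, hy⟩
  · intro ξ hξ
    have hξ' : LatMap ξ w (w * τ) w' (w' * τ') := by
      intro x
      obtain ⟨m, n, hmn⟩ := hξ (lat w (w * τ) x) ⟨x.1, x.2, rfl⟩
      exact ⟨(m, n), hmn⟩
    obtain ⟨r, hr⟩ := mul_rat hcm' hw' hγ0 hN0 hIx hξ'
    -- the entries of `r g` are integers
    have him : τ'.im ≠ 0 := hτ'.im_pos.ne'
    have hind : ∀ (a b : ℚ) (m n : ℤ), (a : ℂ) + b * τ' = m + n * τ' → a = m ∧ b = n := by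
      intro a b m n hab
      have h1 : (b : ℂ).re = (n : ℂ).re := by
        have := congrArg Complex.im hab
        simp only [Complex.add_im, Complex.mul_im, Complex.intCast_im, Complex.intCast_re,
          Complex.ratCast_im, Complex.ratCast_re, zero_mul, add_zero, zero_add] at this
        simpa using mul_right_cancel₀ him this
      have h2 : b = n := by
        simp only [Complex.intCast_re, Complex.ratCast_re] at h1
        exact_mod_cast h1
      rw [h2] at hab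
      push_cast at hab
      have h3 : (a : ℂ) = (m : ℂ) := by linear_combination hab
      exact ⟨by exact_mod_cast h3, h2⟩
    have hA : ∃ m n : ℤ, r * (g 0 0 : ℚ) = m ∧ r * (-(g 1 0 : ℚ)) = n := by
      obtain ⟨m, n, hmn⟩ := hξ w ⟨1, 0, by simp⟩
      refine ⟨m, n, hind _ _ m n ?_⟩
      have h1 : ξ * w = r * (w' * ((g 0 0 : ℂ) - (g 1 0 : ℂ) * τ')) := by
        rw [hr, hγ]; field_simp
      rw [h1] at hmn
      push_cast
      apply mul_left_cancel₀ hw'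
      linear_combination hmn
    have hB' : ∃ m n : ℤ, r * (-(g 0 1 : ℚ)) = m ∧ r * (g 1 1 : ℚ) = n := by
      obtain ⟨m, n, hmn⟩ := hξ (w * τ) ⟨0, 1, by simp⟩
      refine ⟨m, n, hind _ _ m n ?_⟩
      have h1 : ξ * (w * τ) = r * (w' * ((g 1 1 : ℂ) * τ' - (g 0 1 : ℂ))) := by
        rw [hr, hγ]; field_simp; linear_combination -(r : ℂ) * hmap'
      rw [h1] at hmn
      push_cast
      apply mul_left_cancel₀ hw'
      linear_combination hmn
    obtain ⟨m1, n1, hm1, hn1⟩ := hA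
    obtain ⟨m2, n2, hm2, hn2⟩ := hB'
    have hden : ∀ (a m : ℤ), r * (a : ℚ) = m → (r.den : ℤ) ∣ a := by
      intro a m ham
      have h1 : r.num * a = m * r.den := by
        have h2 : (r.num : ℚ) * a = m * r.den := by
          rw [← ham]
          have h3 := Rat.num_div_den r
          have h4 : (r.den : ℚ) ≠ 0 := by exact_mod_cast r.den_ne_zero
          have h5 : (r.num : ℚ) = r * r.den := by
            rw [eq_comm, ← eq_div_iff h4]; exact h3.symm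
          rw [h5]; ring
        exact_mod_cast h2
      have h2 : (r.den : ℤ) ∣ r.num * a := ⟨m, by rw [h1]; ring⟩
      have h3 : IsCoprime (r.den : ℤ) r.num := by
        rw [Int.isCoprime_iff_gcd_eq_one, Int.gcd_comm, Int.gcd]
        simpa using r.reduced
      exact h3.dvd_of_dvd_mul_left h2
    have h1 : r.den = 1 := by
      apply hprim
      intro i j
      fin_cases i <;> fin_cases j
      · exact hden _ m1 hm1
      · exact hden _ (-m2) (by push_cast; rw [← hm2]; ring)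
      · exact hden _ (-n1) (by push_cast; rw [← hn1]; ring)
      · exact hden _ n2 hn2
    refine ⟨r.num, ?_⟩
    rw [hr]
    congr 1
    have h3 : (r.num : ℚ) = r := by
      rw [← Rat.den_eq_one_iff]; exact h1
    exact_mod_cast congrArg (Rat.cast (K := ℂ)) h3.symm
  · -- the covolumes
    have h1 : τ.im * ‖(g 0 0 : ℂ) - (g 1 0 : ℂ) * τ'‖ ^ 2 = (g.det : ℝ) * τ'.im := by
      have hw1 : τ * ((g 0 0 : ℂ) - (g 1 0 : ℂ) * τ') = (g 1 1 : ℂ) * τ' - (g 0 1 : ℂ) := by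
        linear_combination -hmap'
      have h2 : (τ * ((g 0 0 : ℂ) - (g 1 0 : ℂ) * τ') *
          (starRingEnd ℂ) ((g 0 0 : ℂ) - (g 1 0 : ℂ) * τ')).im =
          τ.im * ‖(g 0 0 : ℂ) - (g 1 0 : ℂ) * τ'‖ ^ 2 := by
        rw [mul_assoc, Complex.mul_conj, ← Complex.normSq_eq_norm_sq, Complex.mul_im]
        simp [mul_comm]
      rw [← h2, hw1, Matrix.det_fin_two]
      simp only [map_sub, map_mul, Complex.mul_im, Complex.sub_im, Complex.sub_re,
        Complex.mul_re, Complex.intCast_re, Complex.intCast_im, Complex.conj_re, Complex.conj_im]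
      push_cast
      ring
    rw [hγ, norm_div, norm_mul, div_pow, mul_pow]
    have hw0 : ‖w‖ ≠ 0 := norm_ne_zero_iff.2 hw
    field_simp
    linear_combination h1

end Pool.Agent.LGO
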