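import Pool.Agent.LGO.Mul.Defs
import Pool.Agent.EllSch.Cusp
import Pool.Agent.EllSch.RelA

/-!
# LGO/Mul: the discriminant of `ℤ + ℤ τ`

`tsum_lat_eq'` (EllSch/Cusp): `G2 1 τ = 60 · 2 ζ(4) E₄(τ)`, `G3 1 τ = 140 · 2 ζ(6) E₆(τ)`, with
`riemannZeta_four` and `ζ(6) = π⁶/945` (`riemannZeta_two_mul_nat` or `hasSum_zeta_nat`, Bernoulli numbers);
`ModularForm.discriminant_eq_E₄_cube_sub_E₆_sq` (Mathlib, LevelOne/GradedRing): `Δ = (E₄³ - E₆²)/1728`.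
So `G2³ - 27 G3² = (4π⁴/3)³ E₄³ - 27 (8π⁶/27)² E₆² = (64 π¹²/27)(E₄³ - E₆²) = (2π)¹² Δ`.
-/

namespace Pool.Agent.LGO

open Pool.Agent.EllSch UpperHalfPlane

theorem bernoulli'_six : bernoulli' 6 = 1 / 42 := by
  have h5 : bernoulli' 5 = 0 := bernoulli'_eq_zero_of_odd (by decide) (by norm_num)
  have : Nat.choose 6 4 = 15 := by decide
  rw [bernoulli'_def]
  norm_num [Finset.sum_range_succ, Nat.choose, h5, this, bernoulli'_four, bernoulli'_three]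

theorem riemannZeta_six : riemannZeta 6 = (Real.pi : ℂ) ^ 6 / 945 := by
  have h := riemannZeta_two_mul_nat (k := 3) (by norm_num)
  have h1 : (2 * ((3 : ℕ) : ℂ)) = 6 := by norm_num
  rw [h1] at h
  rw [h, bernoulli_eq_bernoulli'_of_ne_one (by norm_num), show 2 * 3 = 6 from rfl, bernoulli'_six]
  norm_num [Nat.factorial]
  ring

theorem Disc_G2_eq (τ : ℍ) : G2 1 (τ : ℂ) = 4 * (Real.pi : ℂ) ^ 4 / 3 * ModularForm.E₄ τ := by
  have h := Cusp.tsum_lat_eq' (k := 4) (by norm_num) τ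
  unfold G2
  rw [h]
  push_cast
  rw [riemannZeta_four]
  ring

theorem Disc_G3_eq (τ : ℍ) : G3 1 (τ : ℂ) = 8 * (Real.pi : ℂ) ^ 6 / 27 * ModularForm.E₆ τ := by
  have h := Cusp.tsum_lat_eq' (k := 6) (by norm_num) τ
  unfold G3
  rw [h]
  push_cast
  rw [riemannZeta_six]
  ring

theorem disc_eq (τ : ℍ) : G2 1 (τ : ℂ) ^ 3 - 27 * G3 1 (τ : ℂ) ^ 2 =
    (2 * Real.pi) ^ 12 * ModularForm.discriminant τ := by
  rw [Disc_G2_eq, Disc_G3_eq, ModularForm.discriminant_eq_E₄_cube_sub_E₆_sq]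
  ring

theorem jInv_mul (τ : ℍ) : Pool.Agent.Hhelper14.ZP.jInv τ *
    (G2 1 (τ : ℂ) ^ 3 - 27 * G3 1 (τ : ℂ) ^ 2) = 1728 * G2 1 (τ : ℂ) ^ 3 := by
  have hD := ModularForm.discriminant_ne_zero τ
  rw [disc_eq, Disc_G2_eq, Pool.Agent.Hhelper14.ZP.jInv]
  field_simp
  ring

end Pool.Agent.LGO
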