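import Pool.Agent.LGO.Mul.Defs
import Pool.Agent.EllSch.Add
import Pool.Agent.EllSch.Hom
import Pool.Agent.EllSch.RelA

/-!
# LGO/Mul: existence of the rational function of an isogeny

PROOF. `Λ = ℤ a + ℤ b`, `Λ₁ = β⁻¹(ℤ a' + ℤ b') ⊇ Λ` (by `hm`), `N Λ₁ ⊆ Λ` (by `hm'`). Let `k_1, …, k_r`
be representatives of the nonzero classes of `Λ₁ / Λ`: `r + 1 ≤ N²` (every class is represented by
some `(p a + q b) / N` with `0 ≤ p, q < N`). Then
`β² ℘'(β z) = ℘(z) + ∑_j (℘(z + k_j) - ℘(k_j))` (`℘'` for `Λ'`): both sides are `Λ₁`-periodic (the right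
side up to an additive constant a priori: `℘(z + λ) + ∑ ..` permutes the classes, the sum over ALL
classes of `℘(z + k)` is invariant), the difference is holomorphic off `Λ₁` and tends to `0` at `0`
(`tendsto_wp_sub` for both lattices), so it is constant `= 0` (`const_of_off` in `EllSch/Basic.lean`).
By the addition theorem (`wp_add`)
`℘(z + k) + ℘(z - k) = ((2 X x_k - g₂/2)(X + x_k) - g₃) / (X - x_k)²`, `X = ℘(z)`, `x_k = ℘(k)`; the set of
the classes is symmetric, so `2 ∑_j ℘(z + k_j) = ∑_j (℘(z + k_j) + ℘(z - k_j))`. Hence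
`℘'(β z) = S(℘(z))`, `S = β⁻² (X + ∑_j (Q_j / (2 (X - x_j)²) - x_j))`; `B = β² ∏_j (X - x_j)² `, `A = S B`:
degrees at most `2 r + 1 ≤ 2 N²`. The differential equation: differentiate `℘'(β z) = S(℘(z))`:
`β ℘''(β z) = S'(℘(z)) ℘'(z)`, square: `β² F'(S(X)) = S'(X)² F(X)` at all `X = ℘(z)`, `z` in a nonempty
open set, i.e. at infinitely many `X`. (`wq` is the derivative of `wp`.)
Wronskian `≠ 0`: otherwise `S` is constant, but `℘'(β z)` is not constant.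
-/

namespace Pool.Agent.LGO

open Polynomial Pool.Agent.EllSch

open Filter Topology

private theorem Ex_lat_smul (c a b : ℂ) (w : ℤ × ℤ) :
    lat (c * a) (c * b) w = c * lat a b w := by
  unfold lat
  ring

private theorem Ex_ind_smul {c a b : ℂ} (hc : c ≠ 0) (h : Ind a b) : Ind (c * a) (c * b) := by
  unfold Ind at *
  have h1 : (c * a).re * (c * b).im - (c * a).im * (c * b).re =
      Complex.normSq c * (a.re * b.im - a.im * b.re) := by
    simp only [Complex.mul_re, Complex.mul_im, Complex.normSq_apply]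
    ring
  rw [h1]
  exact mul_ne_zero (fun h0 => hc (Complex.normSq_eq_zero.1 h0)) h

private theorem Ex_off_smul {c a b z : ℂ} (hc : c ≠ 0) :
    Off (c⁻¹ * a) (c⁻¹ * b) z ↔ Off a b (c * z) := by
  unfold Off
  refine forall_congr' fun x => not_congr ?_
  rw [Ex_lat_smul]
  constructor
  · intro h
    rw [h, ← mul_assoc, mul_inv_cancel₀ hc, one_mul]
  · intro h
    rw [← h, ← mul_assoc, inv_mul_cancel₀ hc, one_mul]

/-- the two values `℘ (z + k)`, `℘ (z - k)` -/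
private theorem Ex_pair {a b z k : ℂ} (h : Ind a b) (hz : Off a b z) (hk : Off a b k)
    (h1 : Off a b (z + k)) (h2 : Off a b (z - k)) :
    wp a b z - wp a b k ≠ 0 ∧ wp a b (z + k) + wp a b (z - k) =
      ((2 * wp a b z * wp a b k - G2 a b / 2) * (wp a b z + wp a b k) - G3 a b) /
        (wp a b z - wp a b k) ^ 2 := by
  have hne : wp a b z ≠ wp a b k := by
    intro he
    obtain ⟨x, hx⟩ := Hom.exists_of_wp_eq h hz hk h1 he
    exact h2 x (by rw [hx]; ring)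
  have hne' : wp a b z - wp a b k ≠ 0 := sub_ne_zero.2 hne
  refine ⟨hne', ?_⟩
  have e1 := wp_add h hz hk h1 hne
  have e2 := wp_add h hz (off_neg.2 hk) (by rw [← sub_eq_add_neg]; exact h2)
    (by rw [wp_neg h]; exact hne)
  rw [wp_neg h, wq_neg h, ← sub_eq_add_neg] at e2
  have o1 := ode h hz
  have o2 := ode h hk
  rw [e1, e2]
  field_simp
  linear_combination 4 * o1 + 4 * o2

/-- the vectors of the finer lattice modulo `N` -/
private noncomputable def ExL {N : ℕ} (a₁ b₁ : ℂ) (y : ZMod N × ZMod N) : ℂ :=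
  lat a₁ b₁ ((y.1.val : ℤ), (y.2.val : ℤ))

private theorem Ex_lat_congr {N : ℕ} {a b a₁ b₁ : ℂ}
    (hm' : ∀ y : ℤ × ℤ, ∃ x : ℤ × ℤ, (N : ℂ) * lat a₁ b₁ y = lat a b x) {u v : ℤ × ℤ}
    (h1 : (u.1 : ZMod N) = v.1) (h2 : (u.2 : ZMod N) = v.2) :
    ∃ x, lat a₁ b₁ u = lat a₁ b₁ v + lat a b x := by
  rw [ZMod.intCast_eq_intCast_iff_dvd_sub] at h1 h2
  obtain ⟨t1, ht1⟩ := h1
  obtain ⟨t2, ht2⟩ := h2
  obtain ⟨x, hx⟩ := hm' (-t1, -t2)
  refine ⟨x, ?_⟩
  rw [← hx]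
  have e1 : (v.1 : ℂ) - u.1 = N * t1 := by exact_mod_cast ht1
  have e2 : (v.2 : ℂ) - u.2 = N * t2 := by exact_mod_cast ht2
  unfold lat
  push_cast
  linear_combination -a₁ * e1 - b₁ * e2

private theorem Ex_shift {N : ℕ} [NeZero N] {a b a₁ b₁ : ℂ}
    (hm' : ∀ y : ℤ × ℤ, ∃ x : ℤ × ℤ, (N : ℂ) * lat a₁ b₁ y = lat a b x)
    (y : ZMod N × ZMod N) (w : ℤ × ℤ) :
    ∃ x, ExL a₁ b₁ y + lat a₁ b₁ w =
      ExL a₁ b₁ (y + ((w.1 : ZMod N), (w.2 : ZMod N))) + lat a b x := by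
  unfold ExL
  rw [← Pool.Agent.EllSch.lat_add]
  apply Ex_lat_congr hm' <;> simp

private theorem Ex_negL {N : ℕ} [NeZero N] {a b a₁ b₁ : ℂ}
    (hm' : ∀ y : ℤ × ℤ, ∃ x : ℤ × ℤ, (N : ℂ) * lat a₁ b₁ y = lat a b x)
    (y : ZMod N × ZMod N) :
    ∃ x, ExL a₁ b₁ (-y) = -ExL a₁ b₁ y + lat a b x := by
  unfold ExL
  rw [← Pool.Agent.EllSch.lat_neg]
  apply Ex_lat_congr hm' <;> simp

/-- the sum over all the vectors modulo `N` -/
private noncomputable def ExT {N : ℕ} [NeZero N] (a b a₁ b₁ z : ℂ) : ℂ :=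
  ∑ y : ZMod N × ZMod N, wp a b (z + ExL a₁ b₁ y)

private theorem Ex_T_per {N : ℕ} [NeZero N] {a b a₁ b₁ : ℂ} (h : Ind a b)
    (hm' : ∀ y : ℤ × ℤ, ∃ x : ℤ × ℤ, (N : ℂ) * lat a₁ b₁ y = lat a b x) (z : ℂ) (w : ℤ × ℤ) :
    ExT (N := N) a b a₁ b₁ (z + lat a₁ b₁ w) = ExT (N := N) a b a₁ b₁ z := by
  unfold ExT
  rw [← Equiv.sum_comp (Equiv.addRight (((w.1 : ZMod N), (w.2 : ZMod N)) : ZMod N × ZMod N))
    (fun y => wp a b (z + ExL a₁ b₁ y))]
  refine Finset.sum_congr rfl fun y _ => ?_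
  obtain ⟨x, hx⟩ := Ex_shift hm' y w
  rw [show z + lat a₁ b₁ w + ExL a₁ b₁ y = z + (ExL a₁ b₁ y + lat a₁ b₁ w) by ring, hx,
    ← add_assoc, wp_add_lat h]
  rfl

private theorem Ex_T_two {N : ℕ} [NeZero N] {a b a₁ b₁ : ℂ} (h : Ind a b)
    (hm' : ∀ y : ℤ × ℤ, ∃ x : ℤ × ℤ, (N : ℂ) * lat a₁ b₁ y = lat a b x) (z : ℂ) :
    2 * ExT (N := N) a b a₁ b₁ z =
      ∑ y : ZMod N × ZMod N, (wp a b (z + ExL a₁ b₁ y) + wp a b (z - ExL a₁ b₁ y)) := by
  rw [Finset.sum_add_distrib, two_mul]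
  congr 1
  unfold ExT
  rw [← Equiv.sum_comp (Equiv.neg (ZMod N × ZMod N)) (fun y => wp a b (z + ExL a₁ b₁ y))]
  refine Finset.sum_congr rfl fun y _ => ?_
  obtain ⟨x, hx⟩ := Ex_negL hm' y
  rw [Equiv.neg_apply, hx, ← add_assoc, wp_add_lat h, ← sub_eq_add_neg]

private theorem Ex_off_sub {a b a₁ b₁ : ℂ}
    (hm : ∀ x : ℤ × ℤ, ∃ y : ℤ × ℤ, lat a b x = lat a₁ b₁ y) {z : ℂ} (hz : Off a₁ b₁ z)
    (w : ℤ × ℤ) : Off a b (z + lat a₁ b₁ w) := by
  intro x hx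
  obtain ⟨y, hy⟩ := hm x
  refine hz (y - w) ?_
  rw [Pool.Agent.EllSch.lat_sub, ← hy, ← hx]
  ring

private theorem Ex_off_zero {a b a₁ b₁ : ℂ}
    (hm : ∀ x : ℤ × ℤ, ∃ y : ℤ × ℤ, lat a b x = lat a₁ b₁ y) {z : ℂ} (hz : Off a₁ b₁ z) :
    Off a b z := by
  have := Ex_off_sub hm hz 0
  rwa [Pool.Agent.EllSch.lat_zero, add_zero] at this

private theorem Ex_off_neg {a b a₁ b₁ : ℂ}
    (hm : ∀ x : ℤ × ℤ, ∃ y : ℤ × ℤ, lat a b x = lat a₁ b₁ y) {z : ℂ} (hz : Off a₁ b₁ z)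
    (w : ℤ × ℤ) : Off a b (z - lat a₁ b₁ w) := by
  have := Ex_off_sub hm hz (-w)
  rwa [Pool.Agent.EllSch.lat_neg, ← sub_eq_add_neg] at this

open Classical in
/-- the nonzero classes, with multiplicity -/
private noncomputable def ExK (N : ℕ) [NeZero N] (a b a₁ b₁ : ℂ) : Finset (ZMod N × ZMod N) :=
  Finset.univ.filter fun y => Off a b (ExL a₁ b₁ y)

private theorem Ex_mem {N : ℕ} [NeZero N] {a b a₁ b₁ : ℂ} {y : ZMod N × ZMod N} :
    y ∈ ExK N a b a₁ b₁ ↔ Off a b (ExL a₁ b₁ y) := by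
  simp [ExK]

private theorem Ex_ne {N : ℕ} [NeZero N] {a b a₁ b₁ : ℂ} (h : Ind a b)
    (hm : ∀ x : ℤ × ℤ, ∃ y : ℤ × ℤ, lat a b x = lat a₁ b₁ y) {z : ℂ} (hz : Off a₁ b₁ z)
    {y : ZMod N × ZMod N} (hy : y ∈ ExK N a b a₁ b₁) :
    wp a b z - wp a b (ExL a₁ b₁ y) ≠ 0 := by
  have hy' : Off a b (ExL a₁ b₁ y) := Ex_mem.1 hy
  exact (Ex_pair h (Ex_off_zero hm hz) hy' (Ex_off_sub hm hz _) (Ex_off_neg hm hz _)).1

private theorem Ex_T_eq {N : ℕ} [NeZero N] {a b a₁ b₁ : ℂ} (h : Ind a b)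
    (hm : ∀ x : ℤ × ℤ, ∃ y : ℤ × ℤ, lat a b x = lat a₁ b₁ y)
    (hm' : ∀ y : ℤ × ℤ, ∃ x : ℤ × ℤ, (N : ℂ) * lat a₁ b₁ y = lat a b x) {z : ℂ}
    (hz : Off a₁ b₁ z) :
    2 * ExT (N := N) a b a₁ b₁ z = 2 * ((ExK N a b a₁ b₁)ᶜ.card * wp a b z) +
      ∑ y ∈ ExK N a b a₁ b₁,
        ((2 * wp a b z * wp a b (ExL a₁ b₁ y) - G2 a b / 2) *
          (wp a b z + wp a b (ExL a₁ b₁ y)) - G3 a b) /
            (wp a b z - wp a b (ExL a₁ b₁ y)) ^ 2 := by
  rw [Ex_T_two h hm', ← Finset.sum_compl_add_sum (ExK N a b a₁ b₁)]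
  congr 1
  · have h1 : ∀ y ∈ (ExK N a b a₁ b₁)ᶜ,
        wp a b (z + ExL a₁ b₁ y) + wp a b (z - ExL a₁ b₁ y) = 2 * wp a b z := by
      intro y hy
      have hy' : ¬ Off a b (ExL a₁ b₁ y) := by
        intro h0
        exact (Finset.mem_compl.1 hy) (Ex_mem.2 h0)
      obtain ⟨x, hx⟩ := Hom.not_off hy'
      rw [hx, wp_add_lat h, sub_eq_add_neg, ← Pool.Agent.EllSch.lat_neg, wp_add_lat h]
      ring
    rw [Finset.sum_congr rfl h1, Finset.sum_const, nsmul_eq_mul]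
    ring
  · refine Finset.sum_congr rfl fun y hy => ?_
    have hy' : Off a b (ExL a₁ b₁ y) := Ex_mem.1 hy
    exact (Ex_pair h (Ex_off_zero hm hz) hy' (Ex_off_sub hm hz _) (Ex_off_neg hm hz _)).2

/-- the direct form of the sum -/
private theorem Ex_T_split {N : ℕ} [NeZero N] {a b a₁ b₁ : ℂ} (h : Ind a b) (z : ℂ) :
    ExT (N := N) a b a₁ b₁ z = (ExK N a b a₁ b₁)ᶜ.card * wp a b z +
      ∑ y ∈ ExK N a b a₁ b₁, wp a b (z + ExL a₁ b₁ y) := by
  unfold ExT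
  rw [← Finset.sum_compl_add_sum (ExK N a b a₁ b₁)]
  congr 1
  have h1 : ∀ y ∈ (ExK N a b a₁ b₁)ᶜ, wp a b (z + ExL a₁ b₁ y) = wp a b z := by
    intro y hy
    have hy' : ¬ Off a b (ExL a₁ b₁ y) := by
      intro h0
      exact (Finset.mem_compl.1 hy) (Ex_mem.2 h0)
    obtain ⟨x, hx⟩ := Hom.not_off hy'
    rw [hx, wp_add_lat h]
  rw [Finset.sum_congr rfl h1, Finset.sum_const, nsmul_eq_mul]

/-- the difference of the two sides is constant -/
private theorem Ex_const {N : ℕ} [NeZero N] {a b a' b' β : ℂ} (h : Ind a b) (h' : Ind a' b')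
    (hβ : β ≠ 0)
    (hm : ∀ x : ℤ × ℤ, ∃ y : ℤ × ℤ, lat a b x = lat (β⁻¹ * a') (β⁻¹ * b') y)
    (hm' : ∀ y : ℤ × ℤ, ∃ x : ℤ × ℤ, (N : ℂ) * lat (β⁻¹ * a') (β⁻¹ * b') y = lat a b x) :
    ∃ c : ℂ, ∀ z, Off (β⁻¹ * a') (β⁻¹ * b') z →
      (ExK N a b (β⁻¹ * a') (β⁻¹ * b'))ᶜ.card * β ^ 2 * wp a' b' (β * z) =
        ExT (N := N) a b (β⁻¹ * a') (β⁻¹ * b') z + c := by
  have h₁ : Ind (β⁻¹ * a') (β⁻¹ * b') := Ex_ind_smul (inv_ne_zero hβ) h'
  set M : ℂ := ((ExK N a b (β⁻¹ * a') (β⁻¹ * b'))ᶜ.card : ℂ) with hM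
  refine ⟨-∑ y ∈ ExK N a b (β⁻¹ * a') (β⁻¹ * b'), wp a b (ExL (β⁻¹ * a') (β⁻¹ * b') y), ?_⟩
  have key := Basic.const_of_off h₁
    (f := fun z => M * β ^ 2 * wp a' b' (β * z) - ExT (N := N) a b (β⁻¹ * a') (β⁻¹ * b') z)
    (c := -∑ y ∈ ExK N a b (β⁻¹ * a') (β⁻¹ * b'), wp a b (ExL (β⁻¹ * a') (β⁻¹ * b') y))
    ?_ ?_ ?_
  · intro z hz
    have := key z hz
    linear_combination this
  · intro z hz
    have hz' : Off a' b' (β * z) := (Ex_off_smul hβ).1 hz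
    have d1 : DifferentiableAt ℂ (fun z => wp a' b' (β * z)) z := by
      have e1 : DifferentiableAt ℂ (wp a' b') (β * z) := Basic.differentiableAt_wp h' hz'
      exact e1.comp z ((differentiableAt_id).const_mul β)
    refine (d1.const_mul _).sub ?_
    unfold ExT
    refine DifferentiableAt.fun_sum fun y _ => ?_
    have e2 : Off a b (z + ExL (β⁻¹ * a') (β⁻¹ * b') y) := Ex_off_sub hm hz _
    have e3 : DifferentiableAt ℂ (wp a b) (z + ExL (β⁻¹ * a') (β⁻¹ * b') y) :=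
      Basic.differentiableAt_wp h e2
    exact e3.comp z ((differentiableAt_id).add_const _)
  · intro z x hz
    rw [Ex_T_per h hm', Ex_lat_smul, mul_add, ← mul_assoc, mul_inv_cancel₀ hβ, one_mul,
      wp_add_lat h']
  · have t1 : Tendsto (fun z : ℂ => β * z) (𝓝[≠] 0) (𝓝[≠] 0) := by
      rw [tendsto_nhdsWithin_iff]
      constructor
      · have : Continuous (fun z : ℂ => β * z) := by fun_prop
        have := this.tendsto 0
        rw [mul_zero] at this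
        exact this.mono_left nhdsWithin_le_nhds
      · filter_upwards [self_mem_nhdsWithin] with z hz
        exact mul_ne_zero hβ hz
    have t2 := ((Add.tendsto_wp_sub h').comp t1).const_mul (M * β ^ 2)
    have t3 := (Add.tendsto_wp_sub h).const_mul M
    have t4 : Tendsto (fun z => ∑ y ∈ ExK N a b (β⁻¹ * a') (β⁻¹ * b'),
        wp a b (z + ExL (β⁻¹ * a') (β⁻¹ * b') y)) (𝓝[≠] 0)
        (𝓝 (∑ y ∈ ExK N a b (β⁻¹ * a') (β⁻¹ * b'), wp a b (ExL (β⁻¹ * a') (β⁻¹ * b') y))) := by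
      refine tendsto_finsetSum _ fun y hy => ?_
      have hy' : Off a b (ExL (β⁻¹ * a') (β⁻¹ * b') y) := Ex_mem.1 hy
      have e1 : ContinuousAt (wp a b) (0 + ExL (β⁻¹ * a') (β⁻¹ * b') y) := by
        rw [zero_add]
        exact (hasDerivAt_wp h hy').continuousAt
      have e2 : ContinuousAt (fun z : ℂ => z + ExL (β⁻¹ * a') (β⁻¹ * b') y) 0 := by fun_prop
      have e3 := (ContinuousAt.comp (f := fun z : ℂ => z + ExL (β⁻¹ * a') (β⁻¹ * b') y)
        (x := 0) e1 e2).tendsto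
      simp only [Function.comp_def, zero_add] at e3
      exact e3.mono_left nhdsWithin_le_nhds
    have t5 := (t2.sub t3).sub t4
    rw [mul_zero, mul_zero, sub_zero, zero_sub] at t5
    refine t5.congr' ?_
    filter_upwards [self_mem_nhdsWithin] with z hz
    have hz' : z ≠ 0 := hz
    rw [Ex_T_split h, ← hM]
    simp only [Function.comp_apply]
    have e1 : M * β ^ 2 * (1 / (β * z) ^ 2) = M * (1 / z ^ 2) := by
      field_simp
    linear_combination (-1) * e1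

private noncomputable def ExQ (g2 g3 x : ℂ) : ℂ[X] :=
  (C (2 * x) * X - C (g2 / 2)) * (X + C x) - C g3

private theorem ExQ_eval (g2 g3 x t : ℂ) :
    (ExQ g2 g3 x).eval t = (2 * t * x - g2 / 2) * (t + x) - g3 := by
  simp only [ExQ, eval_sub, eval_mul, eval_add, eval_C, eval_X]
  ring

private theorem ExQ_deg (g2 g3 x : ℂ) : (ExQ g2 g3 x).natDegree ≤ 2 := by
  unfold ExQ
  compute_degree

private theorem ExP_deg {ι : Type*} (s : Finset ι) (f : ι → ℂ) :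
    (∏ y ∈ s, (X - C (f y)) ^ 2).natDegree ≤ 2 * s.card := by
  refine (natDegree_prod_le _ _).trans ?_
  refine (Finset.sum_le_card_nsmul s _ 2 fun y _ => ?_).trans ?_
  · compute_degree
  · rw [smul_eq_mul, mul_comm]

private theorem Ex_rat {ι : Type*} [DecidableEq ι] (s : Finset ι) (f : ι → ℂ)
    (M c g2 g3 γ : ℂ) (hM : M ≠ 0) (hγ : γ ≠ 0) :
    ∃ A B : ℂ[X], A.natDegree ≤ 2 * s.card + 1 ∧ B.natDegree ≤ 2 * s.card ∧
      ∀ t : ℂ, (∀ y ∈ s, t - f y ≠ 0) → B.eval t ≠ 0 ∧ ∀ F : ℂ,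
        2 * (M * γ * F) = 2 * (M * t) + (∑ y ∈ s, ((2 * t * f y - g2 / 2) * (t + f y) - g3) /
          (t - f y) ^ 2) + 2 * c → F * B.eval t = A.eval t := by
  refine ⟨(C M * X + C c) * ∏ y ∈ s, (X - C (f y)) ^ 2 +
    ∑ y ∈ s, C (1 / 2) * ExQ g2 g3 (f y) * ∏ z ∈ s.erase y, (X - C (f z)) ^ 2,
    C (M * γ) * ∏ y ∈ s, (X - C (f y)) ^ 2, ?_, ?_, ?_⟩
  · refine (natDegree_add_le _ _).trans (max_le ?_ ?_)
    · refine natDegree_mul_le.trans ?_
      have h1 : (C M * X + C c : ℂ[X]).natDegree ≤ 1 := by compute_degree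
      have h2 := ExP_deg s f
      omega
    · refine natDegree_sum_le_of_forall_le s _ fun y hy => ?_
      refine natDegree_mul_le.trans ?_
      have h1 : (C (1 / 2) * ExQ g2 g3 (f y)).natDegree ≤ 2 := by
        refine natDegree_mul_le.trans ?_
        have := ExQ_deg g2 g3 (f y)
        rw [natDegree_C]
        omega
      have h2 := ExP_deg (s.erase y) f
      rw [Finset.card_erase_of_mem hy] at h2
      have h3 : 0 < s.card := Finset.card_pos.2 ⟨y, hy⟩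
      omega
  · refine natDegree_mul_le.trans ?_
    rw [natDegree_C, zero_add]
    exact ExP_deg s f
  · intro t ht
    have e1 : ∀ s' : Finset ι, (∏ y ∈ s', (X - C (f y)) ^ 2).eval t = ∏ y ∈ s', (t - f y) ^ 2 := by
      intro s'
      rw [eval_prod]
      simp
    have hP : ∏ y ∈ s, (t - f y) ^ 2 ≠ 0 :=
      Finset.prod_ne_zero_iff.2 fun y hy => pow_ne_zero 2 (ht y hy)
    refine ⟨?_, fun F hF => ?_⟩
    · rw [eval_mul, eval_C, e1]
      exact mul_ne_zero (mul_ne_zero hM hγ) hP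
    · rw [eval_mul, eval_C, e1, eval_add, eval_mul, e1, eval_finsetSum]
      have e2 : ∀ y ∈ s, (C (1 / 2) * ExQ g2 g3 (f y) * ∏ z ∈ s.erase y, (X - C (f z)) ^ 2).eval t =
          1 / 2 * (((2 * t * f y - g2 / 2) * (t + f y) - g3) / (t - f y) ^ 2) *
            ∏ y ∈ s, (t - f y) ^ 2 := by
        intro y hy
        rw [eval_mul, eval_mul, eval_C, ExQ_eval, e1, ← Finset.mul_prod_erase s _ hy]
        have := ht y hy
        field_simp
      rw [Finset.sum_congr rfl e2, ← Finset.sum_mul, ← Finset.mul_sum]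
      simp only [eval_add, eval_mul, eval_C, eval_X]
      linear_combination (1 / 2 * ∏ y ∈ s, (t - f y) ^ 2) * hF

theorem exists_sol {a b a' b' β : ℂ} (h : Ind a b) (h' : Ind a' b') (hβ : β ≠ 0) {N : ℕ}
    (hN : 0 < N) (hm : LatMap β a b a' b')
    (hm' : ∀ y : ℤ × ℤ, ∃ x : ℤ × ℤ, (N : ℂ) * lat a' b' y = β * lat a b x) :
    ∃ A B : ℂ[X], Sol A B (G2 a b) (G3 a b) (G2 a' b') (G3 a' b') (β ^ 2) ∧
      A.natDegree ≤ 2 * N ^ 2 ∧ B.natDegree ≤ 2 * N ^ 2 := by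
  classical
  have _i : NeZero N := ⟨hN.ne'⟩
  have hs : ∀ x : ℤ × ℤ, ∃ y : ℤ × ℤ, lat a b x = lat (β⁻¹ * a') (β⁻¹ * b') y := by
    intro x
    obtain ⟨y, hy⟩ := hm x
    refine ⟨y, ?_⟩
    rw [Ex_lat_smul, ← hy, ← mul_assoc, inv_mul_cancel₀ hβ, one_mul]
  have hs' : ∀ y : ℤ × ℤ, ∃ x : ℤ × ℤ, (N : ℂ) * lat (β⁻¹ * a') (β⁻¹ * b') y = lat a b x := by
    intro y
    obtain ⟨x, hx⟩ := hm' y
    refine ⟨x, ?_⟩
    rw [Ex_lat_smul, mul_left_comm, hx, ← mul_assoc, inv_mul_cancel₀ hβ, one_mul]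
  obtain ⟨c, hc⟩ := Ex_const (N := N) h h' hβ hs hs'
  have hpos : 0 < (ExK N a b (β⁻¹ * a') (β⁻¹ * b'))ᶜ.card := by
    refine Finset.card_pos.2 ⟨0, Finset.mem_compl.2 fun h0 => ?_⟩
    have h1 := Ex_mem.1 h0
    refine h1 0 ?_
    simp [ExL, lat]
  have hM : ((ExK N a b (β⁻¹ * a') (β⁻¹ * b'))ᶜ.card : ℂ) ≠ 0 := by
    exact_mod_cast hpos.ne'
  have hcard : 2 * (ExK N a b (β⁻¹ * a') (β⁻¹ * b')).card + 1 ≤ 2 * N ^ 2 := by
    have h1 := Finset.card_add_card_compl (ExK N a b (β⁻¹ * a') (β⁻¹ * b'))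
    rw [Fintype.card_prod, ZMod.card, ← pow_two] at h1
    omega
  obtain ⟨A, B, hA, hB, hAB⟩ := Ex_rat (ExK N a b (β⁻¹ * a') (β⁻¹ * b'))
    (fun y => wp a b (ExL (β⁻¹ * a') (β⁻¹ * b') y)) _ c (G2 a b) (G3 a b) (β ^ 2) hM
    (pow_ne_zero 2 hβ)
  have key : ∀ z, Off (β⁻¹ * a') (β⁻¹ * b') z → B.eval (wp a b z) ≠ 0 ∧
      wp a' b' (β * z) * B.eval (wp a b z) = A.eval (wp a b z) := by
    intro z hz
    have h1 := hAB (wp a b z) (fun y hy => Ex_ne h hs hz hy)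
    refine ⟨h1.1, h1.2 _ ?_⟩
    have h2 := hc z hz
    have h3 := Ex_T_eq h hs hs' hz
    linear_combination 2 * h2 + h3
  have der : ∀ z, Off (β⁻¹ * a') (β⁻¹ * b') z →
      β * wq a' b' (β * z) * B.eval (wp a b z) ^ 2 =
        wq a b z * (derivative A * B - A * derivative B).eval (wp a b z) := by
    intro z hz
    have hz0 := Ex_off_zero hs hz
    have hz' : Off a' b' (β * z) := (Ex_off_smul hβ).1 hz
    have d1 : HasDerivAt (fun u => wp a' b' (β * u)) (wq a' b' (β * z) * β) z := by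
      have e1 := hasDerivAt_wp h' hz'
      have e2 : HasDerivAt (fun u : ℂ => β * u) β z := by
        simpa using (hasDerivAt_id z).const_mul β
      exact e1.comp z e2
    have d2 : ∀ p : ℂ[X], HasDerivAt (fun u => p.eval (wp a b u))
        ((derivative p).eval (wp a b z) * wq a b z) z := fun p =>
      (p.hasDerivAt (wp a b z)).comp z (hasDerivAt_wp h hz0)
    have d3 := d1.mul (d2 B)
    have hev : (fun u => wp a' b' (β * u) * B.eval (wp a b u)) =ᶠ[𝓝 z]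
        fun u => A.eval (wp a b u) := by
      filter_upwards [(isOpen_off (Ex_ind_smul (inv_ne_zero hβ) h')).mem_nhds hz] with u hu
      exact (key u hu).2
    have e := (d3.congr_of_eventuallyEq hev.symm).unique (d2 A)
    rw [eval_sub, eval_mul, eval_mul]
    have e2 := (key z hz).2
    linear_combination B.eval (wp a b z) * e -
      (derivative B).eval (wp a b z) * wq a b z * e2
  refine ⟨A, B, ⟨?_, pow_ne_zero 2 hβ, ?_, ?_⟩, ?_, ?_⟩
  · -- the denominator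
    obtain ⟨u, hu⟩ := ((Basic.eventually_off (Ex_ind_smul (inv_ne_zero hβ) h') 0).exists)
    intro hB0
    have := (key u hu).1
    rw [hB0, eval_zero] at this
    exact this rfl
  · -- the Wronskian
    obtain ⟨u, hu⟩ := ((Basic.eventually_off h' 0).exists)
    have e1 : β * (u / (2 * β)) = u / 2 := by field_simp
    have e2 : Off a' b' (2 * (β * (u / (2 * β)))) := by
      rw [e1, mul_div_cancel₀ u (two_ne_zero)]
      exact hu
    have e3 : Off (β⁻¹ * a') (β⁻¹ * b') (u / (2 * β)) := by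
      rw [Ex_off_smul hβ]
      intro x hx
      refine e2 (x + x) ?_
      rw [hx, Pool.Agent.EllSch.lat_add, two_mul]
    intro h0
    have e4 := der _ e3
    rw [h0, eval_zero, mul_zero] at e4
    exact (mul_ne_zero (mul_ne_zero hβ (wq_ne_zero h' e2)) (pow_ne_zero 2 (key _ e3).1)) e4
  · -- the differential equation
    refine Polynomial.eq_of_infinite_eval_eq _ _ ?_
    have hfin : (((ExK N a b (β⁻¹ * a') (β⁻¹ * b')).image
      fun y => wp a b (ExL (β⁻¹ * a') (β⁻¹ * b') y) : Finset ℂ) : Set ℂ).Finite :=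
      Finset.finite_toSet _
    refine hfin.infinite_compl.mono fun t ht => ?_
    obtain ⟨y, hy⟩ := IsAlgClosed.exists_pow_nat_eq (4 * t ^ 3 - G2 a b * t - G3 a b)
      (n := 2) (by norm_num)
    obtain ⟨z, hz0, hzt, hzy⟩ := exists_wp_eq h hy
    have hz : Off (β⁻¹ * a') (β⁻¹ * b') z := by
      intro w hw
      obtain ⟨x, hx⟩ := Ex_shift (N := N) hs' 0 w
      have e0 : ExL (β⁻¹ * a') (β⁻¹ * b') (0 : ZMod N × ZMod N) = 0 := by
        simp [ExL, lat]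
      rw [e0, zero_add, ← hw, zero_add] at hx
      have e1 : Off a b (ExL (β⁻¹ * a') (β⁻¹ * b') ((w.1 : ZMod N), (w.2 : ZMod N))) := by
        rw [hx, off_add_lat] at hz0
        exact hz0
      refine ht ?_
      rw [Finset.mem_coe, Finset.mem_image]
      refine ⟨_, Ex_mem.2 e1, ?_⟩
      rw [← hzt, hx, wp_add_lat h]
    have hz' : Off a' b' (β * z) := (Ex_off_smul hβ).1 hz
    have k1 := key z hz
    have k2 := der z hz
    have k3 := ode h hz0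
    have k4 := ode h' hz'
    rw [Set.mem_ofPred_eq]
    rw [hzt] at k1 k2 k3
    simp only [eval_mul, eval_sub, eval_pow, eval_C, eval_X, eval_ofNat] at k2 ⊢
    have hBt := k1.1
    have k5 := k1.2
    rw [← k5] at k2 ⊢
    linear_combination (-(eval t (derivative A) * eval t B -
        wp a' b' (β * z) * eval t B * eval t (derivative B)) ^ 2) * k3 +
      β ^ 2 * eval t B ^ 4 * k4 -
      (β * wq a' b' (β * z) * eval t B ^ 2 + wq a b z * (eval t (derivative A) * eval t B -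
        wp a' b' (β * z) * eval t B * eval t (derivative B))) * k2
  · refine hA.trans ?_
    omega
  · refine hB.trans ?_
    omega

end Pool.Agent.LGO
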