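import Pool.Agent.LGO.Mul.Val

/-!
# LGO/Mul: integrality of the multiplier

PROOF. Let `V` be any valuation subring of `ℂ`, `v` its valuation (`v n ≤ 1` for integers `n`), and
`4 X³ - h₂ X - h₃ = 4 (X - e₁)(X - e₂)(X - e₃)`. `v(2 e_i) ≤ 1` (`2 e_i` is a root of
`Y³ - h₂ Y - 2 h₃`), `Δ = (e_i - e_j)² (2(e_i-e_k))² (2(e_j-e_k))²`, `2(e_i - e_k) ∈ V`, so
`v(e_i - e_j)² ≥ v(Δ)` for all `i ≠ j`.
For a solution `(A, B, γ)` choose by `exists_generic` a point `t ∈ V` with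
`v(P.coeff i) ≤ v(P(t))` for `P = B, A - e_i B` and put `b = B(t)`, `d_i = A(t) - e_i b`,
`w = (A' B - A B')(t)`. Then `b ≠ 0`, `d_i ≠ 0` and, as `A' B - A B'` is also the Wronskian of
`A - e_i B` and `B`, `v(w) ≤ v(d_i) v(b)` for every `i`. Let `v(d₁)` be the smallest of the `v(d_i)`.
The equation gives `v(γ) v(4) v(b) v(d₁) v(d₂) v(d₃) ≤ v(w)² ≤ v(d₁)² v(b)²`; here `v(d₂) ≥ v(d₁)` and
`v(d₃) ≥ v(d₃ - d₁) = v(e₁ - e₃) v(b)`. So `v(4 γ (e₁ - e₃)) ≤ 1` and `v(16 γ² Δ) ≤ 1`,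
`v(4 γ Δ) ≤ 1`. (So even `4 γ Δ` is an algebraic integer, `Sol.isIntegral'`.)
-/

namespace Pool.Agent.LGO

open Polynomial

theorem Int_mem (V : ValuationSubring ℂ) {x : ℂ} (hx : IsIntegral ℤ x) : x ∈ V := by
  have h1 : IsIntegral V x := hx.tower_top
  obtain ⟨y, hy⟩ := (IsIntegrallyClosed.isIntegral_iff (R := V) (K := ℂ)).1 h1
  rw [← hy]
  exact y.2

theorem Int_intCast (V : ValuationSubring ℂ) (n : ℤ) : V.valuation (n : ℂ) ≤ 1 :=
  (V.valuation_le_one_iff _).2 (intCast_mem V n)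

theorem Int_eval_le (V : ValuationSubring ℂ) {t : ℂ} (ht : t ∈ V) (P : ℂ[X]) {c : V.ValueGroup}
    (h : ∀ i, V.valuation (P.coeff i) ≤ c) : V.valuation (P.eval t) ≤ c := by
  rw [Polynomial.eval_eq_sum_range]
  refine Valuation.map_sum_le _ fun i _ => ?_
  rw [map_mul, map_pow]
  refine (mul_le_mul' (h i) (pow_le_one' ((V.valuation_le_one_iff _).2 ht) i)).trans ?_
  rw [mul_one]

theorem Int_deriv_le (V : ValuationSubring ℂ) {t : ℂ} (ht : t ∈ V) {P : ℂ[X]}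
    (h : ∀ i, V.valuation (P.coeff i) ≤ V.valuation (P.eval t)) :
    V.valuation ((derivative P).eval t) ≤ V.valuation (P.eval t) := by
  refine Int_eval_le V ht _ fun i => ?_
  rw [coeff_derivative, map_mul]
  have h1 : V.valuation ((i : ℂ) + 1) ≤ 1 := by
    have := Int_intCast V ((i : ℤ) + 1)
    push_cast at this
    exact this
  refine (mul_le_mul' (h (i + 1)) h1).trans ?_
  rw [mul_one]

theorem Int_wron_le (V : ValuationSubring ℂ) {t : ℂ} (ht : t ∈ V) {P Q : ℂ[X]}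
    (hP : ∀ i, V.valuation (P.coeff i) ≤ V.valuation (P.eval t))
    (hQ : ∀ i, V.valuation (Q.coeff i) ≤ V.valuation (Q.eval t)) :
    V.valuation ((derivative P * Q - P * derivative Q).eval t) ≤
      V.valuation (P.eval t) * V.valuation (Q.eval t) := by
  rw [eval_sub, eval_mul, eval_mul]
  refine (V.valuation.map_sub _ _).trans (max_le ?_ ?_)
  · rw [map_mul]
    exact mul_le_mul' (Int_deriv_le V ht hP) le_rfl
  · rw [map_mul]
    exact mul_le_mul' le_rfl (Int_deriv_le V ht hQ)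

theorem Int_ne (V : ValuationSubring ℂ) {t : ℂ} {P : ℂ[X]} (hP0 : P ≠ 0)
    (hP : ∀ i, V.valuation (P.coeff i) ≤ V.valuation (P.eval t)) : P.eval t ≠ 0 := by
  intro h0
  apply hP0
  ext i
  have := hP i
  rw [h0, map_zero, le_zero_iff, Valuation.zero_iff] at this
  rw [this, coeff_zero]

/-- `2 e ∈ V` for a root `e` of `4 X³ - h₂ X - h₃` -/
theorem Int_two_mul {h2 h3 e : ℂ} (V : ValuationSubring ℂ) (j2 : h2 ∈ V) (j3 : h3 ∈ V)
    (he : 4 * e ^ 3 - h2 * e - h3 = 0) : 2 * e ∈ V := by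
  by_contra hn
  rw [← V.valuation_le_one_iff, not_le] at hn
  have e1 : (2 * e) ^ 3 = h2 * (2 * e) + 2 * h3 := by linear_combination 2 * he
  have h4 : V.valuation ((2 * e) ^ 3) ≤ V.valuation (2 * e) := by
    rw [e1]
    refine (V.valuation.map_add _ _).trans (max_le ?_ ?_)
    · rw [map_mul]
      refine (mul_le_mul' ((V.valuation_le_one_iff _).2 j2) le_rfl).trans ?_
      rw [one_mul]
    · refine le_trans ?_ hn.le
      refine (V.valuation_le_one_iff _).2 (mul_mem ?_ j3)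
      exact_mod_cast intCast_mem V 2
  rw [map_pow] at h4
  have h5 : V.valuation (2 * e) < V.valuation (2 * e) ^ 3 := by
    have := pow_lt_pow_right₀ hn (show 1 < 3 by norm_num)
    rwa [pow_one] at this
  exact absurd h4 (not_le.2 h5)

theorem Int_core (V : ValuationSubring ℂ) {h2 h3 γ e1 e2 e3 a b w F : ℂ} (j2 : h2 ∈ V)
    (j3 : h3 ∈ V) (s1 : e1 + e2 + e3 = 0) (s2 : h2 = -4 * (e1 * e2 + e1 * e3 + e2 * e3))
    (s3 : h3 = 4 * (e1 * e2 * e3)) (hF : V.valuation F ≤ 1)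
    (hode : F * w ^ 2 = γ * b * (4 * a ^ 3 - h2 * a * b ^ 2 - h3 * b ^ 3))
    (hb : b ≠ 0) (hd : a - e1 * b ≠ 0)
    (hw : V.valuation w ≤ V.valuation (a - e1 * b) * V.valuation b)
    (d2 : V.valuation (a - e1 * b) ≤ V.valuation (a - e2 * b))
    (d3 : V.valuation (a - e1 * b) ≤ V.valuation (a - e3 * b)) :
    4 * (h2 ^ 3 - 27 * h3 ^ 2) * γ ∈ V := by
  set v := V.valuation with hv
  have r1 : 4 * e1 ^ 3 - h2 * e1 - h3 = 0 := by
    have : e3 = -e1 - e2 := by linear_combination s1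
    rw [s2, s3, this]; ring
  have r2 : 4 * e2 ^ 3 - h2 * e2 - h3 = 0 := by
    have : e3 = -e1 - e2 := by linear_combination s1
    rw [s2, s3, this]; ring
  have r3 : 4 * e3 ^ 3 - h2 * e3 - h3 = 0 := by
    have : e2 = -e1 - e3 := by linear_combination s1
    rw [s2, s3, this]; ring
  have m1 := Int_two_mul V j2 j3 r1
  have m2 := Int_two_mul V j2 j3 r2
  have m3 := Int_two_mul V j2 j3 r3
  -- the discriminant
  have hD : h2 ^ 3 - 27 * h3 ^ 2 =
      (e1 - e3) ^ 2 * ((2 * e1 - 2 * e2) ^ 2 * (2 * e3 - 2 * e2) ^ 2) := by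
    have : e3 = -e1 - e2 := by linear_combination s1
    rw [s2, s3, this]; ring
  have hDle : v (h2 ^ 3 - 27 * h3 ^ 2) ≤ v (e1 - e3) ^ 2 := by
    rw [hD, map_mul, map_pow]
    have : v ((2 * e1 - 2 * e2) ^ 2 * (2 * e3 - 2 * e2) ^ 2) ≤ 1 :=
      (V.valuation_le_one_iff _).2 (mul_mem (pow_mem (sub_mem m1 m2) 2)
        (pow_mem (sub_mem m3 m2) 2))
    refine (mul_le_mul' le_rfl this).trans ?_
    rw [mul_one]
  have hDV : v (h2 ^ 3 - 27 * h3 ^ 2) ≤ 1 := by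
    refine (V.valuation_le_one_iff _).2 (sub_mem (pow_mem j2 3) (mul_mem ?_ (pow_mem j3 2)))
    exact_mod_cast intCast_mem V 27
  -- the main inequality
  have hfac : 4 * a ^ 3 - h2 * a * b ^ 2 - h3 * b ^ 3 =
      4 * ((a - e1 * b) * (a - e2 * b) * (a - e3 * b)) := by
    have : e3 = -e1 - e2 := by linear_combination s1
    rw [s2, s3, this]; ring
  have hle : v (γ * b * (4 * ((a - e1 * b) * (a - e2 * b) * (a - e3 * b)))) ≤
      (v (a - e1 * b) * v b) ^ 2 := by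
    rw [← hfac, ← hode, map_mul, map_pow]
    calc v F * v w ^ 2 ≤ 1 * (v (a - e1 * b) * v b) ^ 2 :=
          mul_le_mul' hF (pow_le_pow_left' hw 2)
      _ = _ := one_mul _
  have hd3 : v ((e1 - e3) * b) ≤ v (a - e3 * b) := by
    have e : (e1 - e3) * b = (a - e3 * b) - (a - e1 * b) := by ring
    rw [e]
    exact (v.map_sub _ _).trans (max_le le_rfl d3)
  have hle2 : (v (4 * γ * (e1 - e3))) * (v (a - e1 * b) * v b) ^ 2 ≤
      1 * (v (a - e1 * b) * v b) ^ 2 := by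
    rw [one_mul]
    refine le_trans ?_ hle
    have e : (v (4 * γ * (e1 - e3))) * (v (a - e1 * b) * v b) ^ 2 =
        v (4 * γ * b * (a - e1 * b)) * (v (a - e1 * b) * v ((e1 - e3) * b)) := by
      rw [← map_mul, ← map_pow, ← map_mul, ← map_mul, ← map_mul]
      congr 1
      ring
    have e' : v (γ * b * (4 * ((a - e1 * b) * (a - e2 * b) * (a - e3 * b)))) =
        v (4 * γ * b * (a - e1 * b)) * (v (a - e2 * b) * v (a - e3 * b)) := by
      rw [← map_mul, ← map_mul]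
      congr 1
      ring
    rw [e, e']
    exact mul_le_mul' le_rfl (mul_le_mul' d2 hd3)
  have hpos : 0 < (v (a - e1 * b) * v b) ^ 2 := by
    have h1 : v (a - e1 * b) ≠ 0 := (Valuation.ne_zero_iff _).2 hd
    have h2 : v b ≠ 0 := (Valuation.ne_zero_iff _).2 hb
    exact zero_lt_iff.2 (pow_ne_zero 2 (mul_ne_zero h1 h2))
  have hfin : v (4 * γ * (e1 - e3)) ≤ 1 := le_of_mul_le_mul_right hle2 hpos
  -- conclusion
  have hsq : v (4 * (h2 ^ 3 - 27 * h3 ^ 2) * γ) ^ 2 ≤ 1 := by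
    have e : v (4 * (h2 ^ 3 - 27 * h3 ^ 2) * γ) ^ 2 =
        v (4 * γ) ^ 2 * v (h2 ^ 3 - 27 * h3 ^ 2) * v (h2 ^ 3 - 27 * h3 ^ 2) := by
      rw [← map_pow, ← map_pow, ← map_mul, ← map_mul]
      congr 1
      ring
    rw [e]
    calc v (4 * γ) ^ 2 * v (h2 ^ 3 - 27 * h3 ^ 2) * v (h2 ^ 3 - 27 * h3 ^ 2)
        ≤ v (4 * γ) ^ 2 * v (e1 - e3) ^ 2 * 1 :=
          mul_le_mul' (mul_le_mul' le_rfl hDle) hDV
      _ = (v (4 * γ * (e1 - e3))) ^ 2 := by
          rw [mul_one, ← map_pow, ← map_pow, ← map_mul, ← map_pow]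
          congr 1
          ring
      _ ≤ 1 := pow_le_one' hfin 2
  rw [← V.valuation_le_one_iff]
  by_contra hn
  rw [not_le] at hn
  exact absurd hsq (not_le.2 (one_lt_pow₀ hn (by norm_num)))

/-- the roots of `4 X³ - h₂ X - h₃` -/
theorem Int_roots (h2 h3 : ℂ) : ∃ e1 e2 e3 : ℂ, e1 + e2 + e3 = 0 ∧
    h2 = -4 * (e1 * e2 + e1 * e3 + e2 * e3) ∧ h3 = 4 * (e1 * e2 * e3) := by
  have hdeg : (C 4 * X ^ 3 - C h2 * X - C h3 : ℂ[X]).degree ≠ 0 := by
    have : (C 4 * X ^ 3 - C h2 * X - C h3 : ℂ[X]).degree = 3 := by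
      compute_degree!
    rw [this]
    norm_num
  obtain ⟨e1, he1⟩ := IsAlgClosed.exists_root _ hdeg
  have h1 : 4 * e1 ^ 3 - h2 * e1 - h3 = 0 := by
    simpa [IsRoot.def] using he1
  have hdeg2 : (C 4 * X ^ 2 + C (4 * e1) * X + C (4 * e1 ^ 2 - h2) : ℂ[X]).degree ≠ 0 := by
    have : (C 4 * X ^ 2 + C (4 * e1) * X + C (4 * e1 ^ 2 - h2) : ℂ[X]).degree = 2 := by
      compute_degree!
    rw [this]
    norm_num
  obtain ⟨e2, he2⟩ := IsAlgClosed.exists_root _ hdeg2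
  have h4 : 4 * e2 ^ 2 + 4 * e1 * e2 + (4 * e1 ^ 2 - h2) = 0 := by
    have := he2
    simp only [IsRoot.def, eval_add, eval_mul, eval_C, eval_pow, eval_X] at this
    exact this
  refine ⟨e1, e2, -e1 - e2, by ring, by linear_combination -h4, ?_⟩
  linear_combination -h1 + e1 * h4

theorem Sol.isIntegral' {A B : ℂ[X]} {g2 g3 h2 h3 γ : ℂ} (h : Sol A B g2 g3 h2 h3 γ)
    (i2 : IsIntegral ℤ g2) (i3 : IsIntegral ℤ g3) (j2 : IsIntegral ℤ h2) (j3 : IsIntegral ℤ h3) :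
    IsIntegral ℤ (4 * (h2 ^ 3 - 27 * h3 ^ 2) * γ) := by
  refine isIntegral_of_forall_valuation fun V => ?_
  obtain ⟨e1, e2, e3, s1, s2, s3⟩ := Int_roots h2 h3
  obtain ⟨t, ht, hgen⟩ := exists_generic V {B, A - C e1 * B, A - C e2 * B, A - C e3 * B}
  have gB := hgen B (by simp)
  have g1 := hgen (A - C e1 * B) (by simp)
  have g2' := hgen (A - C e2 * B) (by simp)
  have g3' := hgen (A - C e3 * B) (by simp)
  have hne : ∀ e : ℂ, A - C e * B ≠ 0 := by
    intro e h0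
    apply h.wron_ne
    have hA : A = C e * B := by linear_combination h0
    rw [hA, derivative_mul, derivative_C]
    ring
  have hwr : ∀ e : ℂ, derivative (A - C e * B) * B - (A - C e * B) * derivative B =
      derivative A * B - A * derivative B := by
    intro e
    rw [derivative_sub, derivative_mul, derivative_C]
    ring
  have hev : ∀ e : ℂ, (A - C e * B).eval t = A.eval t - e * B.eval t := fun e => by simp
  have hb : B.eval t ≠ 0 := Int_ne V h.den_ne gB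
  have w1 := Int_wron_le V ht g1 gB
  have w2 := Int_wron_le V ht g2' gB
  have w3 := Int_wron_le V ht g3' gB
  have n1 := Int_ne V (hne e1) g1
  have n2 := Int_ne V (hne e2) g2'
  have n3 := Int_ne V (hne e3) g3'
  rw [hwr, hev] at w1 w2 w3
  rw [hev] at n1 n2 n3
  have hode : (4 * t ^ 3 - g2 * t - g3) *
      ((derivative A * B - A * derivative B).eval t) ^ 2 =
      γ * B.eval t * (4 * (A.eval t) ^ 3 - h2 * A.eval t * (B.eval t) ^ 2
        - h3 * (B.eval t) ^ 3) := by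
    have := congrArg (Polynomial.eval t) h.ode
    simpa using this
  have hF : V.valuation (4 * t ^ 3 - g2 * t - g3) ≤ 1 := by
    refine (V.valuation_le_one_iff _).2 (sub_mem (sub_mem (mul_mem ?_
      (pow_mem ht 3)) (mul_mem (Int_mem V i2) ht)) (Int_mem V i3))
    exact_mod_cast intCast_mem V 4
  have k2 := Int_mem V j2
  have k3 := Int_mem V j3
  rcases le_total (V.valuation (A.eval t - e1 * B.eval t))
    (V.valuation (A.eval t - e2 * B.eval t)) with h12 | h12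
  · rcases le_total (V.valuation (A.eval t - e1 * B.eval t))
      (V.valuation (A.eval t - e3 * B.eval t)) with h13 | h13
    · exact Int_core V k2 k3 s1 s2 s3 hF hode hb n1 w1 h12 h13
    · exact Int_core V (e1 := e3) (e2 := e1) (e3 := e2) k2 k3 (by linear_combination s1)
        (by rw [s2]; ring) (by rw [s3]; ring) hF hode hb n3 w3 h13 (h13.trans h12)
  · rcases le_total (V.valuation (A.eval t - e2 * B.eval t))
      (V.valuation (A.eval t - e3 * B.eval t)) with h23 | h23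
    · exact Int_core V (e1 := e2) (e2 := e1) (e3 := e3) k2 k3 (by linear_combination s1)
        (by rw [s2]; ring) (by rw [s3]; ring) hF hode hb n2 w2 h12 h23
    · exact Int_core V (e1 := e3) (e2 := e1) (e3 := e2) k2 k3 (by linear_combination s1)
        (by rw [s2]; ring) (by rw [s3]; ring) hF hode hb n3 w3 (h23.trans h12) h23

theorem Sol.isIntegral {A B : ℂ[X]} {g2 g3 h2 h3 γ : ℂ} (h : Sol A B g2 g3 h2 h3 γ)
    (i2 : IsIntegral ℤ g2) (i3 : IsIntegral ℤ g3) (j2 : IsIntegral ℤ h2) (j3 : IsIntegral ℤ h3)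
    (hΔ : h2 ^ 3 - 27 * h3 ^ 2 ≠ 0) : IsIntegral ℤ (2 ^ 7 * (h2 ^ 3 - 27 * h3 ^ 2) ^ 3 * γ) := by
  have h1 := h.isIntegral' i2 i3 j2 j3
  have h27 : IsIntegral ℤ (27 : ℂ) := by exact_mod_cast isIntegral_algebraMap (R := ℤ) (A := ℂ) (x := 27)
  have h32 : IsIntegral ℤ (32 : ℂ) := by exact_mod_cast isIntegral_algebraMap (R := ℤ) (A := ℂ) (x := 32)
  have hD : IsIntegral ℤ (h2 ^ 3 - 27 * h3 ^ 2) := (j2.pow 3).sub (h27.mul (j3.pow 2))
  have e : 2 ^ 7 * (h2 ^ 3 - 27 * h3 ^ 2) ^ 3 * γ =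
      32 * (h2 ^ 3 - 27 * h3 ^ 2) ^ 2 * (4 * (h2 ^ 3 - 27 * h3 ^ 2) * γ) := by ring
  rw [e]
  exact (h32.mul (hD.pow 2)).mul h1

end Pool.Agent.LGO
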