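import Pool.Agent.LGO.Mul.Lat2
import Pool.Agent.LGO.Mul.Int
import Pool.Agent.LGO.Mul.Ex
import Pool.Agent.AHC.Gal

/-!
# LGO/Mul: the square of the multiplier lies in the field of definition

PROOF of `Sol.map`: apply the automorphism `σ` to the coefficients (`Polynomial.map σ`); `derivative_map`.
PROOF of `mul_rat`: `β' β⁻¹` maps `Λ' = ℤ a' + ℤ b'` into itself after multiplication by `N`:
`N Λ' ⊆ β Λ` (`hm'`), so `N β' β⁻¹ Λ' ⊆ β' Λ ⊆ Λ'` and a number `ρ` with `ρ Λ' ⊆ Λ'`, `Λ' = w' (ℤ + ℤ τ')`,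
`τ'` not quadratic over `ℚ`, is an integer (`ρ = p + q τ'`, `ρ τ' = r + s τ'`: `q τ'² + (p - s) τ' - r = 0`,
so `q = 0`).
PROOF of `mul_mem`: `γ = β²`. Every `σ : ℂ ≃ₐ[K] ℂ` fixes `g2, g3, h2, h3 ∈ K`, so `Sol.map` gives a
solution with `σ γ`; `β'² = σ γ`, `Sol.latMap`, `mul_rat`: `σ γ = r² γ` with `r ∈ ℚ`, `r ≠ 0`. So
`σ^k γ = r^(2k) γ`. `γ` is algebraic (`Sol.isIntegral` after scaling: the `g`'s, `h`'s are algebraic; choose a
positive integer `n` with `n g2, n g3, n h2, n h3` integral and scale both lattices by `1/n`: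
`G2_smul`, `G3_smul`; or use `Sol.isIntegral` for `Sol A₁ B₁` with scaled variables; the multiplier does not
change), so its orbit under the powers of `σ` is finite, `r^(2k) = 1` for some `k > 0`, `r² = 1`, `σ γ = γ`. An
element of `ℂ`, algebraic over `ℚ`, fixed by all `σ : ℂ ≃ₐ[K] ℂ`, lies in `K` (two roots of the minimal
polynomial over `K` are conjugate by an automorphism of `ℂ` over `K`, `ℂ` being algebraically closed:
`minpoly.. exists_algEquiv..`, `IsAlgClosed` + `IsTranscendenceBasis`; the library has such lemmas in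
`Pool/Agent/AHC/Abs.lean`, `galois_closed`/`fix_subfield`).
-/

namespace Pool.Agent.LGO

open Polynomial Pool.Agent.EllSch

theorem Sol.map {A B : ℂ[X]} {g2 g3 h2 h3 γ : ℂ} (h : Sol A B g2 g3 h2 h3 γ) (σ : ℂ ≃+* ℂ) :
    Sol (A.map (σ : ℂ →+* ℂ)) (B.map (σ : ℂ →+* ℂ)) (σ g2) (σ g3) (σ h2) (σ h3) (σ γ) := by
  have hi : Function.Injective (σ : ℂ →+* ℂ) := σ.injective
  refine ⟨?_, ?_, ?_, ?_⟩
  · exact (Polynomial.map_ne_zero_iff hi).2 h.den_ne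
  · exact (map_ne_zero_iff σ σ.injective).2 h.mul_ne
  · rw [derivative_map, derivative_map, ← Polynomial.map_mul, ← Polynomial.map_mul,
      ← Polynomial.map_sub]
    exact (Polynomial.map_ne_zero_iff hi).2 h.wron_ne
  · have h1 := congrArg (Polynomial.map (σ : ℂ →+* ℂ)) h.ode
    simp only [Polynomial.map_mul, Polynomial.map_sub, Polynomial.map_pow, map_X, map_C,
      Polynomial.map_ofNat, ← derivative_map] at h1
    exact h1

theorem mul_rat {a b w' τ' β β' : ℂ} (hτ' : NonCM τ') (hw' : w' ≠ 0) (hβ : β ≠ 0) {N : ℕ}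
    (hN : 0 < N) (hm' : ∀ y : ℤ × ℤ, ∃ x : ℤ × ℤ, (N : ℂ) * lat w' (w' * τ') y = β * lat a b x)
    (h1 : LatMap β' a b w' (w' * τ')) : ∃ r : ℚ, β' = r * β := by
  have hN' : (N : ℂ) ≠ 0 := Nat.cast_ne_zero.2 hN.ne'
  have key : ∀ y : ℤ × ℤ, ∃ z : ℤ × ℤ,
      (N : ℂ) * (β' / β) * lat w' (w' * τ') y = lat w' (w' * τ') z := by
    intro y
    obtain ⟨x, hx⟩ := hm' y
    obtain ⟨z, hz⟩ := h1 x
    refine ⟨z, ?_⟩
    have e : (N : ℂ) * (β' / β) * lat w' (w' * τ') y =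
        (β' / β) * ((N : ℂ) * lat w' (w' * τ') y) := by ring
    rw [e, hx, ← hz]
    field_simp
  obtain ⟨⟨p, q⟩, e1⟩ := key (1, 0)
  obtain ⟨⟨r, s⟩, e2⟩ := key (0, 1)
  simp only [lat, Int.cast_one, Int.cast_zero, one_mul, zero_mul, add_zero, zero_add] at e1 e2
  have f1 : (N : ℂ) * (β' / β) = p + q * τ' := by
    apply mul_right_cancel₀ hw'
    rw [e1]
    ring
  have f2 : (N : ℂ) * (β' / β) * τ' = r + s * τ' := by
    apply mul_right_cancel₀ hw'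
    linear_combination e2
  have f3 : ((q : ℤ) : ℂ) * τ' ^ 2 + ((p - s : ℤ) : ℂ) * τ' + ((-r : ℤ) : ℂ) = 0 := by
    push_cast
    rw [f1] at f2
    linear_combination f2
  have hq := (hτ' q (p - s) (-r) f3).1
  rw [hq] at f1
  refine ⟨(p : ℚ) / N, ?_⟩
  have f4 : β' / β = p / N := by
    rw [eq_div_iff hN']
    rw [Int.cast_zero, zero_mul, add_zero] at f1
    rw [mul_comm]
    exact f1
  have f5 : β' = (β' / β) * β := by field_simp
  rw [f5, f4]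
  push_cast
  ring

private theorem Gal_lat_smul (c a b : ℂ) (x : ℤ × ℤ) : lat (c * a) (c * b) x = c * lat a b x := by
  simp only [lat]
  ring

private theorem Gal_den {x : ℂ} (hx : IsAlgebraic ℚ x) :
    ∃ n : ℕ, 0 < n ∧ IsIntegral ℤ ((n : ℂ) * x) := by
  have hx' : IsAlgebraic ℤ x := (IsFractionRing.isAlgebraic_iff ℤ ℚ ℂ).2 hx
  obtain ⟨y, hy, h⟩ := hx'.exists_integral_multiple
  refine ⟨y.natAbs, Int.natAbs_pos.2 hy, ?_⟩
  rw [zsmul_eq_mul] at h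
  rcases Int.natAbs_eq y with e | e
  · rw [e, Int.cast_natCast] at h
    exact h
  · rw [e, Int.cast_neg, Int.cast_natCast, neg_mul] at h
    have := h.neg
    rwa [neg_neg] at this

private theorem Gal_den4 {x y z t : ℂ} (hx : IsAlgebraic ℚ x) (hy : IsAlgebraic ℚ y)
    (hz : IsAlgebraic ℚ z) (ht : IsAlgebraic ℚ t) : ∃ n : ℕ, 0 < n ∧ IsIntegral ℤ ((n : ℂ) * x) ∧
      IsIntegral ℤ ((n : ℂ) * y) ∧ IsIntegral ℤ ((n : ℂ) * z) ∧ IsIntegral ℤ ((n : ℂ) * t) := by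
  obtain ⟨n1, p1, i1⟩ := Gal_den hx
  obtain ⟨n2, p2, i2⟩ := Gal_den hy
  obtain ⟨n3, p3, i3⟩ := Gal_den hz
  obtain ⟨n4, p4, i4⟩ := Gal_den ht
  have hn : ∀ n : ℕ, IsIntegral ℤ (n : ℂ) := fun n => by
    have := isIntegral_algebraMap (R := ℤ) (A := ℂ) (x := (n : ℤ))
    simpa using this
  refine ⟨n1 * n2 * n3 * n4, by positivity, ?_, ?_, ?_, ?_⟩
  · have e : ((n1 * n2 * n3 * n4 : ℕ) : ℂ) * x = (n2 : ℂ) * (n3 : ℂ) * (n4 : ℂ) * ((n1 : ℂ) * x) := by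
      push_cast
      ring
    rw [e]
    exact (((hn n2).mul (hn n3)).mul (hn n4)).mul i1
  · have e : ((n1 * n2 * n3 * n4 : ℕ) : ℂ) * y = (n1 : ℂ) * (n3 : ℂ) * (n4 : ℂ) * ((n2 : ℂ) * y) := by
      push_cast
      ring
    rw [e]
    exact (((hn n1).mul (hn n3)).mul (hn n4)).mul i2
  · have e : ((n1 * n2 * n3 * n4 : ℕ) : ℂ) * z = (n1 : ℂ) * (n2 : ℂ) * (n4 : ℂ) * ((n3 : ℂ) * z) := by
      push_cast
      ring
    rw [e]
    exact (((hn n1).mul (hn n2)).mul (hn n4)).mul i3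
  · have e : ((n1 * n2 * n3 * n4 : ℕ) : ℂ) * t = (n1 : ℂ) * (n2 : ℂ) * (n3 : ℂ) * ((n4 : ℂ) * t) := by
      push_cast
      ring
    rw [e]
    exact (((hn n1).mul (hn n2)).mul (hn n3)).mul i4

private theorem Gal_ind {a b c : ℂ} (h : Ind a b) {n : ℕ} (hn : 0 < n) (hc : c = 1 / (n : ℂ)) :
    Ind (c * a) (c * b) := by
  have hc' : c = (((1 / (n : ℝ)) : ℝ) : ℂ) := by
    rw [hc]
    push_cast
    rfl
  unfold Ind at h ⊢
  rw [hc', Complex.re_ofReal_mul, Complex.im_ofReal_mul, Complex.re_ofReal_mul,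
    Complex.im_ofReal_mul]
  have hn' : (1 / (n : ℝ)) ≠ 0 := one_div_ne_zero (Nat.cast_ne_zero.2 hn.ne')
  have e : 1 / (n : ℝ) * a.re * (1 / (n : ℝ) * b.im) - 1 / (n : ℝ) * a.im * (1 / (n : ℝ) * b.re) =
      (1 / (n : ℝ)) ^ 2 * (a.re * b.im - a.im * b.re) := by ring
  rw [e]
  exact mul_ne_zero (pow_ne_zero 2 hn') h

/-- the square of the multiplier is algebraic -/
private theorem Gal_alg {a b a' b' β : ℂ} (h : Ind a b) (h' : Ind a' b') (hβ : β ≠ 0) {N : ℕ}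
    (hN : 0 < N) (hm : LatMap β a b a' b')
    (hm' : ∀ y : ℤ × ℤ, ∃ x : ℤ × ℤ, (N : ℂ) * lat a' b' y = β * lat a b x)
    (k2 : IsAlgebraic ℚ (G2 a b)) (k3 : IsAlgebraic ℚ (G3 a b))
    (l2 : IsAlgebraic ℚ (G2 a' b')) (l3 : IsAlgebraic ℚ (G3 a' b')) : IsAlgebraic ℚ (β ^ 2) := by
  obtain ⟨n, hn, i2, i3, j2, j3⟩ := Gal_den4 k2 k3 l2 l3
  have hn' : (n : ℂ) ≠ 0 := Nat.cast_ne_zero.2 hn.ne'
  have hc : (1 / (n : ℂ)) ≠ 0 := one_div_ne_zero hn'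
  have I1 := Gal_ind h hn rfl
  have I2 := Gal_ind h' hn rfl
  have hm1 : LatMap β (1 / (n : ℂ) * a) (1 / (n : ℂ) * b) (1 / (n : ℂ) * a') (1 / (n : ℂ) * b') := by
    intro x
    obtain ⟨y, hy⟩ := hm x
    refine ⟨y, ?_⟩
    rw [Gal_lat_smul, Gal_lat_smul, ← hy]
    ring
  have hm2 : ∀ y : ℤ × ℤ, ∃ x : ℤ × ℤ, (N : ℂ) * lat (1 / (n : ℂ) * a') (1 / (n : ℂ) * b') y =
      β * lat (1 / (n : ℂ) * a) (1 / (n : ℂ) * b) x := by
    intro y
    obtain ⟨x, hx⟩ := hm' y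
    refine ⟨x, ?_⟩
    rw [Gal_lat_smul, Gal_lat_smul]
    linear_combination (1 / (n : ℂ)) * hx
  obtain ⟨A, B, hS, -, -⟩ := exists_sol I1 I2 hβ hN hm1 hm2
  have hint : ∀ {z : ℂ} (k : ℕ), IsIntegral ℤ ((n : ℂ) * z) → 1 ≤ k →
      IsIntegral ℤ (z / (1 / (n : ℂ)) ^ k) := by
    intro z k hz hk
    have hnn : IsIntegral ℤ (n : ℂ) := by
      have := isIntegral_algebraMap (R := ℤ) (A := ℂ) (x := (n : ℤ))
      simpa using this
    have e : z / (1 / (n : ℂ)) ^ k = (n : ℂ) ^ (k - 1) * ((n : ℂ) * z) := by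
      rw [← mul_assoc, ← pow_succ, Nat.sub_add_cancel hk, one_div, inv_pow, div_inv_eq_mul,
        mul_comm]
    rw [e]
    exact (hnn.pow _).mul hz
  have hD := disc_ne_zero I2
  have r2 : IsIntegral ℤ (G2 (1 / (n : ℂ) * a) (1 / (n : ℂ) * b)) := by
    rw [G2_smul hc]
    exact hint 4 i2 (by norm_num)
  have r3 : IsIntegral ℤ (G3 (1 / (n : ℂ) * a) (1 / (n : ℂ) * b)) := by
    rw [G3_smul hc]
    exact hint 6 i3 (by norm_num)
  have s2 : IsIntegral ℤ (G2 (1 / (n : ℂ) * a') (1 / (n : ℂ) * b')) := by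
    rw [G2_smul hc]
    exact hint 4 j2 (by norm_num)
  have s3 : IsIntegral ℤ (G3 (1 / (n : ℂ) * a') (1 / (n : ℂ) * b')) := by
    rw [G3_smul hc]
    exact hint 6 j3 (by norm_num)
  have fin := hS.isIntegral r2 r3 s2 s3 hD
  have toAlg : ∀ {z : ℂ}, IsIntegral ℤ z → IsAlgebraic ℚ z := fun hz =>
    (IsFractionRing.isAlgebraic_iff ℤ ℚ ℂ).1 hz.isAlgebraic
  have hDa : IsAlgebraic ℚ (2 ^ 7 * (G2 (1 / (n : ℂ) * a') (1 / (n : ℂ) * b') ^ 3 -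
      27 * G3 (1 / (n : ℂ) * a') (1 / (n : ℂ) * b') ^ 2) ^ 3) := by
    have c1 : IsAlgebraic ℚ (2 : ℂ) := by
      have := isAlgebraic_algebraMap (R := ℚ) (A := ℂ) (2 : ℚ)
      simpa using this
    have c2 : IsAlgebraic ℚ (27 : ℂ) := by
      have := isAlgebraic_algebraMap (R := ℚ) (A := ℂ) (27 : ℚ)
      simpa using this
    exact (c1.pow 7).mul ((((toAlg s2).pow 3).sub (c2.mul ((toAlg s3).pow 2))).pow 3)
  have hne : (2 ^ 7 * (G2 (1 / (n : ℂ) * a') (1 / (n : ℂ) * b') ^ 3 -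
      27 * G3 (1 / (n : ℂ) * a') (1 / (n : ℂ) * b') ^ 2) ^ 3) ≠ 0 :=
    mul_ne_zero (by norm_num) (pow_ne_zero 3 hD)
  have e : β ^ 2 = (2 ^ 7 * (G2 (1 / (n : ℂ) * a') (1 / (n : ℂ) * b') ^ 3 -
      27 * G3 (1 / (n : ℂ) * a') (1 / (n : ℂ) * b') ^ 2) ^ 3)⁻¹ *
      ((2 ^ 7 * (G2 (1 / (n : ℂ) * a') (1 / (n : ℂ) * b') ^ 3 -
      27 * G3 (1 / (n : ℂ) * a') (1 / (n : ℂ) * b') ^ 2) ^ 3) * β ^ 2) := by
    rw [← mul_assoc, inv_mul_cancel₀ hne, one_mul]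
  rw [e]
  exact hDa.inv.mul (toAlg fin)

/-- an automorphism which multiplies an algebraic number by the square of a rational number
fixes it -/
private theorem Gal_orbit {γ : ℂ} (hγ : IsAlgebraic ℚ γ) (h0 : γ ≠ 0) (σ : ℂ ≃+* ℂ) {r : ℚ}
    (h : σ γ = (r : ℂ) ^ 2 * γ) : σ γ = γ := by
  have hr : (r : ℂ) ≠ 0 := by
    intro hr
    rw [hr] at h
    have h1 : σ γ = 0 := by
      rw [h]
      ring
    exact h0 ((map_eq_zero_iff σ σ.injective).1 h1)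
  have hp : minpoly ℚ γ ≠ 0 := minpoly.ne_zero hγ.isIntegral
  have hroot : ∀ k : ℕ, ((r : ℂ) ^ 2) ^ k * γ ∈ (minpoly ℚ γ).rootSet ℂ := by
    intro k
    induction k with
    | zero =>
      rw [pow_zero, one_mul, Polynomial.mem_rootSet]
      exact ⟨hp, minpoly.aeval ℚ γ⟩
    | succ k ih =>
      rw [Polynomial.mem_rootSet] at ih ⊢
      refine ⟨hp, ?_⟩
      have e : ((r : ℂ) ^ 2) ^ (k + 1) * γ = σ (((r : ℂ) ^ 2) ^ k * γ) := by
        rw [map_mul, map_pow, map_pow, map_ratCast, h]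
        ring
      rw [e]
      have h2 := ih.2
      rw [Polynomial.aeval_def, Polynomial.eval₂_eq_sum_range] at h2 ⊢
      have h3 := congrArg σ h2
      rw [map_sum, map_zero] at h3
      rw [← h3]
      refine Finset.sum_congr rfl fun i _ => ?_
      have e5 : ∀ (c : ℚ) (x : ℂ), σ ((algebraMap ℚ ℂ) c * x ^ i) =
          (algebraMap ℚ ℂ) c * (σ x) ^ i := by
        intro c x
        rw [map_mul, map_pow, eq_ratCast, map_ratCast]
      rw [e5]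
  have hfin : Finite ((minpoly ℚ γ).rootSet ℂ) := (Polynomial.rootSet_finite _ _).to_subtype
  obtain ⟨i, j, hij, he⟩ := Finite.exists_ne_map_eq_of_infinite
    (fun k : ℕ => (⟨((r : ℂ) ^ 2) ^ k * γ, hroot k⟩ : (minpoly ℚ γ).rootSet ℂ))
  have he' : ((r : ℂ) ^ 2) ^ i * γ = ((r : ℂ) ^ 2) ^ j * γ := congrArg Subtype.val he
  have he2 : ((r : ℂ) ^ 2) ^ i = ((r : ℂ) ^ 2) ^ j := mul_right_cancel₀ h0 he'
  have he3 : (r ^ 2) ^ i = (r ^ 2) ^ j := by exact_mod_cast he2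
  have hr' : r ≠ 0 := by exact_mod_cast hr
  have hpos : 0 < r ^ 2 := by positivity
  have h1 : r ^ 2 = 1 := by
    by_contra hne
    exact hij (pow_right_injective₀ hpos hne he3)
  have h1' : (r : ℂ) ^ 2 = 1 := by exact_mod_cast h1
  rw [h, h1', one_mul]

theorem mul_mem (K : IntermediateField ℚ ℂ) [FiniteDimensional ℚ K] {a b w' τ' β : ℂ}
    (h : Ind a b) (h' : Ind w' (w' * τ')) (hτ' : NonCM τ') (hw' : w' ≠ 0) (hβ : β ≠ 0) {N : ℕ}
    (hN : 0 < N) (hm : LatMap β a b w' (w' * τ'))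
    (hm' : ∀ y : ℤ × ℤ, ∃ x : ℤ × ℤ, (N : ℂ) * lat w' (w' * τ') y = β * lat a b x)
    (k2 : G2 a b ∈ K) (k3 : G3 a b ∈ K) (l2 : G2 w' (w' * τ') ∈ K) (l3 : G3 w' (w' * τ') ∈ K) :
    β ^ 2 ∈ K := by
  have hKalg : ∀ z ∈ K, IsAlgebraic ℚ z := by
    intro z hz
    have h1 : IsAlgebraic ℚ (⟨z, hz⟩ : K) := Algebra.IsAlgebraic.isAlgebraic _
    exact (isAlgebraic_algebraMap_iff (algebraMap K ℂ).injective).2 h1
  have halg := Gal_alg h h' hβ hN hm hm' (hKalg _ k2) (hKalg _ k3) (hKalg _ l2) (hKalg _ l3)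
  obtain ⟨A, B, hS, -, -⟩ := exists_sol h h' hβ hN hm hm'
  by_contra hK
  obtain ⟨σ, hσ, hne⟩ := AHC.exists_aut_ne K.toSubfield (AHC.mem_cl_empty halg) hK
  apply hne
  have h1 := hS.map σ
  rw [hσ _ k2, hσ _ k3, hσ _ l2, hσ _ l3] at h1
  obtain ⟨β', hβ'⟩ := IsAlgClosed.exists_pow_nat_eq (σ (β ^ 2)) (n := 2) (by norm_num)
  rw [← hβ'] at h1
  obtain ⟨r, hr⟩ := mul_rat hτ' hw' hβ hN hm' (h1.latMap h h')
  refine Gal_orbit halg (pow_ne_zero 2 hβ) σ (r := r) ?_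
  rw [← hβ', hr]
  ring

end Pool.Agent.LGO
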