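import Mathlib
import Pool.Agent.LGO.Defs

/-!
# LGO/Mul: the multiplier of an isogeny (part (4a) of note 2913): definitions
-/

namespace Pool.Agent.LGO

open Polynomial Pool.Agent.EllSch

/-- Multiplication by `β` maps the lattice `ℤ a + ℤ b` into the lattice `ℤ a' + ℤ b'`. -/
def LatMap (β a b a' b' : ℂ) : Prop := ∀ x : ℤ × ℤ, ∃ y : ℤ × ℤ, β * lat a b x = lat a' b' y

/-- The covolume of the lattice `ℤ a + ℤ b`. -/
noncomputable def covol (a b : ℂ) : ℝ := |a.re * b.im - a.im * b.re|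

/-- `S = A / B` is a nonconstant rational function with
`(4 X³ - g₂ X - g₃) S'² = γ (4 S³ - h₂ S - h₃)` and `γ ≠ 0`. -/
structure Sol (A B : ℂ[X]) (g2 g3 h2 h3 γ : ℂ) : Prop where
  den_ne : B ≠ 0
  mul_ne : γ ≠ 0
  wron_ne : derivative A * B - A * derivative B ≠ 0
  ode : (4 * X ^ 3 - C g2 * X - C g3) * (derivative A * B - A * derivative B) ^ 2 =
    C γ * B * (4 * A ^ 3 - C h2 * A * B ^ 2 - C h3 * B ^ 3)

end Pool.Agent.LGO
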