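import Pool.Agent.LGO.Mul.Defs
import Pool.Agent.EllSch.Add
import Pool.Agent.EllSch.Hom
import Pool.Agent.EllSch.RelA

/-!
# LGO/Mul: a rational solution of the differential equation is `℘'(β z + c)`

PROOF. `℘ = wp a b`, `℘' = wp a' b'`, `S = A / B`, `y(z) = S(℘(z))` on the complement `Ω` of a countable set
(the lattice, the points with `B(℘(z)) = 0`; `wp a b` is not constant on any open set, `wq ≠ 0` off the half
periods, `exists_of_wp_eq` shows that each value is taken countably often).
`(y')² = S'(℘)² F_a(℘) = γ F_b(y)`, `γ = β²` (the equation of `Sol` divided by `B⁴`; `wq² = F_a(wp)`).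
Choose `z₀ ∈ Ω` with `y'(z₀) ≠ 0` (the Wronskian is a nonzero polynomial, finitely many zeros). By
`exists_wp_eq` there is `u` off `Λ'` with `wp' u = y(z₀)`, `wq' u = y'(z₀) / β`; put `c = u - β z₀`. Both `y(z)`
and `℘'(β z + c)` solve `y'' = γ (6 y² - h₂/2)` near `z₀` (differentiate the first order equation where
`y' ≠ 0`) with the same initial data, so they agree near `z₀` (`ode_unique` in `EllSch/Basic.lean`), hence on
the complement of a countable closed set, which is preconnected (identity theorem for analytic functions;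
compare `isPreconnected_good`, `const_H` in `EllSch/Add.lean`).
-/

namespace Pool.Agent.LGO

open Polynomial Pool.Agent.EllSch Filter Topology

private theorem Lat_poly {A B : ℂ[X]} {g2 g3 h2 h3 γ : ℂ} (hS : Sol A B g2 g3 h2 h3 γ) :
    2 * (derivative (derivative A * B - A * derivative B) * B
        - 2 * (derivative A * B - A * derivative B) * derivative B)
      * (4 * X ^ 3 - C g2 * X - C g3)
      + (derivative A * B - A * derivative B) * B * (12 * X ^ 2 - C g2)
      = C γ * B * (12 * A ^ 2 - C h2 * B ^ 2) := by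
  have e := hS.ode
  have h4 : derivative (4 : ℂ[X]) = 0 := derivative_ofNat 4
  have c3 : (C (3 : ℂ)) = (3 : ℂ[X]) := map_ofNat C 3
  have c2 : (C (2 : ℂ)) = (2 : ℂ[X]) := map_ofNat C 2
  have hF : derivative (4 * X ^ 3 - C g2 * X - C g3 : ℂ[X]) = 12 * X ^ 2 - C g2 := by
    simp only [derivative_sub, derivative_mul, derivative_X_pow, derivative_C, derivative_X, h4]
    simp [c3]
    ring
  have hG : derivative (4 * A ^ 3 - C h2 * A * B ^ 2 - C h3 * B ^ 3 : ℂ[X]) =
      12 * A ^ 2 * derivative A - C h2 * (derivative A * B ^ 2 + 2 * A * B * derivative B)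
        - 3 * C h3 * B ^ 2 * derivative B := by
    simp only [derivative_sub, derivative_mul, derivative_pow, derivative_C, h4]
    simp [c3, c2]
    ring
  have hd := congrArg derivative e
  rw [derivative_mul, hF, derivative_mul, derivative_mul, hG, derivative_C, derivative_sq, c2] at hd
  apply mul_left_cancel₀ hS.wron_ne
  linear_combination B * hd - 4 * derivative B * e

private theorem Lat_hasDeriv {a b : ℂ} (h : Ind a b) {z : ℂ} (hz : Off a b z) (P : ℂ[X]) :
    HasDerivAt (fun z => P.eval (wp a b z)) ((derivative P).eval (wp a b z) * wq a b z) z :=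
  (P.hasDerivAt (wp a b z)).comp z (hasDerivAt_wp h hz)

/-- The points with a given value of `℘` are countable. -/
private theorem Lat_fibre {a b : ℂ} (h : Ind a b) (r : ℂ) : {z | Off a b z ∧ wp a b z = r}.Countable := by
  by_cases hne : ∃ z, Off a b z ∧ wp a b z = r
  · obtain ⟨z₁, hz₁, hr⟩ := hne
    have c1 : (Set.range fun x : ℤ × ℤ => z₁ + lat a b x).Countable := Set.countable_range _
    have c2 : (Set.range fun x : ℤ × ℤ => -z₁ + lat a b x).Countable := Set.countable_range _
    refine (c1.union c2).mono ?_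
    rintro z ⟨hz, hzr⟩
    have e1 := ode h hz
    have e2 := ode h hz₁
    rw [hzr] at e1
    rw [hr] at e2
    have e3 : wq a b z ^ 2 = wq a b z₁ ^ 2 := by rw [e1, e2]
    rcases sq_eq_sq_iff_eq_or_eq_neg.1 e3 with e4 | e4
    · obtain ⟨x, hx⟩ := exists_lat_of_eq h hz hz₁ (by rw [hzr, hr]) e4
      exact Or.inl ⟨x, hx.symm⟩
    · obtain ⟨x, hx⟩ := exists_lat_of_eq h hz (off_neg.2 hz₁) (by rw [wp_neg h, hzr, hr])
        (by rw [wq_neg h, e4])
      exact Or.inr ⟨x, hx.symm⟩
  · refine Set.countable_empty.mono ?_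
    intro z hz
    exact absurd ⟨z, hz⟩ hne

private theorem Lat_bad {a b : ℂ} (h : Ind a b) {B : ℂ[X]} (hB : B ≠ 0) :
    {z | ¬ (Off a b z ∧ B.eval (wp a b z) ≠ 0)}.Countable := by
  classical
  have c1 : (Set.range fun x : ℤ × ℤ => lat a b x).Countable := Set.countable_range _
  have c2 : (⋃ r ∈ B.roots.toFinset, {z | Off a b z ∧ wp a b z = r}).Countable :=
    Set.Countable.biUnion (Finset.countable_toSet _) fun r _ => Lat_fibre h r
  refine (c1.union c2).mono ?_
  intro z hz
  by_cases ho : Off a b z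
  · right
    have h0 : B.eval (wp a b z) = 0 := by
      by_contra h1
      exact hz ⟨ho, h1⟩
    simp only [Set.mem_iUnion]
    exact ⟨wp a b z, by
      rw [Multiset.mem_toFinset, mem_roots hB]
      exact h0, ho, rfl⟩
  · left
    obtain ⟨x, hx⟩ := Basic.not_off_iff a b z |>.1 ho
    exact ⟨x, hx.symm⟩

/-- The logarithmic form of the two equations for `y = S(℘ z)` and its derivative. -/
private theorem Lat_ode {a b : ℂ} (h : Ind a b) {A B : ℂ[X]} {h2 h3 γ : ℂ}
    (hS : Sol A B (G2 a b) (G3 a b) h2 h3 γ) {z : ℂ} (hz : Off a b z)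
    (hB : B.eval (wp a b z) ≠ 0) :
    HasDerivAt (fun z => A.eval (wp a b z) / B.eval (wp a b z))
      ((derivative A * B - A * derivative B).eval (wp a b z) * wq a b z / B.eval (wp a b z) ^ 2) z ∧
    HasDerivAt (fun z => (derivative A * B - A * derivative B).eval (wp a b z) * wq a b z /
        B.eval (wp a b z) ^ 2)
      (γ * (6 * (A.eval (wp a b z) / B.eval (wp a b z)) ^ 2 - h2 / 2)) z ∧
    ((derivative A * B - A * derivative B).eval (wp a b z) * wq a b z / B.eval (wp a b z) ^ 2) ^ 2 =
      γ * (4 * (A.eval (wp a b z) / B.eval (wp a b z)) ^ 3 - h2 * (A.eval (wp a b z) / B.eval (wp a b z))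
        - h3) := by
  have dA := Lat_hasDeriv h hz A
  have dB := Lat_hasDeriv h hz B
  have dW := Lat_hasDeriv h hz (derivative A * B - A * derivative B)
  have dq := hasDerivAt_wq h hz
  have e := ode h hz
  have e1 := congrArg (eval (wp a b z)) hS.ode
  have e2 := congrArg (eval (wp a b z)) (Lat_poly hS)
  have hWv : (derivative A * B - A * derivative B).eval (wp a b z) =
      (derivative A).eval (wp a b z) * B.eval (wp a b z) - A.eval (wp a b z) * (derivative B).eval (wp a b z) := by
    simp
  have h2v : (2 : ℂ[X]).eval (wp a b z) = 2 := by simp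
  have e1' : (4 * wp a b z ^ 3 - G2 a b * wp a b z - G3 a b) *
      ((derivative A * B - A * derivative B).eval (wp a b z)) ^ 2 =
      γ * B.eval (wp a b z) * (4 * A.eval (wp a b z) ^ 3 - h2 * A.eval (wp a b z) * B.eval (wp a b z) ^ 2
        - h3 * B.eval (wp a b z) ^ 3) := by
    rw [eval_mul, eval_pow] at e1
    rw [show eval (wp a b z) (4 * X ^ 3 - C (G2 a b) * X - C (G3 a b)) =
      4 * wp a b z ^ 3 - G2 a b * wp a b z - G3 a b by simp] at e1
    rw [e1]
    simp
  have e2' : 2 * ((derivative (derivative A * B - A * derivative B)).eval (wp a b z) * B.eval (wp a b z)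
        - 2 * (derivative A * B - A * derivative B).eval (wp a b z) * (derivative B).eval (wp a b z))
      * (4 * wp a b z ^ 3 - G2 a b * wp a b z - G3 a b)
      + (derivative A * B - A * derivative B).eval (wp a b z) * B.eval (wp a b z) *
        (12 * wp a b z ^ 2 - G2 a b)
      = γ * B.eval (wp a b z) * (12 * A.eval (wp a b z) ^ 2 - h2 * B.eval (wp a b z) ^ 2) := by
    rw [eval_add, eval_mul, eval_mul, eval_mul, eval_mul, eval_sub, eval_mul, eval_mul, eval_mul, h2v,
      show eval (wp a b z) (4 * X ^ 3 - C (G2 a b) * X - C (G3 a b)) =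
      4 * wp a b z ^ 3 - G2 a b * wp a b z - G3 a b by simp,
      show eval (wp a b z) (12 * X ^ 2 - C (G2 a b)) = 12 * wp a b z ^ 2 - G2 a b by simp] at e2
    rw [e2]
    simp
  refine ⟨?_, ?_, ?_⟩
  · refine (dA.div dB hB).congr_deriv ?_
    rw [hWv]
    congr 1
    ring
  · refine ((dW.mul dq).div (dB.pow 2) (pow_ne_zero 2 hB)).congr_deriv ?_
    simp only [Nat.cast_ofNat, Nat.add_one_sub_one, pow_one, Pi.pow_apply, Pi.mul_apply]
    clear e1 e2 dW dB dA
    generalize (derivative A * B - A * derivative B).eval (wp a b z) = W at *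
    generalize (derivative (derivative A * B - A * derivative B)).eval (wp a b z) = W' at *
    generalize A.eval (wp a b z) = u at *
    generalize B.eval (wp a b z) = v at *
    generalize (derivative B).eval (wp a b z) = v' at *
    rw [div_eq_iff (pow_ne_zero 2 (pow_ne_zero 2 hB))]
    field_simp
    linear_combination e2' + (2 * v * W' - 4 * W * v') * e
  · rw [div_pow, mul_pow, e, mul_comm, e1']
    field_simp

theorem Sol.key {a b a' b' β : ℂ} (h : Ind a b) (h' : Ind a' b') {A B : ℂ[X]}
    (hS : Sol A B (G2 a b) (G3 a b) (G2 a' b') (G3 a' b') (β ^ 2)) :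
    ∃ (c : ℂ) (Z : Set ℂ), Z.Countable ∧ ∀ z ∉ Z, Off a b z ∧ Off a' b' (β * z + c) ∧
      B.eval (wp a b z) ≠ 0 ∧ wp a' b' (β * z + c) * B.eval (wp a b z) = A.eval (wp a b z) := by
  have hβ : β ≠ 0 := fun h0 => hS.mul_ne (by rw [h0]; ring)
  have cB := Lat_bad h hS.den_ne
  -- a base point
  obtain ⟨z₀, hz₀⟩ : ∃ z₀, Off a b z₀ ∧ B.eval (wp a b z₀) ≠ 0 := by
    obtain ⟨z, hz⟩ := (cB.dense_compl ℝ).nonempty
    exact ⟨z, not_not.1 hz⟩
  set y : ℂ → ℂ := fun z => A.eval (wp a b z) / B.eval (wp a b z) with hy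
  set Y : ℂ → ℂ := fun z => (derivative A * B - A * derivative B).eval (wp a b z) * wq a b z /
    B.eval (wp a b z) ^ 2 with hY
  have key : ∀ z, Off a b z → B.eval (wp a b z) ≠ 0 → HasDerivAt y (Y z) z ∧
      HasDerivAt Y (β ^ 2 * (6 * y z ^ 2 - G2 a' b' / 2)) z ∧
      Y z ^ 2 = β ^ 2 * (4 * y z ^ 3 - G2 a' b' * y z - G3 a' b') :=
    fun z hz hB => Lat_ode h hS hz hB
  have hpt : (Y z₀ / β) ^ 2 = 4 * y z₀ ^ 3 - G2 a' b' * y z₀ - G3 a' b' := by
    rw [div_pow, (key z₀ hz₀.1 hz₀.2).2.2]
    field_simp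
  obtain ⟨u, hu, hu1, hu2⟩ := exists_wp_eq h' hpt
  set c : ℂ := u - β * z₀ with hc
  have hcu : β * z₀ + c = u := by rw [hc]; ring
  -- the open set on which everything is defined
  set U : Set ℂ := {z | (Off a b z ∧ B.eval (wp a b z) ≠ 0) ∧ Off a' b' (β * z + c)} with hU
  have cU : Uᶜ.Countable := by
    have c1 : (Set.range fun x : ℤ × ℤ => (lat a' b' x - c) / β).Countable := Set.countable_range _
    refine (cB.union c1).mono ?_
    intro z hz
    by_cases h1 : Off a b z ∧ B.eval (wp a b z) ≠ 0
    · right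
      have h2 : ¬ Off a' b' (β * z + c) := fun h3 => hz ⟨h1, h3⟩
      obtain ⟨x, hx⟩ := Basic.not_off_iff a' b' _ |>.1 h2
      refine ⟨x, ?_⟩
      simp only
      rw [← hx]
      field_simp
      ring
    · left
      exact h1
  have hUc : IsPreconnected U := by
    have h3 := cU.isConnected_compl_of_one_lt_rank
      (by rw [Complex.rank_real_complex]; norm_num)
    rw [compl_compl] at h3
    exact h3.isPreconnected
  have ho1 : IsOpen {z | Off a b z ∧ B.eval (wp a b z) ≠ 0} := by
    rw [isOpen_iff_mem_nhds]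
    rintro z ⟨hz, hzB⟩
    have hcont : ContinuousAt (fun z => B.eval (wp a b z)) z := (Lat_hasDeriv h hz B).continuousAt
    filter_upwards [(isOpen_off h).mem_nhds hz, hcont.eventually_ne hzB] with w h1 h2
    exact ⟨h1, h2⟩
  have ho2 : IsOpen {z | Off a' b' (β * z + c)} :=
    (isOpen_off h').preimage (f := fun z => β * z + c) (by fun_prop)
  have hUo : IsOpen U := ho1.inter ho2
  have hmem : z₀ ∈ U := by
    refine ⟨hz₀, ?_⟩
    rw [hcu]
    exact hu
  have a1 : AnalyticOnNhd ℂ y U := by
    refine DifferentiableOn.analyticOnNhd (fun z hz => ?_) hUo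
    exact (key z hz.1.1 hz.1.2).1.differentiableAt.differentiableWithinAt
  have a2 : AnalyticOnNhd ℂ (fun z => wp a' b' (β * z + c)) U := by
    refine DifferentiableOn.analyticOnNhd (fun z hz => ?_) hUo
    have h1 : HasDerivAt (fun z : ℂ => β * z + c) β z := by
      simpa using ((hasDerivAt_id z).const_mul β).add_const c
    exact ((hasDerivAt_wp h' hz.2).comp z h1).differentiableAt.differentiableWithinAt
  -- the local statement
  have hloc : y =ᶠ[𝓝 z₀] fun z => wp a' b' (β * z + c) := by
    have hd : ∀ w : ℂ, HasDerivAt (fun w : ℂ => w / β) (1 / β) w := fun w =>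
      (hasDerivAt_id w).div_const β
    have h1 : ∀ᶠ w in 𝓝 (β * z₀), HasDerivAt (fun w => y (w / β)) ((fun w => Y (w / β) / β) w) w ∧
        HasDerivAt (fun w => Y (w / β) / β) (6 * (fun w => y (w / β)) w ^ 2 - G2 a' b' / 2) w := by
      have hcont : ContinuousAt (fun w : ℂ => w / β) (β * z₀) := (hd _).continuousAt
      have hz : β * z₀ / β = z₀ := by field_simp
      have hev : ∀ᶠ w in 𝓝 (β * z₀), Off a b (w / β) ∧ B.eval (wp a b (w / β)) ≠ 0 := by
        refine hcont.eventually_mem (ho1.mem_nhds ?_)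
        change Off a b (β * z₀ / β) ∧ B.eval (wp a b (β * z₀ / β)) ≠ 0
        rw [hz]
        exact hz₀
      filter_upwards [hev] with w hw
      obtain ⟨k1, k2, -⟩ := key _ hw.1 hw.2
      constructor
      · refine (k1.comp w (hd w)).congr_deriv ?_
        ring
      · refine ((k2.comp w (hd w)).div_const β).congr_deriv ?_
        field_simp
    have h2 := Basic.ode_unique (g := G2 a' b') h1 (Basic.ode_wp h' hu)
      (by
        have hz : β * z₀ / β = z₀ := by field_simp
        change y (β * z₀ / β) = wp a' b' u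
        rw [hz]
        exact hu1.symm)
      (by
        have hz : β * z₀ / β = z₀ := by field_simp
        change Y (β * z₀ / β) / β = wq a' b' u
        rw [hz]
        exact hu2.symm)
    have hs : Tendsto (fun z => β * z - β * z₀) (𝓝 z₀) (𝓝 0) := by
      have : Continuous (fun z : ℂ => β * z - β * z₀) := by fun_prop
      have := this.tendsto z₀
      rwa [sub_self] at this
    filter_upwards [hs.eventually h2] with z hz
    have e1 : (β * z₀ + (β * z - β * z₀)) / β = z := by field_simp; ring
    have e2 : u + (β * z - β * z₀) = β * z + c := by rw [hc]; ring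
    simp only [e1, e2] at hz
    exact hz
  have hEq := a1.eqOn_of_preconnected_of_eventuallyEq a2 hUc hmem hloc
  refine ⟨c, Uᶜ, cU, fun z hz => ?_⟩
  have hz' : z ∈ U := not_not.1 hz
  refine ⟨hz'.1.1, hz'.2, hz'.1.2, ?_⟩
  have h1 : A.eval (wp a b z) / B.eval (wp a b z) = wp a' b' (β * z + c) := hEq hz'
  rw [← h1]
  exact div_mul_cancel₀ _ hz'.1.2

end Pool.Agent.LGO
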