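import Pool.Agent.LGO.Mul.Lat

/-!
# LGO/Mul: the map of lattices and its index

PROOF of `Sol.latMap`. `β ≠ 0` (`mul_ne`). With `c, Z` from `Sol.key`: for `λ = lat a b x` and all `z` outside
the countable set `Z ∪ (Z - λ)`: `℘'(β z + c + β λ) = ℘'(β z + c)` (`wp a b (z + λ) = wp a b z`), so by
`exists_of_wp_eq` (EllSch/Hom) / `exists_lat_of_eq`: `β z + c + β λ = ±(β z + c) + (element of Λ')`. The minus
sign is possible for countably many `z` only (`2 (β z + c) + β λ ∈ Λ'`), `ℂ` is uncountable: `β λ ∈ Λ'`.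
PROOF of `Sol.covol_le`. By `latMap` there is an integral matrix `(p q; r s)` with `β a = p a' + q b'`,
`β b = r a' + s b'`, `n = |p s - q r|`: `|β|² covol a b = n covol a' b'` (determinants), `n ≥ 1` since both
covolumes and `β` are nonzero. `n ≤ d = max(deg A, deg B)`: the group `ℤ²/(matrix) ℤ²` has order `n`
(`Int.natAbs_det_..` index of the range of a `2 × 2` matrix; or take the Smith/Hermite form), choose
representatives `λ'_i ∈ Λ'`, `1 ≤ i ≤ n`. For `u` outside a countable set put `z_i = β⁻¹(u - c + λ'_i)`: all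
`z_i ∉ Z`, so `x_i = wp a b z_i` is a root of `A - (℘' u) B`; the `x_i` are pairwise distinct: `x_i = x_j` gives
`z_i ∓ z_j ∈ Λ`; minus: `λ'_i - λ'_j ∈ β Λ`, `i = j`; plus: `2 u - 2 c + λ'_i + λ'_j ∈ β Λ`, countably many `u`.
`A - (℘' u) B ≠ 0` for all but countably many `u` (else `A = v B` for two values `v`: `B = 0`). Its degree
is at most `d` (`Polynomial.card_roots'`).
-/

namespace Pool.Agent.LGO

open Polynomial Pool.Agent.EllSch

/-- Representatives of `ℤ²` modulo the rows of an integral matrix. -/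
private theorem Lat2_reps {p q r s : ℤ} (hd : p * s - q * r ≠ 0) :
    ∃ T : Finset (ℤ × ℤ), T.card = (p * s - q * r).natAbs ∧
      ∀ x ∈ T, ∀ y ∈ T, (∃ m n : ℤ, x.1 - y.1 = m * p + n * r ∧ x.2 - y.2 = m * q + n * s) → x = y := by
  have hg : 0 < Int.gcd p r := by
    rw [Int.gcd_pos_iff]
    by_contra h0
    push Not at h0
    exact hd (by rw [h0.1, h0.2]; ring)
  obtain ⟨p', r', hc, hp, hr⟩ := Int.exists_gcd_one hg
  set g : ℤ := (Int.gcd p r : ℤ) with hgdef
  have hg' : 0 < g := by rw [hgdef]; exact_mod_cast hg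
  set e : ℤ := p' * s - q * r' with he
  have hde : p * s - q * r = g * e := by rw [he]; linear_combination s * hp - q * hr
  have he0 : e ≠ 0 := by
    intro h0
    exact hd (by rw [hde, h0, mul_zero])
  refine ⟨Finset.Ico 0 g ×ˢ Finset.Ico 0 |e|, ?_, ?_⟩
  · rw [Finset.card_product, Int.card_Ico, Int.card_Ico, hde, Int.natAbs_mul]
    have h1 : (g - 0).toNat = g.natAbs := by omega
    have h2 : (|e| - 0).toNat = e.natAbs := by rw [Int.abs_eq_natAbs, sub_zero, Int.toNat_natCast]
    rw [h1, h2]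
  · rintro ⟨x1, x2⟩ hx ⟨y1, y2⟩ hy ⟨m, n, e1, e2⟩
    simp only [Finset.mem_product, Finset.mem_Ico] at hx hy
    simp only at e1 e2
    obtain ⟨u, v, huv⟩ : IsCoprime p' r' := Int.isCoprime_iff_gcd_eq_one.2 hc
    have e3 : x1 - y1 = g * (m * p' + n * r') := by
      rw [e1]; linear_combination m * hp + n * hr
    have e4 : m * p' + n * r' = 0 := by
      have h1 : |g * (m * p' + n * r')| < g := by
        rw [← e3, abs_lt]
        constructor <;> omega
      rw [abs_mul, abs_of_pos hg'] at h1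
      have h2 : |m * p' + n * r'| < 1 := by
        by_contra h3
        push Not at h3
        nlinarith
      exact Int.abs_lt_one_iff.1 h2
    have e5 : n = (u * n - v * m) * p' := by linear_combination (-n) * huv + v * e4
    have e6 : m = -(u * n - v * m) * r' := by linear_combination (-m) * huv + u * e4
    have e7 : x2 - y2 = e * (u * n - v * m) := by
      rw [e2, he]
      linear_combination q * e6 + s * e5
    have e8 : u * n - v * m = 0 := by
      have h1 : |e * (u * n - v * m)| < |e| := by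
        rw [← e7, abs_lt]
        constructor <;> omega
      rw [abs_mul] at h1
      have h2 : |u * n - v * m| < 1 := by
        by_contra h3
        push Not at h3
        have := abs_pos.2 he0
        nlinarith
      exact Int.abs_lt_one_iff.1 h2
    rw [e4, mul_zero] at e3
    rw [e8, mul_zero] at e7
    ext
    · simp only; omega
    · simp only; omega

theorem Sol.latMap {a b a' b' β : ℂ} (h : Ind a b) (h' : Ind a' b') {A B : ℂ[X]}
    (hS : Sol A B (G2 a b) (G3 a b) (G2 a' b') (G3 a' b') (β ^ 2)) : LatMap β a b a' b' := by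
  obtain ⟨c, Z, hZ, key⟩ := hS.key h h'
  have hβ : β ≠ 0 := fun h0 => hS.mul_ne (by rw [h0]; ring)
  intro x
  have c1 : (Set.range fun y : ℤ × ℤ =>
      (lat a' b' y - 2 * c - β * lat a b x) / (2 * β)).Countable := Set.countable_range _
  have c2 : ((fun z => z - lat a b x) '' Z).Countable := hZ.image _
  obtain ⟨z, hz⟩ := (((hZ.union c2).union c1).dense_compl ℝ).nonempty
  have h1 : z ∉ Z := fun hh => hz (Or.inl (Or.inl hh))
  have h2 : z + lat a b x ∉ Z := fun hh => hz (Or.inl (Or.inr ⟨_, hh, by ring⟩))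
  have h3 : Off a' b' ((β * (z + lat a b x) + c) + (β * z + c)) := by
    intro y hy
    refine hz (Or.inr ⟨y, ?_⟩)
    simp only
    rw [div_eq_iff (mul_ne_zero two_ne_zero hβ)]
    linear_combination -hy
  obtain ⟨o1, o2, n1, e1⟩ := key z h1
  obtain ⟨p1, p2, m1, f1⟩ := key _ h2
  rw [wp_add_lat h] at m1 f1
  have h4 : wp a' b' (β * (z + lat a b x) + c) = wp a' b' (β * z + c) :=
    mul_right_cancel₀ n1 (f1.trans e1.symm)
  obtain ⟨y, hy⟩ := Hom.exists_of_wp_eq h' p2 o2 h3 h4
  exact ⟨y, by linear_combination hy⟩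

/-- The number of representatives is at most the degree. -/
private theorem Lat2_card {a b a' b' β : ℂ} (h : Ind a b) (h' : Ind a' b') {A B : ℂ[X]}
    (hS : Sol A B (G2 a b) (G3 a b) (G2 a' b') (G3 a' b') (β ^ 2)) (T : Finset (ℤ × ℤ))
    (hT : ∀ x ∈ T, ∀ y ∈ T, (∃ w : ℤ × ℤ, lat a' b' x - lat a' b' y = β * lat a b w) → x = y) :
    T.card ≤ max A.natDegree B.natDegree := by
  classical
  obtain ⟨c, Z, hZ, key⟩ := hS.key h h'
  have hβ : β ≠ 0 := fun h0 => hS.mul_ne (by rw [h0]; ring)
  -- the bad values of `u`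
  have c1 : (⋃ x : ℤ × ℤ, (fun z => β * z + c - lat a' b' x) '' Z).Countable :=
    Set.countable_iUnion fun x => hZ.image _
  have c2 : (Set.range fun w : (ℤ × ℤ) × (ℤ × ℤ) × (ℤ × ℤ) =>
      (β * lat a b w.1 + 2 * c - lat a' b' w.2.1 - lat a' b' w.2.2) / 2).Countable :=
    Set.countable_range _
  obtain ⟨u, hu⟩ := ((c1.union c2).dense_compl ℝ).nonempty
  set ζ : ℤ × ℤ → ℂ := fun x => (u - c + lat a' b' x) / β with hζ
  have hζβ : ∀ x, β * ζ x = u - c + lat a' b' x := fun x => by rw [hζ]; field_simp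
  have g1 : ∀ x, ζ x ∉ Z := by
    intro x hx
    refine hu (Or.inl (Set.mem_iUnion.2 ⟨x, ζ x, hx, ?_⟩))
    simp only
    rw [hζβ]
    ring
  have g2 : ∀ x y, Off a b (ζ x + ζ y) := by
    intro x y w hw
    refine hu (Or.inr ⟨(w, x, y), ?_⟩)
    simp only
    rw [← hw, mul_add, hζβ, hζβ]
    ring
  have hinj : Set.InjOn (fun x => wp a b (ζ x)) T := by
    intro x hx y hy hxy
    obtain ⟨w, hw⟩ := Hom.exists_of_wp_eq h (key _ (g1 x)).1 (key _ (g1 y)).1 (g2 x y) hxy
    refine hT x hx y hy ⟨w, ?_⟩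
    have e := congrArg (fun z => β * z) hw
    simp only [mul_add, hζβ] at e
    linear_combination e
  set v : ℂ := wp a' b' u with hv
  have hP : A - C v * B ≠ 0 := by
    intro h0
    have hA : A = C v * B := sub_eq_zero.1 h0
    apply hS.wron_ne
    rw [hA, derivative_C_mul]
    ring
  have hroot : ∀ x ∈ T, wp a b (ζ x) ∈ (A - C v * B).roots.toFinset := by
    intro x _
    obtain ⟨-, -, -, e⟩ := key _ (g1 x)
    rw [hζβ, show u - c + lat a' b' x + c = u + lat a' b' x by ring, wp_add_lat h'] at e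
    rw [Multiset.mem_toFinset, mem_roots hP, IsRoot, eval_sub, eval_mul, eval_C, ← e]
    exact sub_self _
  calc T.card = (T.image fun x => wp a b (ζ x)).card := (Finset.card_image_of_injOn hinj).symm
    _ ≤ (A - C v * B).roots.toFinset.card := Finset.card_le_card fun z hz => by
        obtain ⟨x, hx, rfl⟩ := Finset.mem_image.1 hz
        exact hroot x hx
    _ ≤ Multiset.card (A - C v * B).roots := Multiset.toFinset_card_le _
    _ ≤ (A - C v * B).natDegree := card_roots' _
    _ ≤ max A.natDegree (C v * B).natDegree := natDegree_sub_le _ _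
    _ ≤ max A.natDegree B.natDegree := max_le_max_left _ (natDegree_C_mul_le _ _)

theorem Sol.covol_le {a b a' b' β : ℂ} (h : Ind a b) (h' : Ind a' b') {A B : ℂ[X]}
    (hS : Sol A B (G2 a b) (G3 a b) (G2 a' b') (G3 a' b') (β ^ 2)) :
    covol a' b' ≤ ‖β‖ ^ 2 * covol a b ∧
      ‖β‖ ^ 2 * covol a b ≤ max A.natDegree B.natDegree * covol a' b' := by
  have hβ : β ≠ 0 := fun h0 => hS.mul_ne (by rw [h0]; ring)
  have hL := hS.latMap h h'
  obtain ⟨⟨p, q⟩, e1⟩ := hL (1, 0)
  obtain ⟨⟨r, s⟩, e2⟩ := hL (0, 1)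
  have e1' : β * a = (p : ℂ) * a' + (q : ℂ) * b' := by simpa [lat] using e1
  have e2' : β * b = (r : ℂ) * a' + (s : ℂ) * b' := by simpa [lat] using e2
  have hn : ‖β‖ ^ 2 = β.re ^ 2 + β.im ^ 2 := by
    rw [Complex.sq_norm, Complex.normSq_apply]; ring
  have a1 := congrArg Complex.re e1'
  have a2 := congrArg Complex.im e1'
  have a3 := congrArg Complex.re e2'
  have a4 := congrArg Complex.im e2'
  simp only [Complex.mul_re, Complex.mul_im, Complex.add_re, Complex.add_im, Complex.intCast_re,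
    Complex.intCast_im, zero_mul, sub_zero, add_zero] at a1 a2 a3 a4
  have hdet : (β.re ^ 2 + β.im ^ 2) * (a.re * b.im - a.im * b.re) =
      ((p * s - q * r : ℤ) : ℝ) * (a'.re * b'.im - a'.im * b'.re) := by
    have e : (β.re ^ 2 + β.im ^ 2) * (a.re * b.im - a.im * b.re) =
        (β.re * a.re - β.im * a.im) * (β.re * b.im + β.im * b.re) -
          (β.re * a.im + β.im * a.re) * (β.re * b.re - β.im * b.im) := by ring
    rw [e, a1, a2, a3, a4]
    push_cast
    ring
  have hpos : 0 < β.re ^ 2 + β.im ^ 2 := by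
    rw [← hn]
    exact pow_pos (norm_pos_iff.2 hβ) 2
  have hcov : ‖β‖ ^ 2 * covol a b = ((p * s - q * r).natAbs : ℝ) * covol a' b' := by
    have e := congrArg abs hdet
    rw [abs_mul, abs_mul, abs_of_pos hpos, ← hn] at e
    rw [covol, covol, e, Nat.cast_natAbs, Int.cast_abs]
  have hd : p * s - q * r ≠ 0 := by
    intro h0
    rw [h0, Int.cast_zero, zero_mul] at hdet
    rcases mul_eq_zero.1 hdet with h1 | h1
    · exact hpos.ne' h1
    · exact h h1
  have hc0 : 0 ≤ covol a' b' := abs_nonneg _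
  obtain ⟨T, hT, hT'⟩ := Lat2_reps hd
  have hcard : (p * s - q * r).natAbs ≤ max A.natDegree B.natDegree := by
    rw [← hT]
    refine Lat2_card h h' hS T ?_
    rintro ⟨x1, x2⟩ hx ⟨y1, y2⟩ hy ⟨⟨m, n⟩, hw⟩
    refine hT' _ hx _ hy ⟨m, n, ?_⟩
    have e3 : lat a' b' (x1 - y1, x2 - y2) = lat a' b' (m * p + n * r, m * q + n * s) := by
      simp only [lat] at hw ⊢
      push_cast
      linear_combination hw + (m : ℂ) * e1' + (n : ℂ) * e2'
    have e4 := lat_injective h' e3
    exact ⟨congrArg Prod.fst e4, congrArg Prod.snd e4⟩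
  constructor
  · rw [hcov]
    have h1 : (1 : ℝ) ≤ ((p * s - q * r).natAbs : ℝ) := by
      exact_mod_cast Int.natAbs_pos.2 hd
    nlinarith
  · rw [hcov]
    have h1 : ((p * s - q * r).natAbs : ℝ) ≤ ((max A.natDegree B.natDegree : ℕ) : ℝ) := by
      exact_mod_cast hcard
    have h2 := mul_le_mul_of_nonneg_right h1 hc0
    push_cast at h2 ⊢
    exact h2

end Pool.Agent.LGO
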