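import Pool.Agent.LGO.Mul.Defs

/-!
# LGO/Mul: integrality by valuations, generic points

PROOFS. (1) `isIntegral_of_forall_valuation`: let `R` be the integral closure of `ℤ` in `ℂ` as a
subring (`(integralClosure ℤ ℂ).toSubring`); it is integrally closed in `ℂ`; if `x ∉ R` then
`Subring.exists_le_valuationSubring_of_isIntegrallyClosedIn` gives a valuation subring containing
`R` and not containing `x` (see `Mathlib/RingTheory/Valuation/LocalSubring.lean`).
(2) `exists_generic`: for every nonzero `P` in the finite set divide by a coefficient of maximal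
valuation: the quotient has coefficients in `V` and its reduction in the residue field `κ` is not
zero. `κ` is infinite (it is algebraically closed since `ℂ` is: lift monic polynomials; or: a monic
irreducible polynomial lifts, has a root in `ℂ`, the root is integral over `V`, so in `V`), so the
product of the reductions has a non-root in `κ`; `t` = a lift of it.
-/

namespace Pool.Agent.LGO

open Polynomial

theorem isIntegral_of_forall_valuation {x : ℂ} (h : ∀ V : ValuationSubring ℂ, x ∈ V) :
    IsIntegral ℤ x := by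
  have h1 : x ∈ (⨅ V : {V : ValuationSubring ℂ // (∅ : Set ℂ) ⊆ V.toSubring}, V.1.toSubring) := by
    rw [Subring.mem_iInf]
    intro V
    exact h V.1
  rw [iInf_valuationSubring_superset] at h1
  have h2 : IsIntegral (Subring.closure (∅ : Set ℂ)) x := h1
  have h3 : Algebra.IsIntegral ℤ (Subring.closure (∅ : Set ℂ)) := by
    constructor
    intro y
    have hy : (y : ℂ) ∈ (⊥ : Subring ℂ) := by
      have h4 : ∀ w : ℂ, w ∈ Subring.closure (∅ : Set ℂ) → w ∈ (⊥ : Subring ℂ) := by
        intro w hw
        rwa [Subring.closure_empty] at hw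
      exact h4 _ y.2
    obtain ⟨n, hn⟩ := Subring.mem_bot.1 hy
    have e : y = algebraMap ℤ (Subring.closure (∅ : Set ℂ)) n := by
      apply Subtype.ext
      rw [← hn]
      simp
    rw [e]
    exact isIntegral_algebraMap
  exact isIntegral_trans x h2

private lemma infinite_residue (V : ValuationSubring ℂ) :
    Infinite (IsLocalRing.ResidueField V) := by
  by_contra hinf
  rw [not_infinite_iff_finite] at hinf
  have := hinf
  have : Fintype (IsLocalRing.ResidueField V) := Fintype.ofFinite _
  set q := Fintype.card (IsLocalRing.ResidueField V) with hq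
  have hq1 : 1 < q := Fintype.one_lt_card
  have hdeg : (X + C (1 : V) : V[X]).degree < (X ^ q : V[X]).degree := by
    rw [degree_X_add_C, degree_X_pow]
    exact_mod_cast hq1
  have hm : (X ^ q - (X + C (1 : V)) : V[X]).Monic := (monic_X_pow q).sub_of_left hdeg
  have hd : (X ^ q - (X + C (1 : V)) : V[X]).natDegree = q := by
    rw [natDegree_sub_eq_left_of_natDegree_lt, natDegree_X_pow]
    rw [natDegree_X_add_C, natDegree_X_pow]
    exact hq1
  obtain ⟨z, hz⟩ := IsAlgClosed.exists_root
    ((X ^ q - (X + C (1 : V)) : V[X]).map (algebraMap V ℂ)) (by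
      rw [hm.degree_map, degree_eq_natDegree hm.ne_zero, hd]
      intro h0
      have : q = 0 := by exact_mod_cast h0
      omega)
  have hzi : IsIntegral V z := ⟨_, hm, by
    rw [IsRoot.def, eval_map] at hz
    exact hz⟩
  obtain ⟨y, hy⟩ := IsIntegrallyClosed.isIntegral_iff.1 hzi
  have hy0 : y ^ q - (y + 1) = 0 := by
    apply (IsFractionRing.injective V ℂ)
    rw [map_zero]
    rw [IsRoot.def, eval_map, ← hy, eval₂_at_apply] at hz
    simpa using hz
  have hr := congrArg (IsLocalRing.residue V) hy0
  rw [map_sub, map_add, map_pow, map_one, map_zero, hq, FiniteField.pow_card] at hr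
  have : (1 : IsLocalRing.ResidueField V) = 0 := by linear_combination -hr
  exact one_ne_zero this

private lemma generic_one (V : ValuationSubring ℂ) (P : ℂ[X]) :
    ∃ F : Finset (IsLocalRing.ResidueField V), ∀ t : V, IsLocalRing.residue V t ∉ F →
      ∀ i, V.valuation (P.coeff i) ≤ V.valuation (P.eval (t : ℂ)) := by
  classical
  by_cases hP : P = 0
  · refine ⟨∅, fun t _ i => ?_⟩
    rw [hP, coeff_zero, eval_zero]
  obtain ⟨i0, hi0, hmax⟩ := P.support.exists_max_image (fun i => V.valuation (P.coeff i))
    (nonempty_support_iff.2 hP)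
  have hmax' : ∀ i, V.valuation (P.coeff i) ≤ V.valuation (P.coeff i0) := by
    intro i
    by_cases hi : i ∈ P.support
    · exact hmax i hi
    · rw [notMem_support_iff.1 hi, map_zero]
      exact zero_le
  have hc0 : P.coeff i0 ≠ 0 := mem_support_iff.1 hi0
  have hvc0 : V.valuation (P.coeff i0) ≠ 0 := (Valuation.ne_zero_iff _).2 hc0
  have hl : (C (P.coeff i0)⁻¹ * P) ∈ lifts (algebraMap V ℂ) := by
    rw [lifts_iff_coeff_lifts]
    intro n
    have hmem : (P.coeff i0)⁻¹ * P.coeff n ∈ V := by
      rw [← V.valuation_le_one_iff, map_mul, map_inv₀]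
      rw [inv_mul_le_iff₀ (zero_lt_iff.2 hvc0), mul_one]
      exact hmax' n
    exact ⟨⟨_, hmem⟩, by rw [coeff_C_mul]; rfl⟩
  obtain ⟨Q, hQ⟩ := (mem_lifts _).1 hl
  have hQ0 : Q.map (IsLocalRing.residue V) ≠ 0 := by
    intro h0
    have h1 : Q.coeff i0 = 1 := by
      apply (IsFractionRing.injective V ℂ)
      rw [← coeff_map, hQ, coeff_C_mul, inv_mul_cancel₀ hc0, map_one]
    have h2 := congrArg (fun R => R.coeff i0) h0
    simp only [coeff_map, h1, map_one, coeff_zero] at h2
    exact one_ne_zero h2
  refine ⟨(Q.map (IsLocalRing.residue V)).roots.toFinset, fun t ht i => ?_⟩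
  have hne : IsLocalRing.residue V (Q.eval t) ≠ 0 := by
    intro h0
    apply ht
    rw [Multiset.mem_toFinset, mem_roots hQ0, IsRoot.def, eval_map, eval₂_at_apply]
    exact h0
  have hu : IsUnit (Q.eval t) := (IsLocalRing.residue_ne_zero_iff_isUnit _).1 hne
  have hv1 : V.valuation ((Q.eval t : V) : ℂ) = 1 := (V.valuation_eq_one_iff _).1 hu
  have hev : P.eval (t : ℂ) = P.coeff i0 * ((Q.eval t : V) : ℂ) := by
    have h1 : ((Q.eval t : V) : ℂ) = (C (P.coeff i0)⁻¹ * P).eval (t : ℂ) := by
      rw [← hQ, eval_map]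
      exact (eval₂_at_apply (algebraMap V ℂ) t).symm
    rw [h1, eval_mul, eval_C, ← mul_assoc, mul_inv_cancel₀ hc0, one_mul]
  rw [hev, map_mul, hv1, mul_one]
  exact hmax' i

theorem exists_generic (V : ValuationSubring ℂ) (s : Finset ℂ[X]) :
    ∃ t : ℂ, t ∈ V ∧ ∀ P ∈ s, ∀ i, V.valuation (P.coeff i) ≤ V.valuation (P.eval t) := by
  classical
  choose F hF using generic_one V
  have := infinite_residue V
  obtain ⟨r, hr⟩ := Infinite.exists_notMem_finset (s.biUnion F)
  obtain ⟨t, rfl⟩ := IsLocalRing.residue_surjective r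
  refine ⟨t, t.2, fun P hP i => hF P t (fun h => hr ?_) i⟩
  exact Finset.mem_biUnion.2 ⟨P, hP, h⟩

end Pool.Agent.LGO
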